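import Pool.Agent.Q136.BM.Stm

/-!
# Bohr sets are dense; the case of one vanishing endomorphism
-/

namespace Q136.BM

open scoped ComplexConjugate BigOperators

universe u

lemma circle_cover (η : ℝ) (hη : 0 < η) : ∃ t : Finset Circle, ∀ z : Circle, ∃ c ∈ t,
    ‖((z : Circle) : ℂ) - (c : ℂ)‖ < η := by
  obtain ⟨t, -, ht, hcov⟩ := finite_cover_balls_of_compact (isCompact_univ (X := Circle)) hη
  refine ⟨ht.toFinset, fun z => ?_⟩
  have h1 := hcov (Set.mem_univ z)
  rw [Set.mem_iUnion₂] at h1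
  obtain ⟨c, hc, hz⟩ := h1
  refine ⟨c, ht.mem_toFinset.mpr hc, ?_⟩
  rw [Metric.mem_ball] at hz
  rw [← dist_eq_norm]
  exact hz

theorem bdens : S_bdens.{u} := by
  classical
  intro k η hη
  obtain ⟨t, ht⟩ := circle_cover (η / 2) (half_pos hη)
  have ht0 : t.Nonempty := by
    obtain ⟨c, hc, -⟩ := ht 1
    exact ⟨c, hc⟩
  have : Nonempty t := ⟨⟨_, ht0.choose_spec⟩⟩
  have hN : (0 : ℝ) < Fintype.card (Fin k → t) := by
    exact_mod_cast Fintype.card_pos
  refine ⟨1 / Fintype.card (Fin k → t), by positivity, fun G _ m hm χ => ?_⟩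
  let cell : (Fin k → t) → Set G := fun c => {g | ∀ j, ‖((χ j g : Circle) : ℂ) - ((c j : Circle) : ℂ)‖ < η / 2}
  have h1 : (1 : ℝ) ≤ ∑ c, m (ind (cell c)) := by
    have h2 : m (fun x => ∑ c, ind (cell c) x) = ∑ c, m (ind (cell c)) :=
      hm.toIsPos.sum Finset.univ (fun c _ => bd_ind (cell c))
    rw [← h2, ← hm.one]
    refine hm.toIsPos.mono (Bd.const 1) (Bd.sum _ (fun c _ => bd_ind (cell c))) (fun x => ?_)
    choose c hc using fun j => ht (χ j x)
    have hx : x ∈ cell (fun j => ⟨c j, (hc j).1⟩) := fun j => (hc j).2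
    calc (1 : ℝ) = ind (cell (fun j => ⟨c j, (hc j).1⟩)) x := (ind_mem hx).symm
      _ ≤ ∑ c, ind (cell c) x :=
        Finset.single_le_sum (f := fun c => ind (cell c) x) (fun c _ => (ind_icc (cell c) x).1)
          (Finset.mem_univ _)
  obtain ⟨c, hc⟩ : ∃ c, 1 / (Fintype.card (Fin k → t) : ℝ) ≤ m (ind (cell c)) := by
    by_contra hcon
    push Not at hcon
    have h3 : ∑ c, m (ind (cell c)) < ∑ _c : Fin k → t, 1 / (Fintype.card (Fin k → t) : ℝ) :=
      Finset.sum_lt_sum_of_nonempty Finset.univ_nonempty (fun c _ => hcon c)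
    rw [Finset.sum_const, Finset.card_univ, nsmul_eq_mul, mul_one_div_cancel hN.ne'] at h3
    linarith
  refine hc.trans ?_
  have hpos : 0 < m (ind (cell c)) := lt_of_lt_of_le (by positivity) hc
  obtain ⟨g₀, hg₀⟩ := hm.toIsMean.exists_pos (bd_ind (cell c)) hpos
  have hg₀' := ind_pos hg₀
  rw [← hm.inv (ind (bohr χ η)) (-g₀) (bd_ind _)]
  refine hm.toIsPos.mono (bd_ind _) ((bd_ind _).comp (fun x => x + -g₀)) (fun x => ?_)
  by_cases hx : x ∈ cell c
  · have hb : x + -g₀ ∈ bohr χ η := by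
      intro j
      have e1 := hx j
      have e2 := hg₀' j
      have e3 : ((χ j (x + -g₀) : Circle) : ℂ) - 1 =
          (((χ j x : Circle) : ℂ) - ((χ j g₀ : Circle) : ℂ)) * ((χ j (-g₀) : Circle) : ℂ) := by
        rw [sub_mul, ← Circle.coe_mul, ← Circle.coe_mul, ← AddChar.map_add_eq_mul,
          ← AddChar.map_add_eq_mul, add_neg_cancel, AddChar.map_zero_eq_one, Circle.coe_one]
      rw [e3, norm_mul, Circle.norm_coe, mul_one]
      have e4 : ((χ j x : Circle) : ℂ) - ((χ j g₀ : Circle) : ℂ) =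
          (((χ j x : Circle) : ℂ) - ((c j : Circle) : ℂ)) -
            (((χ j g₀ : Circle) : ℂ) - ((c j : Circle) : ℂ)) := by ring
      rw [e4]
      refine (norm_sub_le _ _).trans_lt ?_
      linarith
    show ind (cell c) x ≤ ind (bohr χ η) (x + -g₀)
    rw [ind_mem hb]
    exact (ind_icc _ _).2
  · rw [ind_notMem hx]
    exact (ind_icc _ _).1

theorem part1 (hsub : S_subbohr.{u}) : S_part1.{u} := by
  classical
  intro d S hS r n hr hn
  obtain ⟨j₀, rfl⟩ := Finset.card_eq_one.mp hS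
  obtain ⟨η, hη, hη'⟩ := hsub (n j₀) (hn j₀)
  refine ⟨n j₀, η, hη, fun G _ φ hφ hsum A hcov hdis => ?_⟩
  rw [Finset.sum_singleton] at hsum
  obtain ⟨χ, hχ⟩ := hη' G (φ j₀).range (hφ j₀)
  obtain ⟨i, hi⟩ := hcov 0
  refine ⟨i, χ, fun g hg => ⟨fun _ => 0, fun _ => hi, ?_⟩⟩
  obtain ⟨y, hy⟩ := hχ hg
  rw [hsum] at hy
  simp only [map_zero, Finset.sum_const_zero]
  exact hy

end Q136.BM
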