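import Pool.Agent.Q136.BM.Stm

/-!
# Bessel's inequality
-/

namespace Q136.BM

open scoped ComplexConjugate BigOperators

universe u

section

variable {G : Type u} [AddCommGroup G] {m : (G → ℝ) → ℝ}

lemma char_orth (hm : IsInvMean m) {χ ψ : AddChar G Circle} (h : χ ≠ ψ) :
    mC m (fun z => ((χ z : Circle) : ℂ) * conj ((ψ z : Circle) : ℂ)) = 0 := by
  obtain ⟨x, hx⟩ : ∃ x, χ x ≠ ψ x := by
    by_contra hcon
    push Not at hcon
    exact h (DFunLike.ext _ _ hcon)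
  set η : G → ℂ := fun z => ((χ z : Circle) : ℂ) * conj ((ψ z : Circle) : ℂ) with hη
  have hb : BdC η := (BdC.circle χ).mul (BdC.circle ψ).conj
  have h1 := mC_inv hm hb x
  have h2 : (fun z => η (z + x)) = fun z => η x * η z := by
    funext z
    simp only [hη, AddChar.map_add_eq_mul, Circle.coe_mul, map_mul]
    ring
  rw [h2, mC_smul hm.toIsPos _ hb] at h1
  have h3 : η x ≠ 1 := by
    intro h4
    apply hx
    apply Circle.ext
    have h5 : conj ((ψ x : Circle) : ℂ) * ((ψ x : Circle) : ℂ) = 1 := by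
      rw [Complex.conj_mul', Circle.norm_coe]; simp
    calc ((χ x : Circle) : ℂ) = ((χ x : Circle) : ℂ) *
          (conj ((ψ x : Circle) : ℂ) * ((ψ x : Circle) : ℂ)) := by rw [h5, mul_one]
      _ = η x * ((ψ x : Circle) : ℂ) := by rw [hη]; ring
      _ = ((ψ x : Circle) : ℂ) := by rw [h4, one_mul]
  have h6 : (η x - 1) * mC m η = 0 := by linear_combination h1
  exact (mul_eq_zero.mp h6).resolve_left (sub_ne_zero.mpr h3)

lemma char_self (hm : IsInvMean m) (χ : AddChar G Circle) :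
    mC m (fun z => ((χ z : Circle) : ℂ) * conj ((χ z : Circle) : ℂ)) = 1 := by
  have : (fun z => ((χ z : Circle) : ℂ) * conj ((χ z : Circle) : ℂ)) = fun _ => (1 : ℂ) := by
    funext z
    rw [Complex.mul_conj', Circle.norm_coe]
    simp
  rw [this, mC_const hm.toIsMean]

lemma sum_sum (hm : IsInvMean m) (Λ : Finset (AddChar G Circle)) (a : AddChar G Circle → ℂ) :
    mC m (fun z => (∑ χ ∈ Λ, a χ * ((χ z : Circle) : ℂ)) *
      conj (∑ χ ∈ Λ, a χ * ((χ z : Circle) : ℂ))) = ((∑ χ ∈ Λ, ‖a χ‖ ^ 2 : ℝ) : ℂ) := by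
  classical
  have hb : ∀ χ ψ : AddChar G Circle,
      BdC (fun z => ((χ z : Circle) : ℂ) * conj ((ψ z : Circle) : ℂ)) :=
    fun χ ψ => (BdC.circle χ).mul (BdC.circle ψ).conj
  have e : (fun z => (∑ χ ∈ Λ, a χ * ((χ z : Circle) : ℂ)) *
      conj (∑ χ ∈ Λ, a χ * ((χ z : Circle) : ℂ))) =
      fun z => ∑ χ ∈ Λ, ∑ ψ ∈ Λ, (a χ * conj (a ψ)) *
        (((χ z : Circle) : ℂ) * conj ((ψ z : Circle) : ℂ)) := by
    funext z
    rw [map_sum, Finset.sum_mul_sum]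
    refine Finset.sum_congr rfl (fun χ _ => Finset.sum_congr rfl (fun ψ _ => ?_))
    rw [map_mul]
    ring
  rw [e, mC_sum hm.toIsPos _ (fun χ _ => BdC.sum _ (fun ψ _ => (hb χ ψ).smul _))]
  push_cast
  refine Finset.sum_congr rfl (fun χ hχ => ?_)
  rw [mC_sum hm.toIsPos _ (fun ψ _ => (hb χ ψ).smul _), Finset.sum_eq_single χ]
  · rw [mC_smul hm.toIsPos _ (hb χ χ), char_self hm, mul_one, Complex.mul_conj']
  · intro ψ _ hψ
    rw [mC_smul hm.toIsPos _ (hb χ ψ), char_orth hm hψ.symm, mul_zero]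
  · intro h
    exact absurd hχ h

lemma normSq_eq (hm : IsInvMean m) (f : G → ℂ) :
    ((m (fun z => ‖f z‖ ^ 2) : ℝ) : ℂ) = mC m (fun z => f z * conj (f z)) := by
  rw [← mC_real hm.toIsPos]
  congr 1
  funext z
  rw [Complex.mul_conj', Complex.ofReal_pow]

lemma bessel_eq (hm : IsInvMean m) {f : G → ℂ} (Λ : Finset (AddChar G Circle)) (hf : BdC f) :
    m (fun z => ‖f z - ∑ χ ∈ Λ, mC m (fun z => f z * conj ((χ z : Circle) : ℂ)) *
        ((χ z : Circle) : ℂ)‖ ^ 2) =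
      m (fun z => ‖f z‖ ^ 2) -
        ∑ χ ∈ Λ, ‖mC m (fun z => f z * conj ((χ z : Circle) : ℂ))‖ ^ 2 := by
  set c : AddChar G Circle → ℂ := fun χ => mC m (fun z => f z * conj ((χ z : Circle) : ℂ)) with hc
  set S : G → ℂ := fun z => ∑ χ ∈ Λ, c χ * ((χ z : Circle) : ℂ) with hS
  have hSb : BdC S := BdC.sum _ (fun χ _ => (BdC.circle χ).smul _)
  have h1 : mC m (fun z => S z * conj (S z)) = ((∑ χ ∈ Λ, ‖c χ‖ ^ 2 : ℝ) : ℂ) := sum_sum hm Λ c
  have h2 : mC m (fun z => f z * conj (S z)) = ((∑ χ ∈ Λ, ‖c χ‖ ^ 2 : ℝ) : ℂ) := by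
    have hb : ∀ χ : AddChar G Circle, BdC (fun z => f z * conj ((χ z : Circle) : ℂ)) :=
      fun χ => hf.mul (BdC.circle χ).conj
    have e : (fun z => f z * conj (S z)) =
        fun z => ∑ χ ∈ Λ, conj (c χ) * (f z * conj ((χ z : Circle) : ℂ)) := by
      funext z
      rw [hS]
      simp only
      rw [map_sum, Finset.mul_sum]
      refine Finset.sum_congr rfl (fun χ _ => ?_)
      rw [map_mul]
      ring
    rw [e, mC_sum hm.toIsPos _ (fun χ _ => (hb χ).smul _)]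
    push_cast
    refine Finset.sum_congr rfl (fun χ _ => ?_)
    rw [mC_smul hm.toIsPos _ (hb χ)]
    show conj (c χ) * c χ = _
    rw [Complex.conj_mul']
  have h3 : mC m (fun z => S z * conj (f z)) = ((∑ χ ∈ Λ, ‖c χ‖ ^ 2 : ℝ) : ℂ) := by
    have h4 := mC_conj hm.toIsPos (hf.mul hSb.conj)
    rw [h2, Complex.conj_ofReal] at h4
    rw [← h4]
    congr 1
    funext z
    rw [map_mul, Complex.conj_conj, mul_comm]
  have h5 : ((m (fun z => ‖f z - S z‖ ^ 2) : ℝ) : ℂ) =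
      ((m (fun z => ‖f z‖ ^ 2) - ∑ χ ∈ Λ, ‖c χ‖ ^ 2 : ℝ) : ℂ) := by
    rw [normSq_eq hm (fun z => f z - S z)]
    have e : (fun z => (f z - S z) * conj (f z - S z)) = fun z =>
        ((f z * conj (f z) - f z * conj (S z)) - S z * conj (f z)) + S z * conj (S z) := by
      funext z
      rw [map_sub]
      ring
    rw [e, mC_add hm.toIsPos (((hf.mul hf.conj).sub (hf.mul hSb.conj)).sub (hSb.mul hf.conj))
      (hSb.mul hSb.conj), mC_sub hm.toIsPos ((hf.mul hf.conj).sub (hf.mul hSb.conj))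
      (hSb.mul hf.conj), mC_sub hm.toIsPos (hf.mul hf.conj) (hf.mul hSb.conj), h1, h2, h3,
      ← normSq_eq hm]
    push_cast
    ring
  exact_mod_cast h5

end

theorem bessel : S_bessel.{u} := by
  intro G _ m hm
  refine ⟨fun χ ψ h => char_orth hm h, fun f Λ hf => bessel_eq hm Λ hf, fun Λ a => ?_⟩
  have h := normSq_eq hm (fun z => ∑ χ ∈ Λ, a χ * ((χ z : Circle) : ℂ))
  rw [sum_sum hm] at h
  exact_mod_cast h

theorem large (hB : S_bessel.{u}) : S_large.{u} := by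
  intro G _ m hm f hf ε hε
  obtain ⟨-, hbes, -⟩ := hB G m hm
  have hfb : BdC f := ⟨1, hf⟩
  set c : AddChar G Circle → ℂ := fun χ => mC m (fun z => f z * conj ((χ z : Circle) : ℂ)) with hc
  have hm1 : m (fun z => ‖f z‖ ^ 2) ≤ 1 :=
    hm.toIsMean.le_of_le hfb.normSq (fun z => pow_le_one₀ (norm_nonneg _) (hf z))
  have key : ∀ Λ : Finset (AddChar G Circle), (∀ χ ∈ Λ, ε ≤ ‖c χ‖) → (Λ.card : ℝ) * ε ^ 2 ≤ 1 := by
    intro Λ hΛ
    have h1 := hbes f Λ hfb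
    have h2 : 0 ≤ m (fun z => ‖f z - ∑ χ ∈ Λ, mC m (fun z => f z * conj ((χ z : Circle) : ℂ)) *
        ((χ z : Circle) : ℂ)‖ ^ 2) := by
      refine hm.nonneg _ (BdC.normSq ?_) (fun z => by positivity)
      exact hfb.sub (BdC.sum _ (fun χ _ => (BdC.circle χ).smul _))
    have h3 : ∑ χ ∈ Λ, ε ^ 2 ≤ ∑ χ ∈ Λ, ‖c χ‖ ^ 2 :=
      Finset.sum_le_sum (fun χ hχ => pow_le_pow_left₀ hε.le (hΛ χ hχ) 2)
    rw [Finset.sum_const, nsmul_eq_mul] at h3
    linarith
  have hfin : {χ : AddChar G Circle | ε ≤ ‖c χ‖}.Finite := by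
    by_contra hinf
    obtain ⟨n, hn⟩ := exists_nat_gt (1 / ε ^ 2)
    obtain ⟨Λ, hΛ1, hΛ2⟩ := Set.Infinite.exists_subset_card_eq hinf n
    have := key Λ (fun χ hχ => hΛ1 hχ)
    rw [hΛ2] at this
    rw [div_lt_iff₀ (by positivity)] at hn
    linarith
  refine ⟨hfin.toFinset, key _ (fun χ hχ => by simpa using hχ), fun χ => ?_⟩
  simp [hc]

end Q136.BM
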