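import Pool.Agent.Q136.BM.Stm

/-!
# Extension of characters; subgroups of finite index contain Bohr sets
-/

namespace Q136.BM

open scoped ComplexConjugate BigOperators

universe u

/-- the circle is divisible -/
@[instance_reducible] noncomputable def circleDiv : DivisibleBy (Additive Circle) ℤ where
  div z n := if n = 0 then 0 else Additive.ofMul (Circle.exp (Complex.arg (z.toMul : ℂ) / n))
  div_zero z := if_pos rfl
  div_cancel {n} z hn := by
    rw [if_neg hn]
    have h : n • (Complex.arg (z.toMul : ℂ) / n) = Complex.arg (z.toMul : ℂ) := by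
      have : (n : ℝ) ≠ 0 := by exact_mod_cast hn
      rw [zsmul_eq_mul]
      field_simp
    have h2 : n • Circle.expHom (Complex.arg (z.toMul : ℂ) / n) =
        Circle.expHom (n • (Complex.arg (z.toMul : ℂ) / n)) := (map_zsmul _ _ _).symm
    rw [h] at h2
    exact h2.trans (congrArg Additive.ofMul (Circle.exp_arg z.toMul))

theorem charext : S_charext.{u} := by
  intro G _ φ χ hχ
  have := circleDiv
  have hker : φ.rangeRestrict.ker ≤ χ.toAddMonoidHom.ker := by
    intro x hx
    rw [AddMonoidHom.mem_ker] at hx ⊢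
    have h1 : φ x = 0 := by
      have := congrArg Subtype.val hx
      simpa using this
    show Additive.ofMul (χ x) = 0
    rw [hχ x h1]
    rfl
  let g : φ.range →+ Additive Circle :=
    φ.rangeRestrict.liftOfSurjective φ.rangeRestrict_surjective ⟨χ.toAddMonoidHom, hker⟩
  have hg : ∀ x, g (φ.rangeRestrict x) = Additive.ofMul (χ x) := fun x =>
    AddMonoidHom.liftOfRightInverse_comp_apply _ _
      (Function.rightInverse_surjInv φ.rangeRestrict_surjective) ⟨χ.toAddMonoidHom, hker⟩ x
  obtain ⟨h, hh⟩ := (Module.Baer.of_divisible (Additive Circle)).extension_property_addMonoidHom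
    φ.range.subtype Subtype.val_injective g
  refine ⟨AddChar.toAddMonoidHomEquiv.symm h, fun x => ?_⟩
  rw [AddChar.toAddMonoidHomEquiv_symm_apply]
  have h2 := DFunLike.congr_fun hh (φ.rangeRestrict x)
  rw [hg] at h2
  have h3 : h (φ x) = Additive.ofMul (χ x) := h2
  rw [h3]
  rfl

/-- nontrivial roots of unity stay away from one -/
lemma root_gap (n : ℕ) (hn : n ≠ 0) : ∃ η : ℝ, 0 < η ∧ ∀ z : ℂ, z ^ n = 1 → ‖z - 1‖ < η → z = 1 := by
  classical
  set S : Finset ℂ := (Polynomial.nthRoots n (1 : ℂ)).toFinset.filter (fun z => z ≠ 1) with hS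
  have hmem : ∀ z : ℂ, z ^ n = 1 → z ≠ 1 → z ∈ S := by
    intro z hz hz1
    rw [hS, Finset.mem_filter, Multiset.mem_toFinset, Polynomial.mem_nthRoots (Nat.pos_of_ne_zero hn)]
    exact ⟨hz, hz1⟩
  rcases S.eq_empty_or_nonempty with h | h
  · refine ⟨1, one_pos, fun z hz _ => ?_⟩
    by_contra hz1
    have := hmem z hz hz1
    rw [h] at this
    exact absurd this (Finset.notMem_empty z)
  · obtain ⟨w, hw, hmin⟩ := S.exists_min_image (fun z => ‖z - 1‖) h
    refine ⟨‖w - 1‖, ?_, fun z hz hlt => ?_⟩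
    · rw [hS, Finset.mem_filter] at hw
      exact norm_pos_iff.mpr (sub_ne_zero.mpr hw.2)
    · by_contra hz1
      exact absurd hlt (not_lt.mpr (hmin z (hmem z hz hz1)))

theorem subbohr : S_subbohr.{u} := by
  classical
  intro n hn
  obtain ⟨η, hη, hgap⟩ := root_gap n hn
  refine ⟨η, hη, fun G _ H hH => ?_⟩
  have hfi : H.FiniteIndex := ⟨by rw [hH]; exact hn⟩
  have : Finite (G ⧸ H) := AddSubgroup.finite_quotient_of_finiteIndex
  have : Fintype (G ⧸ H) := Fintype.ofFinite _
  have : Fintype (AddChar (G ⧸ H) Circle) :=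
    Fintype.ofEquiv (AddChar (G ⧸ H) ℂ) AddChar.circleEquivComplex.symm.toEquiv
  have hcard : Fintype.card (AddChar (G ⧸ H) Circle) = n := by
    rw [Fintype.card_congr (AddChar.circleEquivComplex (α := G ⧸ H)).toEquiv, AddChar.card_eq,
      ← Nat.card_eq_fintype_card]
    exact hH
  let e : Fin n ≃ AddChar (G ⧸ H) Circle := (Fintype.equivFinOfCardEq hcard).symm
  refine ⟨fun i => (e i).compAddMonoidHom (QuotientAddGroup.mk' H), fun g hg => ?_⟩
  by_contra hgH
  have hne : (QuotientAddGroup.mk' H g) ≠ 0 := by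
    intro h
    exact hgH ((QuotientAddGroup.eq_zero_iff g).mp h)
  obtain ⟨ψ, hψ⟩ := AddChar.exists_apply_ne_zero.mpr hne
  have h1 : ‖(((e (e.symm (AddChar.circleEquivComplex.symm ψ)))
      (QuotientAddGroup.mk' H g) : Circle) : ℂ) - 1‖ < η :=
    hg (e.symm (AddChar.circleEquivComplex.symm ψ))
  rw [Equiv.apply_symm_apply] at h1
  apply hψ
  have h2 : ((AddChar.circleEquivComplex.symm ψ (QuotientAddGroup.mk' H g) : Circle) : ℂ) =
      ψ (QuotientAddGroup.mk' H g) := by
    have := DFunLike.congr_fun (AddChar.circleEquivComplex.apply_symm_apply ψ)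
      (QuotientAddGroup.mk' H g)
    exact this
  rw [h2] at h1
  refine hgap _ ?_ h1
  rw [← AddChar.map_nsmul_eq_pow]
  have h3 : n • (QuotientAddGroup.mk' H g) = 0 := by
    have h4 : Nat.card (G ⧸ H) = n := hH
    rw [← h4, Nat.card_eq_fintype_card]
    exact card_nsmul_eq_zero
  rw [h3, AddChar.map_zero_eq_one]

end Q136.BM
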