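import Pool.Agent.Q136.BM.Stm

/-!
# The core theorem
-/

namespace Q136.BM

open scoped ComplexConjugate BigOperators

universe u

/-- a finite set is enumerated by `Fin K` if `K` is at least its cardinality -/
lemma exists_enum {α : Type*} (T : Finset α) (K : ℕ) (h : T.card ≤ K) (a0 : α) :
    ∃ f : Fin K → α, ∀ x ∈ T, ∃ i, f i = x := by
  classical
  let e := T.equivFin
  refine ⟨fun i => if hi : i.1 < T.card then (e.symm ⟨i.1, hi⟩ : α) else a0, fun x hx => ?_⟩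
  refine ⟨⟨(e ⟨x, hx⟩).1, (e ⟨x, hx⟩).2.trans_le h⟩, ?_⟩
  simp

lemma bohr_append {G : Type u} [AddCommGroup G] {k l : ℕ} (χ : Fin k → AddChar G Circle)
    (ψ : Fin l → AddChar G Circle) {η η₁ η₂ : ℝ} (h1 : η ≤ η₁) (h2 : η ≤ η₂) :
    bohr (Fin.append χ ψ) η ⊆ bohr χ η₁ ∩ bohr ψ η₂ := by
  intro g hg
  refine ⟨fun j => ?_, fun j => ?_⟩
  · have := hg (Fin.castAdd l j)
    rw [Fin.append_left] at this
    exact this.trans_le h1
  · have := hg (Fin.natAdd k j)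
    rw [Fin.append_right] at this
    exact this.trans_le h2

/-- the index of the preimage of a range -/
lemma index_comap_le {G : Type u} [AddCommGroup G] (φ ψ : G →+ G) (h : ψ.range.index ≠ 0) :
    (ψ.range.comap φ).index ≠ 0 ∧ (ψ.range.comap φ).index ≤ ψ.range.index := by
  have hd : (ψ.range.comap φ).index ∣ ψ.range.index := by
    rw [AddSubgroup.index_comap]
    exact AddSubgroup.relIndex_dvd_index_of_normal _ _
  refine ⟨fun h0 => h ?_, Nat.le_of_dvd (Nat.pos_of_ne_zero h) hd⟩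
  rw [h0] at hd
  exact Nat.eq_zero_of_zero_dvd hd

section Setup

variable {G : Type u} [AddCommGroup G] {ι : Type} [Fintype ι]

/-- the group of the solutions of `∑ φ_j x_j = 0` -/
def HH (φ : ι → G →+ G) : AddSubgroup (ι → G) where
  carrier := {x | ∑ j, φ j (x j) = 0}
  zero_mem' := by simp
  add_mem' := by
    intro x y hx hy
    simp only [Set.mem_ofPred_eq, Pi.add_apply, map_add, Finset.sum_add_distrib] at *
    rw [hx, hy, add_zero]
  neg_mem' := by
    intro x hx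
    simp only [Set.mem_ofPred_eq, Pi.neg_apply, map_neg, Finset.sum_neg_distrib] at *
    rw [hx, neg_zero]

lemma mem_HH {φ : ι → G →+ G} {x : ι → G} : x ∈ HH φ ↔ ∑ j, φ j (x j) = 0 := Iff.rfl

/-- the coordinates -/
def co (φ : ι → G →+ G) (j : ι) : HH φ →+ G :=
  (Pi.evalAddMonoidHom (fun _ : ι => G) j).comp (HH φ).subtype

@[simp] lemma co_apply (φ : ι → G →+ G) (j : ι) (x : HH φ) : co φ j x = x.1 j := rfl

variable [DecidableEq ι]

lemma sum_single (φ : ι → G →+ G) (b : ι) (t : G) :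
    ∑ j, φ j ((Pi.single b t : ι → G) j) = φ b t := by
  rw [Finset.sum_eq_single b]
  · rw [Pi.single_eq_same]
  · intro j _ hj
    rw [Pi.single_eq_of_ne hj, map_zero]
  · intro h
    exact absurd (Finset.mem_univ b) h

/-- two coordinates prescribed -/
lemma exists_two (φ : ι → G →+ G) {a b : ι} (hab : a ≠ b) {t u : G} (h : φ b t = φ a u) :
    ∃ y : HH φ, y.1 b = t ∧ y.1 a = -u ∧ ∀ j, j ≠ a → j ≠ b → y.1 j = 0 := by
  refine ⟨⟨(Pi.single b t : ι → G) + Pi.single a (-u), ?_⟩, ?_, ?_, ?_⟩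
  · rw [mem_HH]
    simp only [Pi.add_apply, map_add, Finset.sum_add_distrib]
    rw [sum_single, sum_single, map_neg, h, add_neg_cancel]
  · simp [hab.symm]
  · simp [hab]
  · intro j h1 h2
    simp [h1, h2]

/-- the weight -/
noncomputable def PP (b : ι) (f : G → ℝ) (x : ι → G) (z : G) : ℝ :=
  ∏ j ∈ Finset.univ.erase b, f (z + x j)

lemma PP_icc (b : ι) {f : G → ℝ} (hf : ∀ x, 0 ≤ f x ∧ f x ≤ 1) (x : ι → G) (z : G) :
    0 ≤ PP b f x z ∧ PP b f x z ≤ 1 :=
  ⟨Finset.prod_nonneg (fun j _ => (hf _).1), Finset.prod_le_one (fun j _ => (hf _).1)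
    (fun j _ => (hf _).2)⟩

/-- the count -/
noncomputable def NN (m : (G → ℝ) → ℝ) {φ : ι → G →+ G} (M : (HH φ → ℝ) → ℝ) (b : ι)
    (f F : G → ℝ) : ℝ :=
  M (fun x => m (fun z => F (z + x.1 b) * PP b f x.1 z))

/-- the complex count -/
noncomputable def NC (m : (G → ℝ) → ℝ) {φ : ι → G →+ G} (M : (HH φ → ℝ) → ℝ) (b : ι)
    (f : G → ℝ) (F : G → ℂ) : ℂ :=
  mC M (fun x => mC m (fun z => F (z + x.1 b) * (PP b f x.1 z : ℂ)))

variable {m : (G → ℝ) → ℝ} {φ : ι → G →+ G} {M : (HH φ → ℝ) → ℝ} {b : ι} {f : G → ℝ}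

lemma bd_term (hf : ∀ x, 0 ≤ f x ∧ f x ≤ 1) {F : G → ℝ} {C : ℝ} (hF : ∀ x, |F x| ≤ C)
    (x : HH φ) (z : G) : |F (z + x.1 b) * PP b f x.1 z| ≤ C := by
  have h1 := PP_icc b hf x.1 z
  rw [abs_mul, abs_of_nonneg h1.1]
  have h2 := hF (z + x.1 b)
  nlinarith [abs_nonneg (F (z + x.1 b)), h1.1, h1.2]

lemma bdC_term (hf : ∀ x, 0 ≤ f x ∧ f x ≤ 1) {F : G → ℂ} {C : ℝ} (hF : ∀ x, ‖F x‖ ≤ C)
    (x : HH φ) (z : G) : ‖F (z + x.1 b) * (PP b f x.1 z : ℂ)‖ ≤ C := by
  have h1 := PP_icc b hf x.1 z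
  rw [norm_mul, Complex.norm_real, Real.norm_eq_abs, abs_of_nonneg h1.1]
  have h2 := hF (z + x.1 b)
  nlinarith [norm_nonneg (F (z + x.1 b)), h1.1, h1.2]

lemma NN_sub (hm : IsMean m) (hM : IsMean M) (hf : ∀ x, 0 ≤ f x ∧ f x ≤ 1) {F F' : G → ℝ}
    (hF : Bd F) (hF' : Bd F') :
    NN m M b f (fun x => F x - F' x) = NN m M b f F - NN m M b f F' := by
  obtain ⟨C, hC⟩ := hF
  obtain ⟨D, hD⟩ := hF'
  unfold NN
  rw [← hM.toIsPos.sub (Bd.iter hm (bd_term hf hC)) (Bd.iter hm (bd_term hf hD))]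
  congr 1
  funext x
  rw [← hm.toIsPos.sub ⟨C, bd_term hf hC x⟩ ⟨D, bd_term hf hD x⟩]
  congr 1
  funext z
  ring

lemma NN_smul (hm : IsMean m) (hM : IsMean M) (hf : ∀ x, 0 ≤ f x ∧ f x ≤ 1) (c : ℝ) {F : G → ℝ}
    (hF : Bd F) : NN m M b f (fun x => c * F x) = c * NN m M b f F := by
  obtain ⟨C, hC⟩ := hF
  unfold NN
  rw [← hM.toIsPos.smul _ _ (Bd.iter hm (bd_term hf hC))]
  congr 1
  funext x
  rw [← hm.toIsPos.smul _ _ ⟨C, bd_term hf hC x⟩]
  congr 1
  funext z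
  ring

lemma NN_sum (hm : IsMean m) (hM : IsMean M) (hf : ∀ x, 0 ≤ f x ∧ f x ≤ 1) {κ : Type*}
    (s : Finset κ) {F : κ → G → ℝ} (hF : ∀ i, Bd (F i)) :
    NN m M b f (fun x => ∑ i ∈ s, F i x) = ∑ i ∈ s, NN m M b f (F i) := by
  choose C hC using hF
  unfold NN
  rw [← hM.toIsPos.sum s (fun i _ => Bd.iter hm (bd_term hf (hC i)))]
  congr 1
  funext x
  rw [← hm.toIsPos.sum s (fun i _ => ⟨C i, bd_term hf (hC i) x⟩)]
  congr 1
  funext z
  rw [Finset.sum_mul]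

lemma NC_real (hm : IsMean m) (hM : IsMean M) (F : G → ℝ) :
    NC m M b f (fun x => (F x : ℂ)) = (NN m M b f F : ℂ) := by
  unfold NC NN
  rw [← mC_real hM.toIsPos]
  congr 1
  funext x
  rw [← mC_real hm.toIsPos]
  congr 1
  funext z
  push_cast
  ring

lemma NC_add (hm : IsMean m) (hM : IsMean M) (hf : ∀ x, 0 ≤ f x ∧ f x ≤ 1) {F F' : G → ℂ}
    (hF : BdC F) (hF' : BdC F') :
    NC m M b f (fun x => F x + F' x) = NC m M b f F + NC m M b f F' := by
  obtain ⟨C, hC⟩ := hF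
  obtain ⟨D, hD⟩ := hF'
  unfold NC
  rw [← mC_add hM.toIsPos (BdC.iter hm (bdC_term hf hC)) (BdC.iter hm (bdC_term hf hD))]
  congr 1
  funext x
  rw [← mC_add hm.toIsPos ⟨C, bdC_term hf hC x⟩ ⟨D, bdC_term hf hD x⟩]
  congr 1
  funext z
  ring

/-- invariance under the kernel of `φ b` -/
lemma NN_ker (hm : IsMean m) (hM : IsInvMean M) (hf : ∀ x, 0 ≤ f x ∧ f x ≤ 1) {F : G → ℝ}
    (hF : Bd F) {s : G} (hs : φ b s = 0) :
    NN m M b f (fun x => F (x + s)) = NN m M b f F := by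
  obtain ⟨C, hC⟩ := hF
  have hmem : (Pi.single b s : ι → G) ∈ HH φ := by rw [mem_HH, sum_single, hs]
  unfold NN
  rw [← hM.inv (fun x => m (fun z => F (z + x.1 b) * PP b f x.1 z)) ⟨_, hmem⟩
    (Bd.iter hm (bd_term hf hC))]
  congr 1
  funext x
  congr 1
  funext z
  have e1 : (x + ⟨_, hmem⟩ : HH φ).1 = x.1 + Pi.single b s := rfl
  have e2 : PP b f (x + ⟨_, hmem⟩ : HH φ).1 z = PP b f x.1 z := by
    unfold PP
    refine Finset.prod_congr rfl (fun j hj => ?_)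
    rw [e1, Pi.add_apply, Pi.single_eq_of_ne (Finset.ne_of_mem_erase hj), add_zero]
  rw [e2, e1, Pi.add_apply, Pi.single_eq_same]
  simp only [add_assoc]

/-- the trivial bound -/
lemma NC_le (hm : IsInvMean m) (hM : IsMean M) (hf : ∀ x, 0 ≤ f x ∧ f x ≤ 1) {F : G → ℂ}
    (hF : BdC F) : ‖NC m M b f F‖ ≤ Real.sqrt (m (fun z => ‖F z‖ ^ 2)) := by
  obtain ⟨C, hC⟩ := hF
  have hF' : BdC F := ⟨C, hC⟩
  have h1 : ‖NC m M b f F‖ ≤ m (fun z => ‖F z‖) := by
    unfold NC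
    refine (norm_mC_le hM.toIsPos (BdC.iter hm.toIsMean (bdC_term hf hC))).trans ?_
    refine hM.le_of_le (BdC.norm (BdC.iter hm.toIsMean (bdC_term hf hC))) (fun x => ?_)
    refine (norm_mC_le hm.toIsPos ⟨C, bdC_term hf hC x⟩).trans ?_
    rw [← hm.inv (fun z => ‖F z‖) (x.1 b) hF'.norm]
    refine hm.toIsPos.mono (BdC.norm ⟨C, bdC_term hf hC x⟩) (hF'.norm.comp (fun z => z + x.1 b))
      (fun z => ?_)
    have h3 := PP_icc b hf x.1 z
    rw [norm_mul, Complex.norm_real, Real.norm_eq_abs, abs_of_nonneg h3.1]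
    nlinarith [norm_nonneg (F (z + x.1 b)), h3.1, h3.2]
  refine h1.trans ?_
  apply Real.le_sqrt_of_sq_le
  have h2 := hm.toIsPos.cs hF'.norm (Bd.const (X := G) 1)
  simpa [hm.one] using h2

/-- the bound by Fourier coefficients -/
lemma NC_gvn (hg : S_gvn.{u}) (hm : IsInvMean m) (he : Erg m) (hM : IsInvMean M)
    (hf : ∀ x, 0 ≤ f x ∧ f x ≤ 1) {a c : ι} (hab : a ≠ b) (hac : a ≠ c) (hbc : b ≠ c)
    (ha : (φ a).range.index ≠ 0) (hc : (φ c).range.index ≠ 0)
    {F : G → ℂ} (hF : BdC F) {L : ℝ} (hL : 0 ≤ L)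
    (hFL : ∀ χ : AddChar G Circle, ‖mC m (fun z => F z * conj ((χ z : Circle) : ℂ))‖ ≤ L) :
    ‖NC m M b f F‖ ^ 2 ≤ (φ a).range.index * Real.sqrt ((φ c).range.index) * L *
      Real.sqrt (m (fun z => ‖F z‖ ^ 2)) := by
  set G' : AddSubgroup G := (φ a).range.comap (φ b) with hG'
  set π₁ : HH φ →+ G := co φ b - co φ a with hπ₁
  have hi1 := index_comap_le (φ b) (φ a) ha
  have hi2 := index_comap_le (φ b) (φ c) hc
  have hle : (φ c).range.comap (φ b) ≤ π₁.range := by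
    intro t ht
    rw [AddSubgroup.mem_comap] at ht
    obtain ⟨u, hu⟩ := ht
    obtain ⟨y, hy1, hy2, hy3⟩ := exists_two φ hbc.symm (t := t) (u := u) hu.symm
    refine ⟨y, ?_⟩
    rw [hπ₁, AddMonoidHom.sub_apply, co_apply, co_apply, hy1, hy3 a hac hab, sub_zero]
  have hd : π₁.range.index ∣ ((φ c).range.comap (φ b)).index := AddSubgroup.index_dvd_of_le hle
  have hp0 : π₁.range.index ≠ 0 := fun h0 => hi2.1 (by rw [h0] at hd; exact Nat.eq_zero_of_zero_dvd hd)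
  have hp1 : π₁.range.index ≤ (φ c).range.index :=
    (Nat.le_of_dvd (Nat.pos_of_ne_zero hi2.1) hd).trans hi2.2
  have key := hg G (HH φ) m M hm he hM {j : ι // j ≠ a ∧ j ≠ b} π₁
    (fun j => co φ j.1 - co φ a) G' hi1.1 hp0 (by
      intro t ht
      rw [hG', AddSubgroup.mem_comap] at ht
      obtain ⟨u, hu⟩ := ht
      obtain ⟨y, hy1, hy2, hy3⟩ := exists_two φ hab (t := t) (u := u) hu.symm
      refine ⟨y, -u, ?_, ?_⟩
      · rw [hπ₁, AddMonoidHom.sub_apply, co_apply, co_apply, hy1, hy2]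
        abel
      · rintro ⟨j, hj1, hj2⟩
        rw [AddMonoidHom.sub_apply, co_apply, co_apply, hy2, hy3 j hj1 hj2]
        abel)
    f (fun _ => f) F L hf (fun _ => hf) hF hL hFL
  have e : NC m M b f F = mC M (fun y => mC m (fun z => (f z : ℂ) *
      ((∏ j : {j : ι // j ≠ a ∧ j ≠ b}, (f (z + (co φ j.1 - co φ a) y) : ℂ)) *
        F (z + π₁ y)))) := by
    unfold NC
    congr 1
    funext x
    obtain ⟨C, hC⟩ := hF
    rw [← mC_inv hm (f := fun z => F (z + x.1 b) * (PP b f x.1 z : ℂ)) ⟨C, bdC_term hf hC x⟩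
      (-(x.1 a))]
    congr 1
    funext z
    have e1 : z + -(x.1 a) + x.1 b = z + π₁ x := by
      rw [hπ₁, AddMonoidHom.sub_apply, co_apply, co_apply]; abel
    have e2 : PP b f x.1 (z + -(x.1 a)) =
        f z * ∏ j : {j : ι // j ≠ a ∧ j ≠ b}, f (z + (co φ j.1 - co φ a) x) := by
      unfold PP
      have ha' : a ∈ Finset.univ.erase b := Finset.mem_erase.mpr ⟨hab, Finset.mem_univ a⟩
      rw [← Finset.mul_prod_erase _ _ ha', neg_add_cancel_right]
      congr 1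
      rw [← Finset.prod_subtype ((Finset.univ.erase b).erase a)
        (p := fun j => j ≠ a ∧ j ≠ b) (f := fun j => f (z + (co φ j - co φ a) x))]
      · refine Finset.prod_congr rfl (fun j _ => ?_)
        rw [AddMonoidHom.sub_apply, co_apply, co_apply]
        congr 1
        abel
      · intro j
        simp
    rw [e1, e2]
    push_cast
    ring
  rw [e]
  refine key.trans ?_
  gcongr
  exact hi1.2

end Setup

theorem core (hex : S_exists.{u}) (hgvn : S_gvn.{u}) (hdhj : S_dhj.{u}) (hdec : S_decomp.{u})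
    (hext : S_charext.{u}) (hsub : S_subbohr.{u}) : S_core.{u} := by
  intro ι _ _ a b c hab hac hbc δ hδ n hn
  have : Nonempty ι := ⟨a⟩
  obtain ⟨c0, hc0, hpos⟩ := hdhj ι δ hδ
  obtain ⟨η₁, hη₁, hS⟩ := hsub (n b) (hn b)
  -- the parameters
  set Q : ℝ := n a * Real.sqrt (n c) with hQ
  have hQ0 : 0 ≤ Q := by positivity
  obtain ⟨ε, hε, hε1, hε2⟩ : ∃ ε : ℝ, 0 < ε ∧ 2 * ε ≤ c0 / 8 ∧ Q * (2 * ε) ≤ (c0 / 4) ^ 2 := by
    refine ⟨min (c0 / 16) ((c0 / 4) ^ 2 / (2 * (Q + 1))), lt_min (by positivity) (by positivity),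
      ?_, ?_⟩
    · linarith [min_le_left (c0 / 16) ((c0 / 4) ^ 2 / (2 * (Q + 1)))]
    · have h1 := min_le_right (c0 / 16) ((c0 / 4) ^ 2 / (2 * (Q + 1)))
      calc Q * (2 * min (c0 / 16) ((c0 / 4) ^ 2 / (2 * (Q + 1))))
          ≤ Q * (2 * ((c0 / 4) ^ 2 / (2 * (Q + 1)))) := by gcongr
        _ = (Q / (Q + 1)) * (c0 / 4) ^ 2 := by field_simp
        _ ≤ 1 * (c0 / 4) ^ 2 := by
            gcongr
            rw [div_le_one (by positivity)]; linarith
        _ = (c0 / 4) ^ 2 := one_mul _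
  set K1 : ℕ := ⌈1 / ε ^ 2⌉₊ with hK1
  refine ⟨K1 + n b, min (c0 / 8) η₁, lt_min (by positivity) hη₁, ?_⟩
  intro G _ φ hφ h0 m hm he A hA
  obtain ⟨M, hM⟩ := hex (HH φ)
  set f : G → ℝ := ind A with hfdef
  have hf : ∀ x, 0 ≤ f x ∧ f x ≤ 1 := ind_icc A
  have hfb : Bd f := bd_ind A
  obtain ⟨Λ, hΛ1, hΛ⟩ := hdec G m hm f hf ε hε
  obtain ⟨χs, hχs⟩ := hS G (φ b).range (hφ b)
  classical
  -- the characters
  let T : Finset (AddChar G Circle) := Λ.image (fun χ =>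
    if h : (∀ x, φ b x = 0 → χ x = 1) then (hext G (φ b) χ h).choose else 1)
  have hTc : T.card ≤ K1 := by
    refine Finset.card_image_le.trans ?_
    rw [hK1]
    have h1 : (Λ.card : ℝ) ≤ 1 / ε ^ 2 := by rw [le_div_iff₀ (by positivity)]; exact hΛ1
    exact_mod_cast h1.trans (Nat.le_ceil _)
  obtain ⟨χ₁, hχ₁⟩ := exists_enum T K1 hTc 1
  refine ⟨Fin.append χ₁ χs, fun g hg => ?_⟩
  obtain ⟨hg1, hg2⟩ := bohr_append χ₁ χs (min_le_left (c0 / 8) η₁) (min_le_right (c0 / 8) η₁) hg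
  obtain ⟨p, hp⟩ := hχs hg2
  have hΛp : ∀ χ ∈ Λ, (∀ x, φ b x = 0 → χ x = 1) → ‖((χ p : Circle) : ℂ) - 1‖ ≤ c0 / 8 := by
    intro χ hχ hker
    have hmem : (hext G (φ b) χ hker).choose ∈ T := by
      refine Finset.mem_image.mpr ⟨χ, hχ, ?_⟩
      rw [dif_pos hker]
    obtain ⟨i, hi⟩ := hχ₁ _ hmem
    have h1 := hg1 i
    rw [hi, ← hp, (hext G (φ b) χ hker).choose_spec p] at h1
    exact h1.le
  obtain ⟨N, s, hN, hs, h₁, h₂, hb1, hb2, hsum, hm1, hm2, hF2⟩ :=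
    hΛ (φ b) p (c0 / 8) (by positivity) hΛp
  -- the counts
  have hN0 : c0 ≤ NN m M b f f := by
    refine (hpos G (HH φ) m M hm hM (fun j => co φ j) A hA).trans_eq ?_
    unfold NN PP
    congr 1
    funext x
    congr 1
    funext z
    rw [Finset.mul_prod_erase Finset.univ (fun j => f (z + x.1 j)) (Finset.mem_univ b)]
    rfl
  have hdiff : NN m M b f (fun z => (∑ i, (f (z + p + s i) - f (z + s i))) / (N : ℝ)) =
      NN m M b f (fun z => f (z + p)) - NN m M b f f := by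
    have e1 : (fun z => (∑ i, (f (z + p + s i) - f (z + s i))) / (N : ℝ)) =
        fun z => (1 / (N : ℝ)) * ∑ i, (f (z + p + s i) - f (z + s i)) := by
      funext z; ring
    have hb : ∀ i, Bd (fun z => f (z + p + s i) - f (z + s i)) := fun i =>
      (hfb.comp (fun z => z + p + s i)).sub (hfb.comp (fun z => z + s i))
    rw [e1, NN_smul hm.toIsMean hM.toIsMean hf _ (Bd.sum Finset.univ (fun i _ => hb i)),
      NN_sum hm.toIsMean hM.toIsMean hf Finset.univ hb]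
    have e2 : ∀ i, NN m M b f (fun z => f (z + p + s i) - f (z + s i)) =
        NN m M b f (fun z => f (z + p)) - NN m M b f f := by
      intro i
      rw [NN_sub hm.toIsMean hM.toIsMean hf (hfb.comp (fun z => z + p + s i))
        (hfb.comp (fun z => z + s i)), NN_ker hm.toIsMean hM hf hfb (hs i)]
      congr 1
      have := NN_ker hm.toIsMean hM hf (hfb.comp (fun z => z + p)) (hs i)
      rw [← this]
      congr 1
      funext z
      congr 1
      abel
    rw [Finset.sum_congr rfl (fun i _ => e2 i), Finset.sum_const, Finset.card_univ,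
      Fintype.card_fin, nsmul_eq_mul]
    have : (N : ℝ) ≠ 0 := by exact_mod_cast hN.ne'
    field_simp
  have hbound : |NN m M b f (fun z => f (z + p)) - NN m M b f f| ≤ c0 / 2 := by
    rw [← hdiff, ← Real.norm_eq_abs, ← Complex.norm_real, ← NC_real hm.toIsMean hM.toIsMean]
    have e3 : NC m M b f (fun z => (((∑ i, (f (z + p + s i) - f (z + s i))) / (N : ℝ) : ℝ) : ℂ)) =
        NC m M b f h₁ + NC m M b f h₂ := by
      rw [← NC_add hm.toIsMean hM.toIsMean hf hb1 hb2]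
      congr 1
      funext z
      exact hsum z
    rw [e3]
    have b1 : ‖NC m M b f h₁‖ ≤ c0 / 4 := by
      refine (NC_le hm hM.toIsMean hf hb1).trans ?_
      refine (Real.sqrt_le_sqrt hm1).trans ?_
      rw [Real.sqrt_sq (by positivity)]
      linarith
    have b2 : ‖NC m M b f h₂‖ ≤ c0 / 4 := by
      have h3 := NC_gvn hgvn hm he hM hf hab hac hbc (by rw [hφ a]; exact hn a)
        (by rw [hφ c]; exact hn c) hb2 (L := 2 * ε) (by positivity) hF2
      rw [hφ a, hφ c] at h3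
      have h4 : Real.sqrt (m (fun z => ‖h₂ z‖ ^ 2)) ≤ 1 :=
        (Real.sqrt_le_sqrt hm2).trans_eq Real.sqrt_one
      have h5 : ‖NC m M b f h₂‖ ^ 2 ≤ (c0 / 4) ^ 2 := by
        refine h3.trans (le_trans ?_ hε2)
        calc (n a : ℝ) * Real.sqrt (n c) * (2 * ε) * Real.sqrt (m (fun z => ‖h₂ z‖ ^ 2))
            ≤ (n a : ℝ) * Real.sqrt (n c) * (2 * ε) * 1 := by gcongr
          _ = Q * (2 * ε) := by rw [hQ, mul_one]
      exact le_of_sq_le_sq h5 (by positivity)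
    calc ‖NC m M b f h₁ + NC m M b f h₂‖ ≤ ‖NC m M b f h₁‖ + ‖NC m M b f h₂‖ := norm_add_le _ _
      _ ≤ c0 / 4 + c0 / 4 := add_le_add b1 b2
      _ = c0 / 2 := by ring
  have hNp : 0 < NN m M b f (fun z => f (z + p)) := by
    have := (abs_le.mp hbound).1
    linarith
  -- a solution
  obtain ⟨C, hC⟩ := hfb
  have hfb' : ∀ z, |(fun z => f (z + p)) z| ≤ C := fun z => hC _
  obtain ⟨x, hx⟩ := hM.toIsMean.exists_pos (Bd.iter hm.toIsMean (bd_term hf hfb')) hNp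
  obtain ⟨z, hz⟩ := hm.toIsMean.exists_pos ⟨C, bd_term hf hfb' x⟩ hx
  have hz1 : 0 < f (z + x.1 b + p) := by
    by_contra hcon
    have : f (z + x.1 b + p) = 0 := le_antisymm (not_lt.mp hcon) (hf _).1
    rw [this, zero_mul] at hz
    exact lt_irrefl _ hz
  have hz2 : ∀ j, j ≠ b → 0 < f (z + x.1 j) := by
    intro j hj
    by_contra hcon
    have h1 : f (z + x.1 j) = 0 := le_antisymm (not_lt.mp hcon) (hf _).1
    have h2 : PP b f x.1 z = 0 :=
      Finset.prod_eq_zero (Finset.mem_erase.mpr ⟨hj, Finset.mem_univ j⟩) h1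
    rw [h2, mul_zero] at hz
    exact lt_irrefl _ hz
  refine ⟨fun j => if j = b then z + x.1 b + p else z + x.1 j, fun j => ?_, ?_⟩
  · by_cases hj : j = b
    · simp only [hj, if_true]
      exact ind_pos hz1
    · simp only [hj, if_false]
      exact ind_pos (hz2 j hj)
  · have e4 : ∀ j, φ j (if j = b then z + x.1 b + p else z + x.1 j) =
        φ j z + φ j (x.1 j) + φ j ((Pi.single b p : ι → G) j) := by
      intro j
      by_cases hj : j = b
      · subst hj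
        simp only [if_true, map_add, Pi.single_eq_same]
      · simp only [hj, if_false, map_add, Pi.single_eq_of_ne hj, map_zero, add_zero]
    rw [Finset.sum_congr rfl (fun j _ => e4 j), Finset.sum_add_distrib, Finset.sum_add_distrib,
      sum_single, mem_HH.mp x.2, hp]
    have e5 : ∑ j, φ j z = 0 := by
      have := congrArg (fun ψ : G →+ G => ψ z) h0
      simpa [AddMonoidHom.finsetSum_apply] using this
    rw [e5, zero_add, zero_add]

end Q136.BM
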