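import Pool.Agent.Q136.BM.Stm

/-!
# The decomposition of averaged differences
-/

namespace Q136.BM

open scoped ComplexConjugate BigOperators

universe u

lemma geom_small (z : Circle) (hz : z ≠ 1) {ε : ℝ} (hε : 0 < ε) :
    ∃ n : ℕ, 0 < n ∧ ‖(1 / (n : ℂ)) * ∑ k : Fin n, ((z ^ (k : ℕ) : Circle) : ℂ)‖ ≤ ε := by
  have hz' : (z : ℂ) ≠ 1 := by
    intro h
    apply hz
    apply Circle.ext
    rw [h, Circle.coe_one]
  have hd : 0 < ‖(z : ℂ) - 1‖ := norm_pos_iff.mpr (sub_ne_zero.mpr hz')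
  obtain ⟨n, hn⟩ := exists_nat_gt (2 / (‖(z : ℂ) - 1‖ * ε))
  have hn0 : (0 : ℝ) < n := lt_of_le_of_lt (by positivity) hn
  refine ⟨n, by exact_mod_cast hn0, ?_⟩
  have e : ∑ k : Fin n, ((z ^ (k : ℕ) : Circle) : ℂ) = ((z : ℂ) ^ n - 1) / ((z : ℂ) - 1) := by
    rw [Fin.sum_univ_eq_sum_range (fun k => ((z ^ k : Circle) : ℂ)), ← geom_sum_eq hz' n]
    exact Finset.sum_congr rfl (fun k _ => by rw [Circle.coe_pow])
  have h1 : ‖(z : ℂ) ^ n - 1‖ ≤ 2 := by
    refine (norm_sub_le _ _).trans ?_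
    rw [norm_pow, Circle.norm_coe, one_pow, norm_one]
    norm_num
  rw [e, norm_mul, norm_div, norm_div, norm_one, Complex.norm_natCast]
  rw [div_lt_iff₀ (by positivity)] at hn
  rw [div_mul_div_comm, one_mul, div_le_iff₀ (by positivity)]
  nlinarith

/-- averages which kill finitely many characters -/
lemma exists_avg {G : Type u} [AddCommGroup G] (φ : G →+ G) {ε : ℝ} (hε : 0 < ε)
    (Λ : Finset (AddChar G Circle)) : (∀ χ ∈ Λ, ¬ ∀ x, φ x = 0 → χ x = 1) →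
    ∃ (N : ℕ) (s : Fin N → G), 0 < N ∧ (∀ i, φ (s i) = 0) ∧
      ∀ χ ∈ Λ, ‖(1 / (N : ℂ)) * ∑ i, ((χ (s i) : Circle) : ℂ)‖ ≤ ε := by
  classical
  induction Λ using Finset.induction_on with
  | empty => exact fun _ => ⟨1, fun _ => 0, one_pos, by simp, by simp⟩
  | insert χ Λ hχ ih =>
    intro hΛ
    obtain ⟨N, s, hN, hs, hav⟩ := ih (fun ψ hψ => hΛ ψ (Finset.mem_insert_of_mem hψ))
    have h1 := hΛ χ (Finset.mem_insert_self χ Λ)
    push Not at h1
    obtain ⟨t, ht, htχ⟩ := h1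
    obtain ⟨n, hn, hgeo⟩ := geom_small (χ t) htχ hε
    have hN' : (N : ℂ) ≠ 0 := by exact_mod_cast hN.ne'
    have hn' : (n : ℂ) ≠ 0 := by exact_mod_cast hn.ne'
    refine ⟨N * n, fun i => s (finProdFinEquiv.symm i).1 + ((finProdFinEquiv.symm i).2 : ℕ) • t,
      Nat.mul_pos hN hn, fun i => ?_, ?_⟩
    · rw [map_add, map_nsmul, hs, ht, smul_zero, add_zero]
    · have key : ∀ ψ : AddChar G Circle, (1 / ((N * n : ℕ) : ℂ)) * ∑ i : Fin (N * n),
          ((ψ (s (finProdFinEquiv.symm i).1 + ((finProdFinEquiv.symm i).2 : ℕ) • t) : Circle) : ℂ) =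
          ((1 / (N : ℂ)) * ∑ i, ((ψ (s i) : Circle) : ℂ)) *
            ((1 / (n : ℂ)) * ∑ k : Fin n, (((ψ t) ^ (k : ℕ) : Circle) : ℂ)) := by
        intro ψ
        rw [Equiv.sum_comp finProdFinEquiv.symm (fun q : Fin N × Fin n =>
          ((ψ (s q.1 + ((q.2 : Fin n) : ℕ) • t) : Circle) : ℂ)), Fintype.sum_prod_type]
        have e : ∀ (x : Fin N) (y : Fin n), ((ψ (s x + (y : ℕ) • t) : Circle) : ℂ) =
            ((ψ (s x) : Circle) : ℂ) * (((ψ t) ^ (y : ℕ) : Circle) : ℂ) := by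
          intro x y
          rw [AddChar.map_add_eq_mul, AddChar.map_nsmul_eq_pow, Circle.coe_mul]
        have e' : ∑ x : Fin N, ∑ y : Fin n, ((ψ (s x + (y : ℕ) • t) : Circle) : ℂ) =
            (∑ i, ((ψ (s i) : Circle) : ℂ)) *
              ∑ k : Fin n, (((ψ t) ^ (k : ℕ) : Circle) : ℂ) := by
          rw [Finset.sum_mul_sum]
          exact Finset.sum_congr rfl (fun x _ => Finset.sum_congr rfl (fun y _ => e x y))
        calc (1 / ((N * n : ℕ) : ℂ)) * ∑ x : Fin N, ∑ y : Fin n,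
              ((ψ (s x + (y : ℕ) • t) : Circle) : ℂ)
            = (1 / ((N * n : ℕ) : ℂ)) * ((∑ i, ((ψ (s i) : Circle) : ℂ)) *
              ∑ k : Fin n, (((ψ t) ^ (k : ℕ) : Circle) : ℂ)) := by rw [e']
          _ = _ := by
              push_cast
              field_simp
      have hle : ∀ (ψ : AddChar G Circle) (k : ℕ) (hk : 0 < k) (u : Fin k → G),
          ‖(1 / (k : ℂ)) * ∑ i, ((ψ (u i) : Circle) : ℂ)‖ ≤ 1 := by
        intro ψ k hk u
        rw [norm_mul, norm_div, norm_one, Complex.norm_natCast]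
        have h2 : ‖∑ i, ((ψ (u i) : Circle) : ℂ)‖ ≤ k := by
          refine (norm_sum_le _ _).trans (le_of_eq ?_)
          rw [Finset.sum_congr rfl (fun i _ => Circle.norm_coe (ψ (u i))), Finset.sum_const,
            Finset.card_univ, Fintype.card_fin, nsmul_eq_mul, mul_one]
        have hk' : (0 : ℝ) < k := by exact_mod_cast hk
        rw [div_mul_eq_mul_div, one_mul, div_le_one hk']
        exact h2
      intro ψ hψ
      rw [key ψ, norm_mul]
      rcases Finset.mem_insert.mp hψ with h | h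
      · subst h
        calc _ ≤ 1 * ε := mul_le_mul (hle ψ N hN s) hgeo (norm_nonneg _) zero_le_one
          _ = ε := one_mul ε
      · have h3 := hle ψ n hn (fun k => (k : ℕ) • t)
        simp only [AddChar.map_nsmul_eq_pow] at h3
        calc _ ≤ ε * 1 := mul_le_mul (hav ψ h) h3 (norm_nonneg _) hε.le
          _ = ε := mul_one ε

theorem decomp (hB : S_bessel.{u}) (hlarge : S_large.{u}) : S_decomp.{u} := by
  classical
  intro G _ m hm f hf ε hε
  obtain ⟨horth, hbes, hsq⟩ := hB G m hm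
  have hfn : ∀ x, ‖((f x : ℝ) : ℂ)‖ ≤ 1 := fun x => by
    rw [Complex.norm_real, Real.norm_eq_abs, abs_of_nonneg (hf x).1]; exact (hf x).2
  have hfb : BdC (fun x => ((f x : ℝ) : ℂ)) := ⟨1, hfn⟩
  obtain ⟨Λ, hΛ1, hΛ2⟩ := hlarge G m hm (fun x => ((f x : ℝ) : ℂ)) hfn ε hε
  refine ⟨Λ, hΛ1, fun φ p η hη hΛp => ?_⟩
  obtain ⟨N, s, hN, hs, hav⟩ := exists_avg φ hε
    (Λ.filter (fun χ => ¬ ∀ x, φ x = 0 → χ x = 1)) (fun χ hχ => (Finset.mem_filter.mp hχ).2)
  have hN' : (0 : ℝ) < N := by exact_mod_cast hN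
  set c : AddChar G Circle → ℂ := fun χ =>
    mC m (fun z => ((f z : ℝ) : ℂ) * conj ((χ z : Circle) : ℂ)) with hc
  set H : G → ℝ := fun z => (∑ i, (f (z + p + s i) - f (z + s i))) / (N : ℝ) with hH
  have hHn : ∀ z, ‖((H z : ℝ) : ℂ)‖ ≤ 1 := by
    intro z
    rw [Complex.norm_real, Real.norm_eq_abs, hH]
    simp only
    rw [abs_div, abs_of_pos hN', div_le_one hN']
    refine (Finset.abs_sum_le_sum_abs _ _).trans ?_
    refine (Finset.sum_le_sum (g := fun _ => (1 : ℝ)) (fun i _ => ?_)).trans_eq ?_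
    · rw [abs_le]
      constructor <;> linarith [(hf (z + p + s i)).1, (hf (z + p + s i)).2, (hf (z + s i)).1,
        (hf (z + s i)).2]
    · simp
  have hHb : BdC (fun z => ((H z : ℝ) : ℂ)) := ⟨1, hHn⟩
  -- translates
  have htr : ∀ (t : G) (χ : AddChar G Circle),
      mC m (fun z => ((f (z + t) : ℝ) : ℂ) * conj ((χ z : Circle) : ℂ)) = (χ t : ℂ) * c χ := by
    intro t χ
    have h1 := mC_inv hm (hfb.mul (BdC.circle χ).conj) t
    have e : (fun z => ((f (z + t) : ℝ) : ℂ) * conj ((χ z : Circle) : ℂ)) =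
        fun z => (χ t : ℂ) * (((f (z + t) : ℝ) : ℂ) * conj ((χ (z + t) : Circle) : ℂ)) := by
      funext z
      have h2 : ((χ t : Circle) : ℂ) * conj ((χ t : Circle) : ℂ) = 1 := by
        rw [Complex.mul_conj', Circle.norm_coe]; simp
      rw [AddChar.map_add_eq_mul, Circle.coe_mul, map_mul]
      calc ((f (z + t) : ℝ) : ℂ) * conj ((χ z : Circle) : ℂ)
          = (((χ t : Circle) : ℂ) * conj ((χ t : Circle) : ℂ)) *
            (((f (z + t) : ℝ) : ℂ) * conj ((χ z : Circle) : ℂ)) := by rw [h2, one_mul]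
        _ = _ := by ring
    rw [e, mC_smul hm.toIsPos]
    · congr 1
    · exact (hfb.comp (fun z => z + t)).mul ((BdC.circle χ).conj.comp (fun z => z + t))
  have hHc : ∀ χ : AddChar G Circle,
      mC m (fun z => ((H z : ℝ) : ℂ) * conj ((χ z : Circle) : ℂ)) =
      c χ * ((χ p : ℂ) - 1) * ((1 / (N : ℂ)) * ∑ i, ((χ (s i) : Circle) : ℂ)) := by
    intro χ
    have hb1 : ∀ t, BdC (fun z => ((f (z + t) : ℝ) : ℂ) * conj ((χ z : Circle) : ℂ)) := fun t =>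
      (hfb.comp (fun z => z + t)).mul (BdC.circle χ).conj
    have hb2 : ∀ i, BdC (fun z => ((f (z + (p + s i)) : ℝ) : ℂ) * conj ((χ z : Circle) : ℂ) -
        ((f (z + s i) : ℝ) : ℂ) * conj ((χ z : Circle) : ℂ)) := fun i => (hb1 _).sub (hb1 _)
    have e : (fun z => ((H z : ℝ) : ℂ) * conj ((χ z : Circle) : ℂ)) = fun z => (1 / (N : ℂ)) *
        ∑ i, (((f (z + (p + s i)) : ℝ) : ℂ) * conj ((χ z : Circle) : ℂ) -
          ((f (z + s i) : ℝ) : ℂ) * conj ((χ z : Circle) : ℂ)) := by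
      funext z
      have e0 : ∀ i, f (z + (p + s i)) = f (z + p + s i) := fun i => by rw [add_assoc]
      have e1 : ∑ i, (((f (z + (p + s i)) : ℝ) : ℂ) * conj ((χ z : Circle) : ℂ) -
          ((f (z + s i) : ℝ) : ℂ) * conj ((χ z : Circle) : ℂ)) =
          (∑ i, (((f (z + p + s i) : ℝ) : ℂ) - ((f (z + s i) : ℝ) : ℂ))) *
            conj ((χ z : Circle) : ℂ) := by
        rw [Finset.sum_mul]
        exact Finset.sum_congr rfl (fun i _ => by rw [e0 i, sub_mul])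
      rw [e1, hH]
      push_cast
      ring
    rw [e, mC_smul hm.toIsPos _ (BdC.sum _ (fun i _ => hb2 i)),
      mC_sum hm.toIsPos _ (fun i _ => hb2 i)]
    have e2 : ∀ i, mC m (fun z => ((f (z + (p + s i)) : ℝ) : ℂ) * conj ((χ z : Circle) : ℂ) -
        ((f (z + s i) : ℝ) : ℂ) * conj ((χ z : Circle) : ℂ)) =
        (c χ * ((χ p : ℂ) - 1)) * ((χ (s i) : Circle) : ℂ) := by
      intro i
      rw [mC_sub hm.toIsPos (hb1 _) (hb1 _), htr, htr, AddChar.map_add_eq_mul, Circle.coe_mul]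
      ring
    rw [Finset.sum_congr rfl (fun i _ => e2 i), ← Finset.mul_sum]
    ring
  have hchn : ∀ χ : AddChar G Circle, ‖((χ p : Circle) : ℂ) - 1‖ ≤ 2 := by
    intro χ
    refine (norm_sub_le _ _).trans ?_
    rw [Circle.norm_coe, norm_one]
    norm_num
  have havg1 : ∀ χ : AddChar G Circle, ‖(1 / (N : ℂ)) * ∑ i, ((χ (s i) : Circle) : ℂ)‖ ≤ 1 := by
    intro χ
    rw [norm_mul, norm_div, norm_one, Complex.norm_natCast, div_mul_eq_mul_div, one_mul,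
      div_le_one hN']
    refine (norm_sum_le _ _).trans (le_of_eq ?_)
    rw [Finset.sum_congr rfl (fun i _ => Circle.norm_coe (χ (s i))), Finset.sum_const,
      Finset.card_univ, Fintype.card_fin, nsmul_eq_mul, mul_one]
  set d : AddChar G Circle → ℂ := fun χ =>
    mC m (fun z => ((H z : ℝ) : ℂ) * conj ((χ z : Circle) : ℂ)) with hd
  have hdΛ : ∀ χ ∈ Λ, ‖d χ‖ ≤ (η + 2 * ε) * ‖c χ‖ := by
    intro χ hχ
    have hdc : d χ = c χ * ((χ p : ℂ) - 1) * ((1 / (N : ℂ)) * ∑ i, ((χ (s i) : Circle) : ℂ)) :=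
      hHc χ
    rw [hdc, norm_mul, norm_mul]
    by_cases hker : ∀ x, φ x = 0 → χ x = 1
    · have h1 := hΛp χ hχ hker
      calc ‖c χ‖ * ‖((χ p : Circle) : ℂ) - 1‖ * ‖(1 / (N : ℂ)) * ∑ i, ((χ (s i) : Circle) : ℂ)‖
          ≤ ‖c χ‖ * η * 1 := by gcongr; exact havg1 χ
        _ ≤ (η + 2 * ε) * ‖c χ‖ := by nlinarith [norm_nonneg (c χ)]
    · have h1 := hav χ (Finset.mem_filter.mpr ⟨hχ, hker⟩)
      calc ‖c χ‖ * ‖((χ p : Circle) : ℂ) - 1‖ * ‖(1 / (N : ℂ)) * ∑ i, ((χ (s i) : Circle) : ℂ)‖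
          ≤ ‖c χ‖ * 2 * ε := by gcongr; exact hchn χ
        _ ≤ (η + 2 * ε) * ‖c χ‖ := by nlinarith [norm_nonneg (c χ)]
  set h₁ : G → ℂ := fun z => ∑ χ ∈ Λ, d χ * ((χ z : Circle) : ℂ) with hh₁
  have hb1 : BdC h₁ := BdC.sum _ (fun χ _ => (BdC.circle χ).smul _)
  have hb2 : BdC (fun z => ((H z : ℝ) : ℂ) - h₁ z) := hHb.sub hb1
  have hsumc : ∑ χ ∈ Λ, ‖c χ‖ ^ 2 ≤ 1 := by
    have h1 := hbes (fun x => ((f x : ℝ) : ℂ)) Λ hfb
    have h2 : 0 ≤ m (fun z => ‖((f z : ℝ) : ℂ) - ∑ χ ∈ Λ, mC m (fun z => ((f z : ℝ) : ℂ) *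
        conj ((χ z : Circle) : ℂ)) * ((χ z : Circle) : ℂ)‖ ^ 2) :=
      hm.nonneg _ (BdC.normSq (hfb.sub (BdC.sum _ (fun χ _ => (BdC.circle χ).smul _))))
        (fun z => by positivity)
    have h3 : m (fun z => ‖((f z : ℝ) : ℂ)‖ ^ 2) ≤ 1 :=
      hm.toIsMean.le_of_le hfb.normSq (fun z => pow_le_one₀ (norm_nonneg _) (hfn z))
    linarith
  refine ⟨N, s, hN, hs, h₁, fun z => ((H z : ℝ) : ℂ) - h₁ z, hb1, hb2, fun z => by ring, ?_, ?_, ?_⟩
  · have h1 := hsq Λ d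
    calc m (fun z => ‖h₁ z‖ ^ 2) = ∑ χ ∈ Λ, ‖d χ‖ ^ 2 := h1
      _ ≤ ∑ χ ∈ Λ, (η + 2 * ε) ^ 2 * ‖c χ‖ ^ 2 := by
          refine Finset.sum_le_sum (fun χ hχ => ?_)
          rw [← mul_pow]
          exact pow_le_pow_left₀ (norm_nonneg _) (hdΛ χ hχ) 2
      _ = (η + 2 * ε) ^ 2 * ∑ χ ∈ Λ, ‖c χ‖ ^ 2 := by rw [Finset.mul_sum]
      _ ≤ (η + 2 * ε) ^ 2 * 1 := by gcongr
      _ = (η + 2 * ε) ^ 2 := mul_one _
  · have h1 := hbes (fun z => ((H z : ℝ) : ℂ)) Λ hHb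
    have h2 : m (fun z => ‖((H z : ℝ) : ℂ) - h₁ z‖ ^ 2) =
        m (fun z => ‖((H z : ℝ) : ℂ)‖ ^ 2) - ∑ χ ∈ Λ, ‖d χ‖ ^ 2 := h1
    have h3 : m (fun z => ‖((H z : ℝ) : ℂ)‖ ^ 2) ≤ 1 :=
      hm.toIsMean.le_of_le hHb.normSq (fun z => pow_le_one₀ (norm_nonneg _) (hHn z))
    have h4 : 0 ≤ ∑ χ ∈ Λ, ‖d χ‖ ^ 2 := Finset.sum_nonneg (fun χ _ => by positivity)
    rw [h2]
    linarith
  · intro χ
    have hbχ : ∀ ψ : AddChar G Circle,
        BdC (fun z => ((ψ z : Circle) : ℂ) * conj ((χ z : Circle) : ℂ)) := fun ψ =>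
      (BdC.circle ψ).mul (BdC.circle χ).conj
    have e : mC m (fun z => (((H z : ℝ) : ℂ) - h₁ z) * conj ((χ z : Circle) : ℂ)) =
        d χ - ∑ ψ ∈ Λ, d ψ * mC m (fun z => ((ψ z : Circle) : ℂ) * conj ((χ z : Circle) : ℂ)) := by
      have e1 : (fun z => (((H z : ℝ) : ℂ) - h₁ z) * conj ((χ z : Circle) : ℂ)) = fun z =>
          ((H z : ℝ) : ℂ) * conj ((χ z : Circle) : ℂ) -
            ∑ ψ ∈ Λ, d ψ * (((ψ z : Circle) : ℂ) * conj ((χ z : Circle) : ℂ)) := by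
        funext z
        rw [sub_mul, hh₁]
        simp only
        rw [Finset.sum_mul]
        congr 1
        exact Finset.sum_congr rfl (fun ψ _ => by ring)
      rw [e1, mC_sub hm.toIsPos (hHb.mul (BdC.circle χ).conj)
        (BdC.sum _ (fun ψ _ => (hbχ ψ).smul _)), mC_sum hm.toIsPos _ (fun ψ _ => (hbχ ψ).smul _)]
      congr 1
      exact Finset.sum_congr rfl (fun ψ _ => mC_smul hm.toIsPos _ (hbχ ψ))
    rw [e]
    by_cases hχ : χ ∈ Λ
    · rw [Finset.sum_eq_single χ]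
      · have h1 : mC m (fun z => ((χ z : Circle) : ℂ) * conj ((χ z : Circle) : ℂ)) = 1 := by
          have : (fun z => ((χ z : Circle) : ℂ) * conj ((χ z : Circle) : ℂ)) = fun _ => (1 : ℂ) := by
            funext z
            rw [Complex.mul_conj', Circle.norm_coe]
            simp
          rw [this, mC_const hm.toIsMean]
        rw [h1, mul_one, sub_self, norm_zero]
        positivity
      · intro ψ _ hψ
        rw [horth ψ χ hψ, mul_zero]
      · intro h; exact absurd hχ h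
    · rw [Finset.sum_eq_zero (fun ψ hψ => by
        rw [horth ψ χ (fun h => hχ (h ▸ hψ)), mul_zero]), sub_zero]
      have h1 : ‖c χ‖ ≤ ε := by
        have := (hΛ2 χ).not.mp hχ
        push Not at this
        exact this.le
      rw [hd]
      simp only
      rw [hHc, norm_mul, norm_mul]
      calc ‖c χ‖ * ‖((χ p : Circle) : ℂ) - 1‖ * ‖(1 / (N : ℂ)) * ∑ i, ((χ (s i) : Circle) : ℂ)‖
          ≤ ε * 2 * 1 := by
            gcongr
            · exact hchn χ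
            · exact havg1 χ
        _ = 2 * ε := by ring

end Q136.BM
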