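import Pool.Agent.Q136.BM.Stm
import Pool.Agent.H602R3.DHJ.Main

/-!
# Positivity, from the density Hales-Jewett theorem
-/

namespace Q136.BM

open scoped ComplexConjugate BigOperators
open Pool.Agent

universe u v

lemma IsMean.map {X : Type u} {Y : Type v} {m : (X → ℝ) → ℝ} (hm : IsMean m) (φ : X → Y) :
    IsMean (fun F : Y → ℝ => m (fun x => F (φ x))) where
  add f g hf hg := hm.add _ _ (hf.comp φ) (hg.comp φ)
  smul c f hf := hm.smul c _ (hf.comp φ)
  nonneg f hf h0 := hm.nonneg _ (hf.comp φ) (fun x => h0 _)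
  one := hm.one

lemma iterMean {K : Type u} [AddCommGroup K] {M : (K → ℝ) → ℝ} (hM : IsInvMean M) : ∀ N : ℕ,
    ∃ T : ((Fin N → K) → ℝ) → ℝ, IsMean T ∧ ∀ b : Fin N → Bool, (∃ i, b i = true) →
      ∀ C : K → ℝ, Bd C → T (fun κ => C (∑ i, if b i = true then κ i else 0)) = M C
  | 0 => ⟨fun F => F (fun i => i.elim0),
      { add := fun f g _ _ => rfl
        smul := fun c f _ => rfl
        nonneg := fun f _ h0 => h0 _
        one := rfl }, fun b ⟨i, _⟩ => i.elim0⟩
  | N + 1 => by
    obtain ⟨T, hT, hTC⟩ := iterMean hM N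
    refine ⟨fun F => pm T M (fun q : (Fin N → K) × K => F (Fin.cons q.2 q.1)),
      (hT.pm hM.toIsMean).map (fun q : (Fin N → K) × K => (Fin.cons q.2 q.1 : Fin (N + 1) → K)),
      fun b hb C hC => ?_⟩
    show T (fun κ => M (fun y => C (∑ i, if b i = true then (Fin.cons y κ : Fin (N + 1) → K) i else 0))) = _
    have e : ∀ (κ : Fin N → K) (y : K),
        (∑ i, if b i = true then (Fin.cons y κ : Fin (N + 1) → K) i else 0) =
        (if b 0 = true then y else 0) + ∑ i : Fin N, if b i.succ = true then κ i else 0 := by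
      intro κ y
      rw [Fin.sum_univ_succ]
      simp only [Fin.cons_zero, Fin.cons_succ]
    by_cases h0 : b 0 = true
    · have e2 : (fun κ : Fin N → K => M (fun y =>
          C (∑ i, if b i = true then (Fin.cons y κ : Fin (N + 1) → K) i else 0))) =
          fun _ => M C := by
        funext κ
        rw [← hM.inv C (∑ i : Fin N, if b i.succ = true then κ i else 0) hC]
        congr 1
        funext y
        rw [e, if_pos h0]
      rw [e2, hT.const]
    · have h1 : ∃ i : Fin N, b i.succ = true := by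
        obtain ⟨i, hi⟩ := hb
        rcases Fin.eq_zero_or_eq_succ i with h | ⟨j, h⟩
        · rw [h] at hi
          exact absurd hi h0
        · exact ⟨j, by rw [← h]; exact hi⟩
      rw [← hTC (fun i => b i.succ) h1 C hC]
      congr 1
      funext κ
      have e2 : (fun y => C (∑ i, if b i = true then (Fin.cons y κ : Fin (N + 1) → K) i else 0)) =
          fun _ => C (∑ i : Fin N, if b i.succ = true then κ i else 0) := by
        funext y
        rw [e, if_neg h0, zero_add]
      rw [e2, hM.toIsMean.const]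

lemma dn_eq {W : Type v} [Fintype W] {G : Type u} (A : Set G) (P : W → G) :
    H602R3.DHJ.dn {w : W | P w ∈ A} = (∑ w, ind A (P w)) / Fintype.card W := by
  unfold H602R3.DHJ.dn H602R3.DHJ.av
  have h : ∀ w, Set.indicator {w : W | P w ∈ A} (fun _ => (1 : ℝ)) w = ind A (P w) := by
    intro w
    by_cases hw : P w ∈ A
    · rw [ind_mem hw, Set.indicator_of_mem (show w ∈ {w : W | P w ∈ A} from hw)]
    · rw [ind_notMem hw, Set.indicator_of_notMem (show w ∉ {w : W | P w ∈ A} from hw)]
  rw [Finset.sum_congr rfl (fun w _ => h w)]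

/-- the combinatorial lines -/
def Lines (N : ℕ) (ι : Type) : Type := {V : Fin N → ι ⊕ Unit // H602R3.DHJ.Pr V}

noncomputable instance (N : ℕ) (ι : Type) [Fintype ι] : Fintype (Lines N ι) :=
  have : Finite (Lines N ι) :=
    inferInstanceAs (Finite {V : Fin N → ι ⊕ Unit // H602R3.DHJ.Pr V})
  Fintype.ofFinite _

/-- the points of a line -/
def Lines.pt {N : ℕ} {ι : Type} (V : Lines N ι) (j : ι) : Fin N → ι :=
  H602R3.DHJ.ap V.1 (fun _ => j)

lemma exists_line {N : ℕ} {ι : Type} {A : Set (Fin N → ι)} (h : ¬ H602R3.DHJ.LFr A) :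
    ∃ V : Lines N ι, ∀ j, V.pt j ∈ A := by
  unfold H602R3.DHJ.LFr at h
  push Not at h
  obtain ⟨V, hV, hVA⟩ := h
  exact ⟨⟨V, hV⟩, hVA⟩

theorem dhj_pos : S_dhj.{u} := by
  classical
  intro ι _ _ δ hδ
  have hcard : Fintype.card ι - 1 + 1 = Fintype.card ι :=
    Nat.sub_add_cancel (Fintype.card_pos)
  have e : Fin (Fintype.card ι - 1 + 1) ≃ ι := (Fintype.equivFinOfCardEq hcard.symm).symm
  have hD : H602R3.DHJ.D ι := H602R3.DHJ.D_equiv e (H602R3.DHJ.dhj (Fintype.card ι - 1))
  obtain ⟨N, hN⟩ := hD (δ / 2) (half_pos hδ)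
  refine ⟨δ / 2 / (Fintype.card (Lines N ι) + 1), by positivity, fun G K _ _ m M hm hM π A hA => ?_⟩
  let C : K → ℝ := fun y => m (fun z => ∏ j, ind A (z + π j y))
  have hp01 : ∀ (z : G) (s : ι → G), 0 ≤ ∏ j, ind A (z + s j) ∧ ∏ j, ind A (z + s j) ≤ 1 :=
    fun z s => ⟨Finset.prod_nonneg (fun j _ => (ind_icc _ _).1),
      Finset.prod_le_one (fun j _ => (ind_icc _ _).1) (fun j _ => (ind_icc _ _).2)⟩
  have hpb : ∀ s : ι → G, Bd (fun z => ∏ j, ind A (z + s j)) := fun s =>
    Bd.of_icc (a := 0) (b := 1) (fun z => hp01 z s)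
  have hC01 : ∀ y, 0 ≤ C y ∧ C y ≤ 1 := fun y =>
    ⟨hm.nonneg _ (hpb _) (fun z => (hp01 z _).1),
      hm.toIsMean.le_of_le (hpb _) (fun z => (hp01 z _).2)⟩
  have hCb : Bd C := Bd.of_icc hC01
  have hMC : 0 ≤ M C := hM.nonneg _ hCb (fun y => (hC01 y).1)
  let bV : Lines N ι → Fin N → Bool := fun V i => (V.1 i).isRight
  -- the main inequality
  have main : ∀ κ : Fin N → K, δ / 2 ≤ ∑ V : Lines N ι, C (∑ i, if bV V i = true then κ i else 0) := by
    intro κ
    let sh : (Fin N → ι) → G := fun w => ∑ i, π (w i) (κ i)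
    have h1 : ∀ z : G, (∑ w, ind A (z + sh w)) / Fintype.card (Fin N → ι) ≤
        δ / 2 + ∑ V : Lines N ι, ∏ j, ind A (z + sh (V.pt j)) := by
      intro z
      have hS0 : 0 ≤ ∑ V : Lines N ι, ∏ j, ind A (z + sh (V.pt j)) :=
        Finset.sum_nonneg (fun V _ => (hp01 z _).1)
      have hdn : H602R3.DHJ.dn {w : Fin N → ι | z + sh w ∈ A} =
          (∑ w, ind A (z + sh w)) / Fintype.card (Fin N → ι) := dn_eq A (fun w => z + sh w)
      by_cases hL : H602R3.DHJ.LFr {w : Fin N → ι | z + sh w ∈ A}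
      · have h2 := hN _ hL
        rw [hdn] at h2
        linarith
      · obtain ⟨V, hVA⟩ := exists_line hL
        have h3 : ∏ j, ind A (z + sh (V.pt j)) = 1 :=
          Finset.prod_eq_one (fun j _ => ind_mem (hVA j))
        have h4 : ∏ j, ind A (z + sh (V.pt j)) ≤
            ∑ V : Lines N ι, ∏ j, ind A (z + sh (V.pt j)) :=
          Finset.single_le_sum (f := fun V : Lines N ι =>
            ∏ j, ind A (z + sh (V.pt j))) (fun V _ => (hp01 z _).1) (Finset.mem_univ V)
        have h5 : (∑ w, ind A (z + sh w)) / Fintype.card (Fin N → ι) ≤ 1 := by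
          have hpos : (0 : ℝ) < Fintype.card (Fin N → ι) := by exact_mod_cast Fintype.card_pos
          rw [div_le_one hpos]
          refine (Finset.sum_le_sum (fun w _ => (ind_icc A (z + sh w)).2)).trans_eq ?_
          simp
        linarith
    have h2 : m (fun z => (∑ w, ind A (z + sh w)) / Fintype.card (Fin N → ι)) = m (ind A) := by
      have hpos : (0 : ℝ) < Fintype.card (Fin N → ι) := by exact_mod_cast Fintype.card_pos
      have e1 : (fun z => (∑ w, ind A (z + sh w)) / (Fintype.card (Fin N → ι) : ℝ)) =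
          fun z => (1 / (Fintype.card (Fin N → ι) : ℝ)) * ∑ w, ind A (z + sh w) := by
        funext z
        ring
      rw [e1, hm.smul _ _ (Bd.sum _ (fun w _ => (bd_ind A).comp (fun z => z + sh w))),
        hm.toIsPos.sum _ (fun w _ => (bd_ind A).comp (fun z => z + sh w)),
        Finset.sum_congr rfl (fun w _ => hm.inv (ind A) (sh w) (bd_ind A)), Finset.sum_const,
        Finset.card_univ, nsmul_eq_mul, ← mul_assoc, one_div_mul_cancel hpos.ne', one_mul]
    have h3 : ∀ V : Lines N ι, m (fun z => ∏ j, ind A (z + sh (V.pt j))) =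
        C (∑ i, if bV V i = true then κ i else 0) := by
      intro V
      set t : G := ∑ i, Sum.elim (fun a => π a (κ i)) (fun _ => (0 : G)) (V.1 i) with ht
      have e2 : ∀ j, sh (V.pt j) =
          π j (∑ i, if bV V i = true then κ i else 0) + t := by
        intro j
        show ∑ i, π (Sum.elim id (fun _ => j) (V.1 i)) (κ i) = _
        rw [ht, map_sum, ← Finset.sum_add_distrib]
        refine Finset.sum_congr rfl (fun i _ => ?_)
        show _ = π j (if (V.1 i).isRight = true then κ i else 0) + _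
        rcases V.1 i with a | u
        · simp
        · simp
      show _ = m (fun z => ∏ j, ind A (z + π j (∑ i, if bV V i = true then κ i else 0)))
      rw [← hm.inv (fun z => ∏ j, ind A (z + π j (∑ i, if bV V i = true then κ i else 0))) t (hpb _)]
      congr 1
      funext z
      refine Finset.prod_congr rfl (fun j _ => ?_)
      rw [e2 j]
      congr 1
      abel
    have h4 : m (fun z => δ / 2 + ∑ V : Lines N ι, ∏ j, ind A (z + sh (V.pt j))) =
        δ / 2 + ∑ V : Lines N ι, C (∑ i, if bV V i = true then κ i else 0) := by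
      rw [hm.add _ _ (Bd.const _) (Bd.sum _ (fun V _ => hpb _)), hm.toIsMean.const,
        hm.toIsPos.sum _ (fun V _ => hpb _), Finset.sum_congr rfl (fun V _ => h3 V)]
    have h5 : m (fun z => (∑ w, ind A (z + sh w)) / Fintype.card (Fin N → ι)) ≤
        m (fun z => δ / 2 + ∑ V : Lines N ι, ∏ j, ind A (z + sh (V.pt j))) := by
      refine hm.toIsPos.mono ?_ ((Bd.const _).add (Bd.sum _ (fun V _ => hpb _))) h1
      have e1 : (fun z => (∑ w, ind A (z + sh w)) / (Fintype.card (Fin N → ι) : ℝ)) =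
          fun z => (1 / (Fintype.card (Fin N → ι) : ℝ)) * ∑ w, ind A (z + sh w) := by
        funext z
        ring
      rw [e1]
      exact (Bd.sum _ (fun w _ => (bd_ind A).comp (fun z => z + sh w))).smul _
    rw [h2, h4] at h5
    linarith
  obtain ⟨T, hT, hTC⟩ := iterMean hM N
  have hCV : ∀ V : Lines N ι, Bd (fun κ : Fin N → K => C (∑ i, if bV V i = true then κ i else 0)) :=
    fun V => hCb.comp (fun κ : Fin N → K => ∑ i, if bV V i = true then κ i else 0)
  have h1 : δ / 2 ≤ T (fun κ => ∑ V : Lines N ι, C (∑ i, if bV V i = true then κ i else 0)) :=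
    hT.ge_of_ge (Bd.sum _ (fun V _ => hCV V)) main
  rw [hT.toIsPos.sum _ (fun V _ => hCV V)] at h1
  have h2 : ∀ V : Lines N ι, T (fun κ : Fin N → K => C (∑ i, if bV V i = true then κ i else 0)) = M C := by
    intro V
    refine hTC (bV V) ?_ C hCb
    obtain ⟨i, hi⟩ := V.2 ()
    refine ⟨i, ?_⟩
    show (V.1 i).isRight = true
    rw [hi]
    rfl
  rw [Finset.sum_congr rfl (fun V _ => h2 V), Finset.sum_const, Finset.card_univ, nsmul_eq_mul] at h1
  show δ / 2 / (Fintype.card (Lines N ι) + 1) ≤ M C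
  rw [div_le_iff₀ (by positivity)]
  nlinarith

end Q136.BM
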