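import Pool.Agent.Q136.BM.Stm

/-!
# Pushing an invariant mean forward, and lifting one, along a homomorphism with image of finite index
-/

namespace Q136.BM

open scoped ComplexConjugate BigOperators

universe u

lemma index_eq_card {G : Type u} [AddCommGroup G] (R : AddSubgroup G) [Fintype (G ⧸ R)] :
    (R.index : ℝ) = Fintype.card (G ⧸ R) := by
  rw [← Nat.card_eq_fintype_card]
  rfl

theorem dom : S_dom.{u} := by
  classical
  intro G K _ _ M hM π hπ
  have hfi : π.range.FiniteIndex := ⟨hπ⟩
  have : Finite (G ⧸ π.range) := AddSubgroup.finite_quotient_of_finiteIndex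
  have : Fintype (G ⧸ π.range) := Fintype.ofFinite _
  set n : ℝ := (π.range.index : ℝ) with hn
  have hn0 : 0 < n := by
    rw [hn]
    exact_mod_cast Nat.pos_of_ne_zero hπ
  let r : G ⧸ π.range → G := fun c => Quotient.out c
  have hr : ∀ c, (QuotientAddGroup.mk (r c) : G ⧸ π.range) = c := fun c => Quotient.out_eq c
  let M' : (G → ℝ) → ℝ := fun f => (1 / n) * ∑ c, M (fun y => f (π y + r c))
  have hbd : ∀ (f : G → ℝ) (c : G ⧸ π.range), Bd f → Bd (fun y => f (π y + r c)) :=
    fun f c hf => hf.comp (fun y => π y + r c)
  have key : ∀ (f : G → ℝ), Bd f → ∀ (a b : G), a - b ∈ π.range →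
      M (fun y => f (π y + a)) = M (fun y => f (π y + b)) := by
    intro f hf a b hab
    obtain ⟨y₀, hy₀⟩ := hab
    have h1 := hM.inv (fun y => f (π y + b)) y₀ (hf.comp (fun y => π y + b))
    rw [← h1]
    congr 1
    funext y
    rw [map_add, hy₀]
    congr 1
    abel
  have hM' : IsInvMean M' :=
    { add := fun f g hf hg => by
        show (1 / n) * ∑ c, M (fun y => f (π y + r c) + g (π y + r c)) = _
        rw [Finset.sum_congr rfl (fun c _ => hM.add _ _ (hbd f c hf) (hbd g c hg)),
          Finset.sum_add_distrib, mul_add]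
      smul := fun a f hf => by
        show (1 / n) * ∑ c, M (fun y => a * f (π y + r c)) = _
        rw [Finset.sum_congr rfl (fun c _ => hM.smul a _ (hbd f c hf)), ← Finset.mul_sum]
        ring
      nonneg := fun f hf h0 => mul_nonneg (by positivity)
        (Finset.sum_nonneg (fun c _ => hM.nonneg _ (hbd f c hf) (fun y => h0 _)))
      one := by
        show (1 / n) * ∑ c : G ⧸ π.range, M (fun _ => 1) = 1
        rw [hM.one, Finset.sum_const, Finset.card_univ, nsmul_eq_mul, mul_one, ← index_eq_card,
          ← hn, one_div_mul_cancel hn0.ne']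
      inv := fun f g hf => by
        show (1 / n) * ∑ c, M (fun y => f (π y + r c + g)) = (1 / n) * ∑ c, M (fun y => f (π y + r c))
        congr 1
        refine Fintype.sum_equiv (Equiv.addRight (QuotientAddGroup.mk g : G ⧸ π.range)) _ _
          (fun c => ?_)
        have e : (fun y => f (π y + r c + g)) = fun y => f (π y + (r c + g)) := by
          funext y
          rw [add_assoc]
        rw [e]
        refine key f hf _ _ ?_
        rw [← QuotientAddGroup.eq_zero_iff, QuotientAddGroup.mk_sub, QuotientAddGroup.mk_add, hr, hr]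
        exact sub_self _ }
  refine ⟨M', hM', fun f hf h0 => ?_⟩
  show M (fun y => f (π y)) ≤ n * ((1 / n) * ∑ c, M (fun y => f (π y + r c)))
  rw [← mul_assoc, mul_one_div_cancel hn0.ne', one_mul]
  have e : M (fun y => f (π y)) = M (fun y => f (π y + r 0)) := by
    have h1 := key f hf 0 (r 0) (by
      rw [← QuotientAddGroup.eq_zero_iff, QuotientAddGroup.mk_sub, hr]
      exact sub_self _)
    rw [← h1]
    congr 1
    funext y
    rw [add_zero]
  rw [e]
  exact Finset.single_le_sum (f := fun c => M (fun y => f (π y + r c)))
    (fun c _ => hM.nonneg _ (hbd f c hf) (fun y => h0 _)) (Finset.mem_univ _)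

lemma mean_subgroup {G : Type u} [AddCommGroup G] {m : (G → ℝ) → ℝ} (hm : IsInvMean m)
    (R : AddSubgroup G) (hR : R.index ≠ 0) : (R.index : ℝ) * m (ind (R : Set G)) = 1 := by
  classical
  have hfi : R.FiniteIndex := ⟨hR⟩
  have : Finite (G ⧸ R) := AddSubgroup.finite_quotient_of_finiteIndex
  have : Fintype (G ⧸ R) := Fintype.ofFinite _
  let r : G ⧸ R → G := fun c => Quotient.out c
  have hr : ∀ c, (QuotientAddGroup.mk (r c) : G ⧸ R) = c := fun c => Quotient.out_eq c
  have h1 : ∀ x : G, ∑ c, ind (R : Set G) (x + -r c) = 1 := by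
    intro x
    rw [Finset.sum_eq_single (QuotientAddGroup.mk x : G ⧸ R)]
    · apply ind_mem
      show x + -r _ ∈ R
      rw [← QuotientAddGroup.eq_zero_iff, QuotientAddGroup.mk_add, QuotientAddGroup.mk_neg, hr,
        add_neg_cancel]
    · intro c _ hc
      apply ind_notMem
      intro h
      apply hc
      have h' : x + -r c ∈ R := h
      rw [← QuotientAddGroup.eq_zero_iff, QuotientAddGroup.mk_add, QuotientAddGroup.mk_neg, hr,
        add_neg_eq_zero] at h'
      exact h'.symm
    · exact fun h => absurd (Finset.mem_univ _) h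
  have h2 : m (fun x => ∑ c, ind (R : Set G) (x + -r c)) = ∑ c, m (fun x => ind (R : Set G) (x + -r c)) :=
    hm.toIsPos.sum Finset.univ (fun c _ => (bd_ind _).comp (fun x => x + -r c))
  rw [funext h1, hm.one, Finset.sum_congr rfl (fun c _ => hm.inv (ind (R : Set G)) (-r c) (bd_ind _)),
    Finset.sum_const, Finset.card_univ, nsmul_eq_mul, ← index_eq_card] at h2
  exact h2.symm

theorem disint (hex : S_exists.{u}) : S_disint.{u} := by
  classical
  intro G K _ _ m hm π hπ
  obtain ⟨L, hL⟩ := hex π.ker
  set n : ℝ := (π.range.index : ℝ) with hn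
  have hn0 : 0 < n := by
    rw [hn]
    exact_mod_cast Nat.pos_of_ne_zero hπ
  let sec : G → K := fun x => if h : ∃ y, π y = x then h.choose else 0
  have hsec : ∀ x ∈ π.range, π (sec x) = x := by
    intro x hx
    have h : ∃ y, π y = x := hx
    show π (if h : ∃ y, π y = x then h.choose else 0) = x
    rw [dif_pos h]
    exact h.choose_spec
  let H : (K → ℝ) → G → ℝ := fun F x => ind (π.range : Set G) x * L (fun s => F (sec x + s))
  have hHb : ∀ F, Bd F → Bd (H F) := by
    intro F hF
    obtain ⟨C, hC⟩ := hF
    exact (bd_ind _).mul (Bd.iter hL.toIsMean (F := fun x (s : π.ker) => F (sec x + s))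
      (fun x s => hC _))
  have hcomp : ∀ (F : K → ℝ) (x : G), Bd F → Bd (fun s : π.ker => F (sec x + s)) :=
    fun F x hF => hF.comp (fun s : π.ker => sec x + (s : K))
  let M : (K → ℝ) → ℝ := fun F => n * m (H F)
  have hM : IsInvMean M :=
    { add := fun f g hf hg => by
        show n * m (H (fun x => f x + g x)) = n * m (H f) + n * m (H g)
        rw [← mul_add, ← hm.add _ _ (hHb f hf) (hHb g hg)]
        congr 2
        funext x
        show ind _ x * L (fun s => f (sec x + s) + g (sec x + s)) = _
        rw [hL.add _ _ (hcomp f x hf) (hcomp g x hg), mul_add]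
      smul := fun a f hf => by
        show n * m (H (fun x => a * f x)) = a * (n * m (H f))
        have e : H (fun x => a * f x) = fun x => a * H f x := by
          funext x
          show ind _ x * L (fun s => a * f (sec x + s)) = a * (ind _ x * L (fun s => f (sec x + s)))
          rw [hL.smul _ _ (hcomp f x hf)]
          ring
        rw [e, hm.smul _ _ (hHb f hf)]
        ring
      nonneg := fun f hf h0 => mul_nonneg hn0.le (hm.nonneg _ (hHb f hf)
        (fun x => mul_nonneg (ind_icc _ _).1 (hL.nonneg _ (hcomp f x hf) (fun s => h0 _))))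
      one := by
        show n * m (fun x => ind (π.range : Set G) x * L (fun _ => 1)) = 1
        rw [hL.one]
        simp only [mul_one]
        exact mean_subgroup hm π.range hπ
      inv := fun F y hF => by
        show n * m (H (fun x => F (x + y))) = n * m (H F)
        congr 1
        rw [← hm.inv (H F) (π y) (hHb F hF)]
        congr 1
        funext x
        show ind (π.range : Set G) x * L (fun s => F (sec x + s + y)) =
          ind (π.range : Set G) (x + π y) * L (fun s => F (sec (x + π y) + s))
        by_cases hx : x ∈ π.range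
        · have hx' : x + π y ∈ π.range := π.range.add_mem hx ⟨y, rfl⟩
          rw [ind_mem hx, ind_mem hx']
          have hk : sec x + y - sec (x + π y) ∈ π.ker := by
            rw [AddMonoidHom.mem_ker, map_sub, map_add, hsec x hx, hsec _ hx', sub_self]
          have h1 := hL.inv (fun s : π.ker => F (sec (x + π y) + s)) ⟨_, hk⟩ (hcomp F _ hF)
          rw [← h1]
          congr 2
          funext s
          congr 1
          show sec x + s + y = sec (x + π y) + (s + (sec x + y - sec (x + π y)))
          abel
        · have hx' : x + π y ∉ π.range := by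
            intro h
            apply hx
            have := π.range.sub_mem h ⟨y, rfl⟩
            rwa [add_sub_cancel_right] at this
          rw [ind_notMem hx, ind_notMem hx', zero_mul, zero_mul] }
  refine ⟨M, hM, fun f hf h0 => ?_⟩
  show n * m (fun x => ind (π.range : Set G) x * L (fun s => f (π (sec x + s)))) ≤ n * m f
  refine mul_le_mul_of_nonneg_left ?_ hn0.le
  refine hm.toIsPos.mono (hHb (fun y => f (π y)) (hf.comp π)) hf (fun x => ?_)
  by_cases hx : x ∈ π.range
  · rw [ind_mem hx, one_mul]
    have e : (fun s : π.ker => f (π (sec x + s))) = fun _ => f x := by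
      funext s
      rw [map_add, hsec x hx, (AddMonoidHom.mem_ker).mp s.2, add_zero]
    rw [e, hL.toIsMean.const]
  · rw [ind_notMem hx, zero_mul]
    exact h0 x

end Q136.BM
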