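import Pool.Agent.Q136.BM.Stm

/-!
# Mixing on average for extremal means
-/

namespace Q136.BM

open scoped ComplexConjugate BigOperators

universe u

section

variable {G : Type u} [AddCommGroup G] {m M : (G → ℝ) → ℝ}

lemma bd_pair {f g : G → ℝ} {C D : ℝ} (hf : ∀ x, |f x| ≤ C) (hg : ∀ x, |g x| ≤ D) (t z : G) :
    |f (z + t) * g z| ≤ C * D := by
  rw [abs_mul]
  exact mul_le_mul (hf _) (hg _) (abs_nonneg _) ((abs_nonneg _).trans (hf 0))

/-- nonnegative functions -/
lemma mix_nonneg (hm : IsInvMean m) (he : Erg m) (hM : IsInvMean M) {f g : G → ℝ} {C : ℝ}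
    (hC0 : 0 < C) (hf : ∀ x, 0 ≤ f x ∧ f x ≤ C) (hg : Bd g) :
    M (fun t => m (fun z => f (z + t) * g z)) = m f * m g := by
  have hfa : ∀ x, |f x| ≤ C := fun x => by rw [abs_of_nonneg (hf x).1]; exact (hf x).2
  have hfb : Bd f := ⟨C, hfa⟩
  set Θ : (G → ℝ) → ℝ := fun g => M (fun t => m (fun z => f (z + t) * g z)) / C with hΘ
  have hpos : IsPos Θ := by
    refine ⟨fun g h hg hh => ?_, fun c g hg => ?_, fun g hg h0 => ?_⟩
    · obtain ⟨D, hD⟩ := hg
      obtain ⟨E, hE⟩ := hh
      rw [hΘ]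
      simp only
      rw [← add_div]
      congr 1
      rw [← hM.toIsPos.add _ _ (Bd.iter hm.toIsMean (bd_pair hfa hD))
        (Bd.iter hm.toIsMean (bd_pair hfa hE))]
      congr 1
      funext t
      rw [← hm.toIsPos.add _ _ ⟨_, bd_pair hfa hD t⟩ ⟨_, bd_pair hfa hE t⟩]
      congr 1
      funext z
      ring
    · obtain ⟨D, hD⟩ := hg
      rw [hΘ]
      simp only
      rw [← mul_div_assoc]
      congr 1
      rw [← hM.toIsPos.smul _ _ (Bd.iter hm.toIsMean (bd_pair hfa hD))]
      congr 1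
      funext t
      rw [← hm.toIsPos.smul _ _ ⟨_, bd_pair hfa hD t⟩]
      congr 1
      funext z
      ring
    · obtain ⟨D, hD⟩ := hg
      refine div_nonneg (hM.nonneg _ (Bd.iter hm.toIsMean (bd_pair hfa hD)) (fun t => ?_)) hC0.le
      exact hm.nonneg _ ⟨_, bd_pair hfa hD t⟩ (fun z => mul_nonneg (hf _).1 (h0 z))
  have hinv : ∀ (g : G → ℝ) (s : G), Bd g → Θ (fun x => g (x + s)) = Θ g := by
    intro g s hg
    obtain ⟨D, hD⟩ := hg
    rw [hΘ]
    simp only
    congr 1
    rw [← hM.inv (fun t => m (fun z => f (z + t) * g z)) (-s)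
      (Bd.iter hm.toIsMean (bd_pair hfa hD))]
    congr 1
    funext t
    rw [← hm.inv (fun z => f (z + (t + -s)) * g z) s ⟨_, bd_pair hfa hD _⟩]
    congr 1
    funext z
    have : z + s + (t + -s) = z + t := by abel
    rw [this]
  have hle : ∀ g, Bd g → (∀ x, 0 ≤ g x) → Θ g ≤ m g := by
    intro g hg h0
    obtain ⟨D, hD⟩ := hg
    have hg' : Bd g := ⟨D, hD⟩
    rw [hΘ]
    simp only
    rw [div_le_iff₀ hC0]
    refine hM.toIsMean.le_of_le (Bd.iter hm.toIsMean (bd_pair hfa hD)) (fun t => ?_)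
    have h1 : m (fun z => f (z + t) * g z) ≤ m (fun z => C * g z) :=
      hm.toIsPos.mono ⟨_, bd_pair hfa hD t⟩ (hg'.smul C)
        (fun z => mul_le_mul_of_nonneg_right (hf _).2 (h0 z))
    rw [hm.smul _ _ hg'] at h1
    linarith
  have h1 := he Θ hpos hinv hle g hg
  have h2 : Θ (fun _ => 1) = m f / C := by
    rw [hΘ]
    simp only [mul_one]
    congr 1
    have : (fun t => m (fun z => f (z + t))) = fun _ => m f := by
      funext t
      exact hm.inv f t hfb
    rw [this, hM.toIsMean.const]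
  rw [h2] at h1
  have h3 : M (fun t => m (fun z => f (z + t) * g z)) = Θ g * C := by
    rw [hΘ]
    simp only
    field_simp
  rw [h3, h1]
  field_simp

/-- real functions -/
lemma mix_real (hm : IsInvMean m) (he : Erg m) (hM : IsInvMean M) {f g : G → ℝ}
    (hf : Bd f) (hg : Bd g) :
    M (fun t => m (fun z => f (z + t) * g z)) = m f * m g := by
  obtain ⟨C, hC⟩ := hf
  obtain ⟨D, hD⟩ := hg
  have hfb : Bd f := ⟨C, hC⟩
  have hgb : Bd g := ⟨D, hD⟩
  have hC0 : 0 ≤ C := (abs_nonneg _).trans (hC 0)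
  set f' : G → ℝ := fun x => f x + (C + 1) with hf'
  have hf1 : ∀ x, 0 ≤ f' x ∧ f' x ≤ 2 * C + 1 := fun x => by
    have := abs_le.mp (hC x)
    rw [hf']
    constructor <;> simp only <;> linarith [this.1, this.2]
  have h1 := mix_nonneg hm he hM (C := 2 * C + 1) (by positivity) hf1 hgb
  have h2 : M (fun t => m (fun z => f' (z + t) * g z)) =
      M (fun t => m (fun z => f (z + t) * g z)) + (C + 1) * m g := by
    have e : (fun t => m (fun z => f' (z + t) * g z)) =
        fun t => m (fun z => f (z + t) * g z) + (C + 1) * m g := by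
      funext t
      rw [← hm.smul _ _ hgb, ← hm.toIsPos.add _ _ ⟨_, bd_pair hC hD t⟩ (hgb.smul _)]
      congr 1
      funext z
      rw [hf']
      ring
    rw [e, hM.toIsPos.add _ _ (Bd.iter hm.toIsMean (bd_pair hC hD)) (Bd.const _),
      hM.toIsMean.const]
  have h3 : m f' = m f + (C + 1) := by
    rw [hf', hm.toIsPos.add _ _ hfb (Bd.const _), hm.toIsMean.const]
  rw [h2, h3] at h1
  linarith

end

theorem mix : S_E.{u} := by
  intro G _ m M hm he hM f g hf hg
  obtain ⟨C, hC⟩ := hf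
  obtain ⟨D, hD⟩ := hg
  have hf : BdC f := ⟨C, hC⟩
  have hg : BdC g := ⟨D, hD⟩
  have h := fun (a b : G → ℝ) (ha : Bd a) (hb : Bd b) => mix_real hm he hM ha hb
  have hrr := h _ _ hf.re hg.re
  have hii := h _ _ hf.im hg.im
  have hri := h _ _ hf.re hg.im
  have hir := h _ _ hf.im hg.re
  have hbd : ∀ {a b : G → ℝ}, Bd a → Bd b → (∀ t, Bd (fun z => a (z + t) * b z)) ∧
      Bd (fun t => m (fun z => a (z + t) * b z)) := by
    intro a b ha hb
    obtain ⟨A, hA⟩ := ha
    obtain ⟨B, hB⟩ := hb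
    exact ⟨fun t => ⟨_, bd_pair hA hB t⟩, Bd.iter hm.toIsMean (bd_pair hA hB)⟩
  apply Complex.ext
  · show M (fun t => m (fun z => (f (z + t) * conj (g z)).re)) = (mC m f * conj (mC m g)).re
    have e : (fun t => m (fun z => (f (z + t) * conj (g z)).re)) = fun t =>
        m (fun z => (f (z + t)).re * (g z).re) + m (fun z => (f (z + t)).im * (g z).im) := by
      funext t
      rw [← hm.toIsPos.add _ _ ((hbd hf.re hg.re).1 t) ((hbd hf.im hg.im).1 t)]
      congr 1
      funext z
      simp [Complex.mul_re]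
    rw [e, hM.toIsPos.add _ _ (hbd hf.re hg.re).2 (hbd hf.im hg.im).2, hrr, hii]
    simp [Complex.mul_re, mC_re, mC_im]
  · show M (fun t => m (fun z => (f (z + t) * conj (g z)).im)) = (mC m f * conj (mC m g)).im
    have e : (fun t => m (fun z => (f (z + t) * conj (g z)).im)) = fun t =>
        m (fun z => (f (z + t)).im * (g z).re) - m (fun z => (f (z + t)).re * (g z).im) := by
      funext t
      rw [← hm.toIsPos.sub ((hbd hf.im hg.re).1 t) ((hbd hf.re hg.im).1 t)]
      congr 1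
      funext z
      simp [Complex.mul_im]
      ring
    rw [e, hM.toIsPos.sub (hbd hf.im hg.re).2 (hbd hf.re hg.im).2, hir, hri]
    simp [Complex.mul_im, mC_re, mC_im]
    ring

end Q136.BM
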