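import Pool.Agent.Q136.BM.Stm

/-!
# Assembly of the final statements
-/

namespace Q136.BM

open scoped ComplexConjugate BigOperators
open Filter Topology

universe u

/-! ### Padding characters -/

lemma bohr_pad {G : Type u} [AddCommGroup G] {k k' : ℕ} (h : k ≤ k') {η η' : ℝ} (hη : η' ≤ η)
    (χ : Fin k → AddChar G Circle) : ∃ χ' : Fin k' → AddChar G Circle, bohr χ' η' ⊆ bohr χ η := by
  refine ⟨fun i => if hi : i.1 < k then χ ⟨i.1, hi⟩ else 1, fun g hg j => ?_⟩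
  have := hg ⟨j.1, j.2.trans_le h⟩
  simp only [j.2, dif_pos] at this
  exact this.trans_le hη

lemma HasBohr.mono {G : Type u} [AddCommGroup G] {ι : Type} [Fintype ι] {φ : ι → G →+ G}
    {A : Set G} {k k' : ℕ} (h : k ≤ k') {η η' : ℝ} (hη : η' ≤ η) (H : HasBohr φ A k η) :
    HasBohr φ A k' η' := by
  obtain ⟨χ, hχ⟩ := H
  obtain ⟨χ', hχ'⟩ := bohr_pad h hη χ
  exact ⟨χ', fun g hg => hχ g (hχ' hg)⟩

/-! ### The density theorem -/

theorem density_mean (hcore : S_core.{u}) (d : ℕ) (hd : 3 ≤ d) (δ : ℝ) (hδ : 0 < δ)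
    (n : Fin d → ℕ) (hn : ∀ j, n j ≠ 0) (herg : S_erg.{u}) :
    ∃ (k : ℕ) (η : ℝ), 0 < η ∧ ∀ (G : Type u) [AddCommGroup G] (φ : Fin d → G →+ G),
      (∀ j, (φ j).range.index = n j) → (∑ j, φ j = 0) → ∀ m : (G → ℝ) → ℝ, IsInvMean m →
      ∀ A : Set G, δ ≤ m (ind A) → HasBohr φ A k η := by
  obtain ⟨k, η, hη, H⟩ := hcore (Fin d) ⟨0, by omega⟩ ⟨1, by omega⟩ ⟨2, by omega⟩
    (by simp) (by simp) (by simp) δ hδ n hn
  refine ⟨k, η, hη, fun G _ φ hφ h0 m hm A hA => ?_⟩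
  obtain ⟨m', hm', he, hmm⟩ := herg G m A hm
  exact H G φ hφ h0 m' hm' he A (hA.trans hmm)

lemma exists_mean_of_upperDensity {G : Type u} [AddCommGroup G] {A : Set G} {δ : ℝ}
    (hδ : 0 < δ) (h : δ ≤ upperDensity A) : ∃ m : (G → ℝ) → ℝ, IsInvMean m ∧ δ / 2 ≤ m (ind A) := by
  have hne : {x : ℝ | ∃ m : (G → ℝ) → ℝ, IsInvMean m ∧ m (ind A) = x}.Nonempty := by
    by_contra hne
    rw [Set.not_nonempty_iff_eq_empty] at hne
    rw [upperDensity, hne, Real.sSup_empty] at h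
    linarith
  have h2 : δ / 2 < sSup {x : ℝ | ∃ m : (G → ℝ) → ℝ, IsInvMean m ∧ m (ind A) = x} := by
    have : δ ≤ sSup {x : ℝ | ∃ m : (G → ℝ) → ℝ, IsInvMean m ∧ m (ind A) = x} := h
    linarith
  obtain ⟨x, ⟨m, hm, rfl⟩, hx⟩ := exists_lt_of_lt_csSup hne h2
  exact ⟨m, hm, hx.le⟩

theorem density_final (hcore : S_core.{u}) (herg : S_erg.{u}) (d : ℕ) (hd : 3 ≤ d) (δ : ℝ)
    (hδ : 0 < δ) (n : Fin d → ℕ) (hn : ∀ j, n j ≠ 0) :
    ∃ (k : ℕ) (η : ℝ), 0 < η ∧ ∀ (G : Type u) [AddCommGroup G] (φ : Fin d → G →+ G),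
      (∀ j, (φ j).range.index = n j) → (∑ j, φ j = 0) →
      ∀ A : Set G, δ ≤ upperDensity A → HasBohr φ A k η := by
  obtain ⟨k, η, hη, H⟩ := density_mean hcore d hd (δ / 2) (half_pos hδ) n hn herg
  refine ⟨k, η, hη, fun G _ φ hφ h0 A hA => ?_⟩
  obtain ⟨m, hm, h1⟩ := exists_mean_of_upperDensity hδ hA
  exact H G φ hφ h0 m hm A h1

/-! ### The partition theorem -/

theorem partition_final (h1 : S_part1.{u}) (h2 : S_part2.{u}) (h3 : S_part3.{u}) (d : ℕ)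
    (hd : 3 ≤ d) (r : ℕ) (hr : 0 < r) (n : Fin d → ℕ) (hn : ∀ j, n j ≠ 0) :
    ∃ (k : ℕ) (η : ℝ), 0 < η ∧ ∀ (G : Type u) [AddCommGroup G] (φ : Fin d → G →+ G),
      (∀ j, (φ j).range.index = n j) → (∃ S : Finset (Fin d), S.Nonempty ∧ ∑ j ∈ S, φ j = 0) →
      ∀ A : Fin r → Set G, (∀ x, ∃ i, x ∈ A i) → (∀ i j, i ≠ j → Disjoint (A i) (A j)) →
      ∃ i, HasBohr φ (A i) k η := by
  have key : ∀ S : Finset (Fin d), ∃ (k : ℕ) (η : ℝ), 0 < η ∧
      ∀ (G : Type u) [AddCommGroup G] (φ : Fin d → G →+ G),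
      (∀ j, (φ j).range.index = n j) → S.Nonempty → (∑ j ∈ S, φ j = 0) →
      ∀ A : Fin r → Set G, (∀ x, ∃ i, x ∈ A i) → (∀ i j, i ≠ j → Disjoint (A i) (A j)) →
      ∃ i, HasBohr φ (A i) k η := by
    intro S
    rcases Nat.lt_or_ge S.card 3 with h | h
    · interval_cases hc : S.card
      · refine ⟨0, 1, one_pos, fun G _ φ _ hS => ?_⟩
        rw [Finset.card_eq_zero.mp hc] at hS
        exact absurd hS Finset.not_nonempty_empty
      · obtain ⟨k, η, hη, H⟩ := h1 d S hc r n hr hn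
        exact ⟨k, η, hη, fun G _ φ hφ _ h0 A => H G φ hφ h0 A⟩
      · obtain ⟨k, η, hη, H⟩ := h2 d hd S hc r n hr hn
        exact ⟨k, η, hη, fun G _ φ hφ _ h0 A => H G φ hφ h0 A⟩
    · obtain ⟨k, η, hη, H⟩ := h3 d S h r n hr hn
      exact ⟨k, η, hη, fun G _ φ hφ _ h0 A => H G φ hφ h0 A⟩
  choose k η hη H using key
  have hne : (Finset.univ : Finset (Finset (Fin d))).Nonempty := Finset.univ_nonempty
  refine ⟨Finset.univ.sup k, Finset.univ.inf' hne η, ?_, ?_⟩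
  · rw [Finset.lt_inf'_iff]
    exact fun S _ => hη S
  · intro G _ φ hφ hS A hA hd
    obtain ⟨S, hS, h0⟩ := hS
    obtain ⟨i, hi⟩ := H S G φ hφ hS h0 A hA hd
    exact ⟨i, hi.mono (Finset.le_sup (f := k) (Finset.mem_univ S))
      (Finset.inf'_le η (Finset.mem_univ S))⟩

/-! ### Folner sequences -/

/-- Folner sequences -/
def IsFolner {G : Type u} [AddCommGroup G] (F : ℕ → Finset G) : Prop :=
  (∀ N, (F N).Nonempty) ∧ ∀ g : G,
    Tendsto (fun N => ((symmDiff (F N : Set G) ((fun x => g + x) '' (F N : Set G))).ncard : ℝ) /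
      (F N).card) atTop (𝓝 0)

/-- the upper Banach density, by Folner sequences -/
noncomputable def folnerDensity {G : Type u} [AddCommGroup G] (A : Set G) : ℝ :=
  sSup {x : ℝ | ∃ F : ℕ → Finset G, IsFolner F ∧
    x = limsup (fun N => ((A ∩ (F N : Set G)).ncard : ℝ) / (F N).card) atTop}

section Folner

variable {G : Type u}

/-- the average over a finite set -/
noncomputable def avF (F : Finset G) (f : G → ℝ) : ℝ := (∑ x ∈ F, f x) / F.card

lemma avF_le {F : Finset G} (hF : F.Nonempty) {f : G → ℝ} {C : ℝ} (h : ∀ x, |f x| ≤ C) :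
    |avF F f| ≤ C := by
  have hc : (0 : ℝ) < F.card := by exact_mod_cast hF.card_pos
  rw [avF, abs_div, abs_of_pos hc, div_le_iff₀ hc]
  refine (Finset.abs_sum_le_sum_abs _ _).trans ?_
  refine (Finset.sum_le_sum (fun x _ => h x)).trans_eq ?_
  rw [Finset.sum_const, nsmul_eq_mul, mul_comm]

lemma avF_ind (F : Finset G) (A : Set G) :
    avF F (ind A) = ((A ∩ (F : Set G)).ncard : ℝ) / F.card := by
  classical
  rw [avF]
  congr 1
  have e : (A ∩ (F : Set G)) = ((F.filter (fun x => x ∈ A) : Finset G) : Set G) := by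
    ext x; simp [and_comm]
  rw [e, Set.ncard_coe_finset, Finset.card_filter]
  push_cast
  refine Finset.sum_congr rfl (fun x _ => ?_)
  by_cases h : x ∈ A <;> simp [ind, h]

variable [AddCommGroup G]

lemma exists_lim (U : Ultrafilter ℕ) {F : ℕ → Finset G} (hF : ∀ N, (F N).Nonempty) {f : G → ℝ}
    (hf : Bd f) : ∃ a : ℝ, Tendsto (fun N => avF (F N) f) U (𝓝 a) := by
  obtain ⟨C, hC⟩ := hf
  have h := isCompact_iff_ultrafilter_le_nhds.mp (isCompact_Icc (a := -C) (b := C))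
    (U.map (fun N => avF (F N) f)) (by
      rw [Filter.le_principal_iff, Ultrafilter.coe_map, Filter.mem_map]
      exact Filter.univ_mem' (fun N => abs_le.mp (avF_le (hF N) hC)))
  obtain ⟨a, -, ha⟩ := h
  exact ⟨a, ha⟩

/-- the limit mean along an ultrafilter -/
noncomputable def limM (U : Ultrafilter ℕ) (F : ℕ → Finset G) : (G → ℝ) → ℝ :=
  fun f => limUnder (U : Filter ℕ) (fun N => avF (F N) f)

lemma limM_tendsto (U : Ultrafilter ℕ) {F : ℕ → Finset G} (hF : ∀ N, (F N).Nonempty) {f : G → ℝ}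
    (hf : Bd f) : Tendsto (fun N => avF (F N) f) U (𝓝 (limM U F f)) := by
  obtain ⟨a, ha⟩ := exists_lim U hF hf
  exact tendsto_nhds_limUnder ⟨a, ha⟩

lemma limM_mean (U : Ultrafilter ℕ) {F : ℕ → Finset G} (hF : ∀ N, (F N).Nonempty) :
    IsMean (limM U F) where
  add f g hf hg := by
    refine tendsto_nhds_unique (limM_tendsto U hF (hf.add hg)) ?_
    refine ((limM_tendsto U hF hf).add (limM_tendsto U hF hg)).congr (fun N => ?_)
    rw [avF, avF, avF, ← add_div, ← Finset.sum_add_distrib]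
  smul c f hf := by
    refine tendsto_nhds_unique (limM_tendsto U hF (hf.smul c)) ?_
    refine ((limM_tendsto U hF hf).const_mul c).congr (fun N => ?_)
    rw [avF, avF, ← Finset.mul_sum, mul_div_assoc]
  nonneg f hf h0 := by
    refine ge_of_tendsto' (limM_tendsto U hF hf) (fun N => ?_)
    exact div_nonneg (Finset.sum_nonneg (fun x _ => h0 x)) (by positivity)
  one := by
    refine tendsto_nhds_unique (limM_tendsto U hF (Bd.const 1)) ?_
    refine tendsto_const_nhds.congr (fun N => ?_)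
    have hc : ((F N).card : ℝ) ≠ 0 := by exact_mod_cast (hF N).card_pos.ne'
    rw [avF, Finset.sum_const, nsmul_eq_mul, mul_one, div_self hc]

lemma avF_shift (F : Finset G) {f : G → ℝ} {C : ℝ} (h : ∀ x, |f x| ≤ C) (g : G) :
    |avF F (fun x => f (x + g)) - avF F f| ≤
      C * (((symmDiff (F : Set G) ((fun x => g + x) '' (F : Set G))).ncard : ℝ) / F.card) := by
  classical
  have e0 : (symmDiff (F : Set G) ((fun x => g + x) '' (F : Set G))).ncard =
      (symmDiff F (F.image (fun x => g + x))).card := by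
    rw [← Finset.coe_image, ← Finset.coe_symmDiff, Set.ncard_coe_finset]
  rw [e0]
  have e : ∑ x ∈ F, f (x + g) = ∑ x ∈ F.image (fun x => g + x), f x := by
    rw [Finset.sum_image (fun a _ b _ hab => add_left_cancel hab)]
    exact Finset.sum_congr rfl (fun x _ => by rw [add_comm])
  have h1 : |∑ x ∈ F.image (fun x => g + x), f x - ∑ x ∈ F, f x| ≤
      C * ((symmDiff F (F.image (fun x => g + x))).card : ℝ) := by
    set F' := F.image (fun x => g + x) with hF'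
    have e1 : ∑ x ∈ F', f x = ∑ x ∈ F' \ F, f x + ∑ x ∈ F' ∩ F, f x := by
      rw [← Finset.sum_union (Finset.disjoint_sdiff_inter F' F), Finset.sdiff_union_inter]
    have e2 : ∑ x ∈ F, f x = ∑ x ∈ F \ F', f x + ∑ x ∈ F' ∩ F, f x := by
      rw [Finset.inter_comm, ← Finset.sum_union (Finset.disjoint_sdiff_inter F F'),
        Finset.sdiff_union_inter]
    have e3 : symmDiff F F' = (F \ F') ∪ (F' \ F) := rfl
    have e4 : ((symmDiff F F').card : ℝ) = (F \ F').card + (F' \ F).card := by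
      rw [e3, Finset.card_union_of_disjoint]
      · push_cast; ring
      · exact Finset.disjoint_left.mpr (fun x hx hx' =>
          (Finset.mem_sdiff.mp hx).2 (Finset.mem_sdiff.mp hx').1)
    have b1 : |∑ x ∈ F' \ F, f x| ≤ (F' \ F).card * C := by
      refine (Finset.abs_sum_le_sum_abs _ _).trans ?_
      refine (Finset.sum_le_sum (fun x _ => h x)).trans_eq ?_
      rw [Finset.sum_const, nsmul_eq_mul]
    have b2 : |∑ x ∈ F \ F', f x| ≤ (F \ F').card * C := by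
      refine (Finset.abs_sum_le_sum_abs _ _).trans ?_
      refine (Finset.sum_le_sum (fun x _ => h x)).trans_eq ?_
      rw [Finset.sum_const, nsmul_eq_mul]
    rw [e1, e2, e4]
    have e5 : ∑ x ∈ F' \ F, f x + ∑ x ∈ F' ∩ F, f x -
        (∑ x ∈ F \ F', f x + ∑ x ∈ F' ∩ F, f x) =
        ∑ x ∈ F' \ F, f x - ∑ x ∈ F \ F', f x := by ring
    rw [e5]
    refine (abs_sub _ _).trans ?_
    linarith
  rw [avF, avF, e, ← sub_div, abs_div, abs_of_nonneg (Nat.cast_nonneg F.card : (0:ℝ) ≤ F.card),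
    ← mul_div_assoc]
  exact div_le_div_of_nonneg_right h1 (Nat.cast_nonneg _)

lemma limM_inv (U : Ultrafilter ℕ) (hU : (U : Filter ℕ) ≤ atTop) {F : ℕ → Finset G}
    (hF : IsFolner F) : IsInvMean (limM U F) where
  toIsMean := limM_mean U hF.1
  inv f g hf := by
    obtain ⟨C, hC⟩ := hf
    have h1 := (limM_tendsto U hF.1 (Bd.comp ⟨C, hC⟩ (fun x => x + g))).sub
      (limM_tendsto U hF.1 ⟨C, hC⟩)
    have h2 : Tendsto (fun N => C * (((symmDiff (F N : Set G)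
        ((fun x => g + x) '' (F N : Set G))).ncard : ℝ) / (F N).card)) U (𝓝 (C * 0)) :=
      ((hF.2 g).mono_left hU).const_mul C
    rw [mul_zero] at h2
    have h3 : Tendsto (fun N => avF (F N) (fun x => f (x + g)) - avF (F N) f) U (𝓝 0) :=
      squeeze_zero_norm (fun N => by rw [Real.norm_eq_abs]; exact avF_shift (F N) hC g) h2
    have h4 := tendsto_nhds_unique h1 h3
    linarith

lemma exists_mean_of_folner {F : ℕ → Finset G} (hF : IsFolner F) (A : Set G) :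
    ∃ m : (G → ℝ) → ℝ, IsInvMean m ∧
      limsup (fun N => avF (F N) (ind A)) atTop ≤ m (ind A) := by
  set a : ℝ := limsup (fun N => avF (F N) (ind A)) atTop with ha
  have hb : ∀ N, |avF (F N) (ind A)| ≤ 1 := fun N => avF_le (hF.1 N) (fun x => by
    rw [abs_le]; constructor <;> linarith [(ind_icc A x).1, (ind_icc A x).2])
  have hfr : ∀ ε : ℝ, 0 < ε → ∃ᶠ N in atTop, a - ε < avF (F N) (ind A) := by
    intro ε hε
    have hc : IsCoboundedUnder (· ≤ ·) atTop (fun N => avF (F N) (ind A)) :=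
      isCoboundedUnder_le_of_le atTop (x := -1) (fun N => (abs_le.mp (hb N)).1)
    exact frequently_lt_of_lt_limsup hc (by linarith)
  obtain ⟨ψ, hψ, hψ2⟩ : ∃ ψ : ℕ → ℕ, StrictMono ψ ∧
      ∀ j : ℕ, a - 1 / ((j : ℝ) + 1) < avF (F (ψ j)) (ind A) :=
    Filter.extraction_forall_of_frequently
      (P := fun (j N : ℕ) => a - 1 / ((j : ℝ) + 1) < avF (F N) (ind A))
      (fun j => hfr _ (by positivity))
  have hF' : IsFolner (fun j => F (ψ j)) :=
    ⟨fun j => hF.1 _, fun g => (hF.2 g).comp hψ.tendsto_atTop⟩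
  let U : Ultrafilter ℕ := Ultrafilter.of atTop
  have hU : (U : Filter ℕ) ≤ atTop := Ultrafilter.of_le atTop
  refine ⟨limM U (fun j => F (ψ j)), limM_inv U hU hF', ?_⟩
  have h1 := limM_tendsto U hF'.1 (bd_ind A)
  have h2 : Tendsto (fun j : ℕ => a - 1 / ((j : ℝ) + 1)) U (𝓝 (a - 0)) :=
    (tendsto_const_nhds.sub tendsto_one_div_add_atTop_nhds_zero_nat).mono_left hU
  rw [sub_zero] at h2
  exact le_of_tendsto_of_tendsto' h2 h1 (fun j => (hψ2 j).le)

lemma exists_mean_of_folnerDensity {A : Set G} {δ : ℝ}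
    (hδ : 0 < δ) (h : δ ≤ folnerDensity A) :
    ∃ m : (G → ℝ) → ℝ, IsInvMean m ∧ δ / 2 ≤ m (ind A) := by
  have hne : {x : ℝ | ∃ F : ℕ → Finset G, IsFolner F ∧
      x = limsup (fun N => ((A ∩ (F N : Set G)).ncard : ℝ) / (F N).card) atTop}.Nonempty := by
    by_contra hne
    rw [Set.not_nonempty_iff_eq_empty] at hne
    rw [folnerDensity, hne, Real.sSup_empty] at h
    linarith
  have h2 : δ / 2 < sSup {x : ℝ | ∃ F : ℕ → Finset G, IsFolner F ∧
      x = limsup (fun N => ((A ∩ (F N : Set G)).ncard : ℝ) / (F N).card) atTop} := by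
    have : δ ≤ sSup {x : ℝ | ∃ F : ℕ → Finset G, IsFolner F ∧
      x = limsup (fun N => ((A ∩ (F N : Set G)).ncard : ℝ) / (F N).card) atTop} := h
    linarith
  obtain ⟨x, ⟨F, hF, rfl⟩, hx⟩ := exists_lt_of_lt_csSup hne h2
  obtain ⟨m, hm, h3⟩ := exists_mean_of_folner hF A
  refine ⟨m, hm, hx.le.trans (le_trans (le_of_eq ?_) h3)⟩
  congr 1
  funext N
  rw [avF_ind]

end Folner

/-! ### The two statements for three endomorphisms -/

theorem density_three (hcore : S_core.{u}) (herg : S_erg.{u}) (δ : ℝ) (hδ : 0 < δ)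
    (n₁ n₂ n₃ : ℕ) (h₁ : n₁ ≠ 0) (h₂ : n₂ ≠ 0) (h₃ : n₃ ≠ 0) :
    ∃ (k : ℕ) (η : ℝ), 0 < η ∧ ∀ (G : Type u) [AddCommGroup G] (φ₁ φ₂ φ₃ : G →+ G),
      φ₁.range.index = n₁ → φ₂.range.index = n₂ → φ₃.range.index = n₃ → φ₁ + φ₂ + φ₃ = 0 →
      ∀ A : Set G, δ ≤ folnerDensity A → ∃ χ : Fin k → AddChar G Circle,
        ∀ g ∈ bohr χ η, ∃ a ∈ A, ∃ b ∈ A, ∃ c ∈ A, φ₁ a + φ₂ b + φ₃ c = g := by
  obtain ⟨k, η, hη, H⟩ := density_mean hcore 3 le_rfl (δ / 2) (half_pos hδ) ![n₁, n₂, n₃]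
    (by intro j; fin_cases j <;> simp [h₁, h₂, h₃]) herg
  refine ⟨k, η, hη, fun G _ φ₁ φ₂ φ₃ i₁ i₂ i₃ h0 A hA => ?_⟩
  obtain ⟨m, hm, hmA⟩ := exists_mean_of_folnerDensity hδ hA
  obtain ⟨χ, hχ⟩ := H G ![φ₁, φ₂, φ₃] (by intro j; fin_cases j <;> simp [i₁, i₂, i₃])
    (by rw [Fin.sum_univ_three]; simpa using h0) m hm A hmA
  refine ⟨χ, fun g hg => ?_⟩
  obtain ⟨x, hx, hs⟩ := hχ g hg
  refine ⟨x 0, hx 0, x 1, hx 1, x 2, hx 2, ?_⟩
  rw [Fin.sum_univ_three] at hs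
  simpa using hs

theorem partition_three (h2 : S_part2.{u}) (r : ℕ) (hr : 0 < r) (n₁ n₂ : ℕ) (h₁ : n₁ ≠ 0)
    (h₂ : n₂ ≠ 0) :
    ∃ (k : ℕ) (η : ℝ), 0 < η ∧ ∀ (G : Type u) [AddCommGroup G] (φ₁ φ₂ : G →+ G),
      φ₁.range.index = n₁ → φ₂.range.index = n₂ →
      ∀ A : Fin r → Set G, (∀ x, ∃ i, x ∈ A i) → (∀ i j, i ≠ j → Disjoint (A i) (A j)) →
      ∃ i, ∃ χ : Fin k → AddChar G Circle,
        ∀ g ∈ bohr χ η, ∃ a ∈ A i, ∃ b ∈ A i, ∃ c ∈ A i, φ₁ a + φ₂ b - φ₂ c = g := by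
  obtain ⟨k, η, hη, H⟩ := h2 3 le_rfl {1, 2} (by decide) r ![n₁, n₂, n₂] hr
    (by intro j; fin_cases j <;> simp [h₁, h₂])
  refine ⟨k, η, hη, fun G _ φ₁ φ₂ i₁ i₂ A hA hd => ?_⟩
  have hr2 : (-φ₂).range = φ₂.range := by
    ext x
    simp only [AddMonoidHom.mem_range, AddMonoidHom.neg_apply]
    constructor
    · rintro ⟨y, rfl⟩; exact ⟨-y, by simp⟩
    · rintro ⟨y, rfl⟩; exact ⟨-y, by simp⟩
  obtain ⟨i, χ, hχ⟩ := H G ![φ₁, φ₂, -φ₂]
    (by intro j; fin_cases j <;> simp [i₁, i₂, hr2])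
    (by rw [Finset.sum_pair (by decide)]; simp) A hA hd
  refine ⟨i, χ, fun g hg => ?_⟩
  obtain ⟨x, hx, hs⟩ := hχ g hg
  refine ⟨x 0, hx 0, x 1, hx 1, x 2, hx 2, ?_⟩
  rw [Fin.sum_univ_three] at hs
  simpa [sub_eq_add_neg] using hs

end Q136.BM
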