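import Pool.Agent.Q136.BM.Stm

/-!
# The generalised von Neumann inequality
-/

namespace Q136.BM

open scoped ComplexConjugate BigOperators

universe u

section

variable {G K : Type u} [AddCommGroup G] [AddCommGroup K] {ι : Type} [Fintype ι]

/-- the weight -/
noncomputable def RR (π : ι → K →+ G) (f : ι → G → ℝ) (κ y : K) (z : G) : ℝ :=
  (∏ j, f j (z + π j (y + κ))) * ∏ j, f j (z + π j y)

lemma RR_icc (π : ι → K →+ G) {f : ι → G → ℝ} (hf : ∀ j x, 0 ≤ f j x ∧ f j x ≤ 1) (κ y : K)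
    (z : G) : 0 ≤ RR π f κ y z ∧ RR π f κ y z ≤ 1 := by
  have h1 : 0 ≤ ∏ j, f j (z + π j (y + κ)) := Finset.prod_nonneg (fun j _ => (hf j _).1)
  have h2 : 0 ≤ ∏ j, f j (z + π j y) := Finset.prod_nonneg (fun j _ => (hf j _).1)
  have h3 : ∏ j, f j (z + π j (y + κ)) ≤ 1 :=
    Finset.prod_le_one (fun j _ => (hf j _).1) (fun j _ => (hf j _).2)
  have h4 : ∏ j, f j (z + π j y) ≤ 1 :=
    Finset.prod_le_one (fun j _ => (hf j _).1) (fun j _ => (hf j _).2)
  exact ⟨mul_nonneg h1 h2, mul_le_one₀ h3 h2 h4⟩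

/-- the functional -/
noncomputable def TT (m : (G → ℝ) → ℝ) (M : (K → ℝ) → ℝ) (π₁ : K →+ G) (π : ι → K →+ G)
    (f : ι → G → ℝ) (κ : K) : (G → ℝ) → ℝ :=
  fun F => M (fun y => m (fun z => F (z + π₁ y) * RR π f κ y z))

variable {m : (G → ℝ) → ℝ} {M : (K → ℝ) → ℝ} {π₁ : K →+ G} {π : ι → K →+ G} {f : ι → G → ℝ}

lemma TT_bd (hf : ∀ j x, 0 ≤ f j x ∧ f j x ≤ 1) {F : G → ℝ} {C : ℝ} (hF : ∀ x, |F x| ≤ C)
    (κ y : K) (z : G) : |F (z + π₁ y) * RR π f κ y z| ≤ C := by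
  have h1 := RR_icc π hf κ y z
  rw [abs_mul, abs_of_nonneg h1.1]
  have h2 := hF (z + π₁ y)
  nlinarith [abs_nonneg (F (z + π₁ y)), h1.1, h1.2]

lemma TT_pos (hm : IsMean m) (hM : IsMean M) (hf : ∀ j x, 0 ≤ f j x ∧ f j x ≤ 1) (κ : K) :
    IsPos (TT m M π₁ π f κ) where
  add F H hF hH := by
    obtain ⟨C, hC⟩ := hF
    obtain ⟨D, hD⟩ := hH
    unfold TT
    rw [← hM.toIsPos.add _ _ (Bd.iter hm (TT_bd hf hC κ)) (Bd.iter hm (TT_bd hf hD κ))]
    congr 1
    funext y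
    rw [← hm.toIsPos.add _ _ ⟨C, TT_bd hf hC κ y⟩ ⟨D, TT_bd hf hD κ y⟩]
    congr 1
    funext z
    ring
  smul c F hF := by
    obtain ⟨C, hC⟩ := hF
    unfold TT
    rw [← hM.toIsPos.smul _ _ (Bd.iter hm (TT_bd hf hC κ))]
    congr 1
    funext y
    rw [← hm.toIsPos.smul _ _ ⟨C, TT_bd hf hC κ y⟩]
    congr 1
    funext z
    ring
  nonneg F hF h0 := by
    obtain ⟨C, hC⟩ := hF
    exact hM.nonneg _ (Bd.iter hm (TT_bd hf hC κ))
      (fun y => hm.nonneg _ ⟨C, TT_bd hf hC κ y⟩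
        (fun z => mul_nonneg (h0 _) (RR_icc π hf κ y z).1))

lemma TT_le (hm : IsInvMean m) (hM : IsMean M) (hf : ∀ j x, 0 ≤ f j x ∧ f j x ≤ 1) (κ : K)
    {F : G → ℝ} (hF : Bd F) (h0 : ∀ x, 0 ≤ F x) : TT m M π₁ π f κ F ≤ m F := by
  obtain ⟨C, hC⟩ := hF
  have hF' : Bd F := ⟨C, hC⟩
  unfold TT
  refine hM.le_of_le (Bd.iter hm.toIsMean (TT_bd hf hC κ)) (fun y => ?_)
  rw [← hm.inv F (π₁ y) hF']
  refine hm.toIsPos.mono ⟨C, TT_bd hf hC κ y⟩ (hF'.comp (fun z => z + π₁ y)) (fun z => ?_)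
  have h1 := RR_icc π hf κ y z
  nlinarith [h0 (z + π₁ y), h1.1, h1.2]

lemma TT_inv (hm : IsInvMean m) (hM : IsInvMean M) (hf : ∀ j x, 0 ≤ f j x ∧ f j x ≤ 1) (κ : K)
    {F : G → ℝ} (hF : Bd F) {t : G} (ht : ∃ (y : K) (s : G), π₁ y + s = t ∧ ∀ j, π j y + s = 0) :
    TT m M π₁ π f κ (fun x => F (x + t)) = TT m M π₁ π f κ F := by
  obtain ⟨C, hC⟩ := hF
  obtain ⟨y₀, s, hs, hj⟩ := ht
  have hP := hM.pm hm
  have h1 := hP.inv (fun q => F (q.2 + π₁ q.1) * RR π f κ q.1 q.2) (y₀, s)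
    ⟨C, fun q => TT_bd hf hC κ q.1 q.2⟩
  have e0 : TT m M π₁ π f κ F = pm M m (fun q => F (q.2 + π₁ q.1) * RR π f κ q.1 q.2) := rfl
  rw [e0, ← h1]
  show M (fun y => m (fun z => F (z + π₁ y + t) * RR π f κ y z)) = M (fun y => m (fun z =>
    F (z + s + π₁ (y + y₀)) * RR π f κ (y + y₀) (z + s)))
  congr 1
  funext y
  congr 1
  funext z
  have e1 : z + π₁ y + t = z + s + π₁ (y + y₀) := by
    rw [map_add, ← hs]; abel
  have e2 : RR π f κ (y + y₀) (z + s) = RR π f κ y z := by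
    unfold RR
    congr 1
    · refine Finset.prod_congr rfl (fun j _ => ?_)
      congr 1
      have : z + s + π j (y + y₀ + κ) = z + π j (y + κ) + (π j y₀ + s) := by
        simp only [map_add]; abel
      rw [this, hj j, add_zero]
    · refine Finset.prod_congr rfl (fun j _ => ?_)
      congr 1
      have : z + s + π j (y + y₀) = z + π j y + (π j y₀ + s) := by
        simp only [map_add]; abel
      rw [this, hj j, add_zero]
  rw [e1, e2]

end

theorem gvn (hv : S_vdc.{u}) (hc : S_coset.{u}) (hi : S_inv.{u}) (hd : S_dom.{u}) :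
    S_gvn.{u} := by
  intro G K _ _ m M hm he hM ι _ π₁ π G' hG' hp hG f₀ f h L hf₀ hf hh hL hχ
  obtain ⟨C, hC⟩ := hh
  have hh' : BdC h := ⟨C, hC⟩
  have : Finite (G ⧸ G') := by
    have : G'.FiniteIndex := ⟨hG'⟩
    exact AddSubgroup.finite_quotient_of_finiteIndex
  have hfin : Fintype (G ⧸ G') := Fintype.ofFinite _
  have hcard : (Fintype.card (G ⧸ G') : ℝ) = G'.index := by
    rw [← Nat.card_eq_fintype_card]; rfl
  set Ψ : K → G → ℂ := fun y z => (∏ j, (f j (z + π j y) : ℂ)) * h (z + π₁ y) with hΨd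
  have hC0 : 0 ≤ C := (norm_nonneg _).trans (hC 0)
  have hΨ : ∀ y z, ‖Ψ y z‖ ≤ C := by
    intro y z
    have e : Ψ y z = ((∏ j, f j (z + π j y) : ℝ) : ℂ) * h (z + π₁ y) := by
      rw [hΨd]; push_cast; rfl
    rw [e, norm_mul, Complex.norm_real, Real.norm_eq_abs]
    have h1 : 0 ≤ ∏ j, f j (z + π j y) := Finset.prod_nonneg (fun j _ => (hf j _).1)
    have h2 : ∏ j, f j (z + π j y) ≤ 1 :=
      Finset.prod_le_one (fun j _ => (hf j _).1) (fun j _ => (hf j _).2)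
    rw [abs_of_nonneg h1]
    calc (∏ j, f j (z + π j y)) * ‖h (z + π₁ y)‖ ≤ 1 * C :=
          mul_le_mul h2 (hC _) (norm_nonneg _) zero_le_one
      _ = C := one_mul C
  refine (hv K G M m hM hm.toIsMean Ψ C hΨ (fun z => (f₀ z : ℂ)) (fun z => by
    rw [Complex.norm_real, Real.norm_eq_abs, abs_of_nonneg (hf₀ z).1]
    exact (hf₀ z).2)).trans ?_
  -- the functions `w_c` and `Q_c`
  set w : G ⧸ G' → G → ℂ := fun c z =>
    h z * (ind {x : G | (QuotientAddGroup.mk x : G ⧸ G') = c} z : ℂ) with hw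
  have hwb : ∀ c z, ‖w c z‖ ≤ ‖h z‖ := by
    intro c z
    have := ind_icc {x : G | (QuotientAddGroup.mk x : G ⧸ G') = c} z
    rw [hw]
    simp only
    rw [norm_mul, Complex.norm_real, Real.norm_eq_abs, abs_of_nonneg this.1]
    nlinarith [norm_nonneg (h z), this.1, this.2]
  have hwB : ∀ c, BdC (w c) := fun c => ⟨C, fun z => (hwb c z).trans (hC z)⟩
  set Q : G ⧸ G' → G → ℂ := fun c k => mC m (fun z => h (z + k) * conj (w c z)) with hQ
  have hQb : ∀ c k, ‖Q c k‖ ≤ C * C := by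
    intro c k
    have h1 : ∀ z, ‖h (z + k) * conj (w c z)‖ ≤ C * C := by
      intro z
      rw [norm_mul, RCLike.norm_conj]
      exact mul_le_mul (hC _) ((hwb c z).trans (hC z)) (norm_nonneg _) hC0
    exact (norm_mC_le hm.toIsPos ⟨C * C, h1⟩).trans
      (hm.toIsMean.le_of_le (BdC.norm ⟨C * C, h1⟩) h1)
  -- the pointwise bound
  have hpt : ∀ κ, (mC M (fun y => mC m (fun z => Ψ (y + κ) z * conj (Ψ y z)))).re ≤
      ∑ c, ‖Q c (π₁ κ)‖ := by
    intro κ
    obtain ⟨θ, hθ, hΘ⟩ := hc G m hm he G' (TT m M π₁ π f κ) (TT_pos hm.toIsMean hM.toIsMean hf κ)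
      (fun F hF t ht => TT_inv hm hM hf κ hF (hG t ht))
      (fun F hF h0 => TT_le hm hM.toIsMean hf κ hF h0)
    set F : G → ℂ := fun x => h (x + π₁ κ) * conj (h x) with hFd
    have hFb : BdC F := (hh'.comp (fun x => x + π₁ κ)).mul hh'.conj
    have e1 : mC M (fun y => mC m (fun z => Ψ (y + κ) z * conj (Ψ y z))) =
        mC (TT m M π₁ π f κ) F := by
      have e2 : ∀ y z, Ψ (y + κ) z * conj (Ψ y z) = F (z + π₁ y) * (RR π f κ y z : ℂ) := by
        intro y z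
        simp only [hΨd, hFd, RR, map_mul, map_prod, Complex.conj_ofReal, map_add]
        push_cast
        rw [add_assoc]
        ring
      apply Complex.ext
      · show M (fun y => m (fun z => (Ψ (y + κ) z * conj (Ψ y z)).re)) =
          M (fun y => m (fun z => (F (z + π₁ y)).re * RR π f κ y z))
        congr 1
        funext y
        congr 1
        funext z
        rw [e2, Complex.re_mul_ofReal]
      · show M (fun y => m (fun z => (Ψ (y + κ) z * conj (Ψ y z)).im)) =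
          M (fun y => m (fun z => (F (z + π₁ y)).im * RR π f κ y z))
        congr 1
        funext y
        congr 1
        funext z
        rw [e2, Complex.im_mul_ofReal]
    have e3 : mC (TT m M π₁ π f κ) F = ∑ c, (θ c : ℂ) * Q c (π₁ κ) := by
      have e4 : ∀ c, Q c (π₁ κ) = mC m (fun z =>
          (ind {x : G | (QuotientAddGroup.mk x : G ⧸ G') = c} z : ℂ) * F z) := by
        intro c
        rw [hQ]
        simp only
        congr 1
        funext z
        simp only [hw, hFd, map_mul, Complex.conj_ofReal]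
        ring
      apply Complex.ext
      · rw [mC_re, hΘ _ hFb.re, Complex.re_sum]
        refine Finset.sum_congr rfl (fun c _ => ?_)
        rw [Complex.re_ofReal_mul, e4, mC_re]
        congr 2
        funext z
        rw [Complex.re_ofReal_mul]
      · rw [mC_im, hΘ _ hFb.im, Complex.im_sum]
        refine Finset.sum_congr rfl (fun c _ => ?_)
        rw [Complex.im_ofReal_mul, e4, mC_im]
        congr 2
        funext z
        rw [Complex.im_ofReal_mul]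
    refine (Complex.re_le_norm _).trans ?_
    rw [e1, e3]
    refine (norm_sum_le _ _).trans (Finset.sum_le_sum (fun c _ => ?_))
    rw [norm_mul, Complex.norm_real, Real.norm_eq_abs, abs_of_nonneg (hθ c).1]
    nlinarith [norm_nonneg (Q c (π₁ κ)), (hθ c).1, (hθ c).2]
  -- the means
  have hbQ : ∀ c, Bd (fun κ => ‖Q c (π₁ κ)‖) := fun c =>
    ⟨C * C, fun κ => by rw [abs_norm]; exact hQb c _⟩
  have hbD : Bd (fun κ => (mC M (fun y => mC m (fun z => Ψ (y + κ) z * conj (Ψ y z)))).re) := by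
    refine ⟨C * C, fun κ => ?_⟩
    have h1 : ∀ y z, ‖Ψ (y + κ) z * conj (Ψ y z)‖ ≤ C * C := by
      intro y z
      rw [norm_mul, RCLike.norm_conj]
      exact mul_le_mul (hΨ _ _) (hΨ _ _) (norm_nonneg _) hC0
    refine (Complex.abs_re_le_norm _).trans ?_
    refine (norm_mC_le hM.toIsPos (BdC.iter hm.toIsMean h1)).trans ?_
    refine hM.toIsMean.le_of_le (BdC.norm (BdC.iter hm.toIsMean h1)) (fun y => ?_)
    exact (norm_mC_le hm.toIsPos ⟨C * C, h1 y⟩).trans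
      (hm.toIsMean.le_of_le (BdC.norm ⟨C * C, h1 y⟩) (h1 y))
  refine (hM.toIsPos.mono hbD (Bd.sum Finset.univ (fun c _ => hbQ c)) hpt).trans ?_
  rw [hM.toIsPos.sum Finset.univ (fun c _ => hbQ c)]
  have hterm : ∀ c, M (fun κ => ‖Q c (π₁ κ)‖) ≤
      Real.sqrt π₁.range.index * L * Real.sqrt (m (fun z => ‖h z‖ ^ 2)) := by
    intro c
    obtain ⟨M', hM', hdom⟩ := hd G K M hM π₁ hp
    have h1 := hM.toIsPos.cs (hbQ c) (Bd.const (X := K) 1)
    have h2 : M (fun κ => ‖Q c (π₁ κ)‖ ^ 2) ≤ π₁.range.index * M' (fun k => ‖Q c k‖ ^ 2) :=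
      hdom (fun k => ‖Q c k‖ ^ 2) (BdC.normSq ⟨C * C, hQb c⟩) (fun k => by positivity)
    have h3 : M' (fun k => ‖Q c k‖ ^ 2) ≤ L ^ 2 * m (fun z => ‖w c z‖ ^ 2) :=
      hi G m M' hm he hM' h (w c) hh' (hwB c) L hL hχ
    have h4 : m (fun z => ‖w c z‖ ^ 2) ≤ m (fun z => ‖h z‖ ^ 2) :=
      hm.toIsPos.mono (hwB c).normSq hh'.normSq (fun z => by
        exact pow_le_pow_left₀ (norm_nonneg _) (hwb c z) 2)
    have hmn : 0 ≤ m (fun z => ‖h z‖ ^ 2) := hm.nonneg _ hh'.normSq (fun z => by positivity)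
    have h5 : (M (fun κ => ‖Q c (π₁ κ)‖)) ^ 2 ≤
        (π₁.range.index : ℝ) * (L ^ 2 * m (fun z => ‖h z‖ ^ 2)) := by
      have h6 : (M (fun κ => ‖Q c (π₁ κ)‖)) ^ 2 ≤ M (fun κ => ‖Q c (π₁ κ)‖ ^ 2) := by
        simpa [hM.one] using h1
      refine h6.trans (h2.trans ?_)
      gcongr
      exact h3.trans (by gcongr)
    have h7 : M (fun κ => ‖Q c (π₁ κ)‖) ≤
        Real.sqrt ((π₁.range.index : ℝ) * (L ^ 2 * m (fun z => ‖h z‖ ^ 2))) :=
      Real.le_sqrt_of_sq_le h5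
    refine h7.trans_eq ?_
    rw [Real.sqrt_mul (Nat.cast_nonneg _), Real.sqrt_mul (sq_nonneg L), Real.sqrt_sq hL, mul_assoc]
  refine (Finset.sum_le_sum (fun c _ => hterm c)).trans_eq ?_
  rw [Finset.sum_const, Finset.card_univ, nsmul_eq_mul, hcard]
  ring

end Q136.BM
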