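import Pool.Agent.Q136.BM.PDChar

/-!
# The inverse theorem
-/

namespace Q136.BM

open scoped ComplexConjugate BigOperators

universe u

lemma circle_inv_conj (z : Circle) : conj (((z⁻¹ : Circle)) : ℂ) = (z : ℂ) := by
  rw [Circle.coe_inv_eq_conj, Complex.conj_conj]

theorem inv_thm (hE : S_E.{u}) (hp : S_pdb.{u}) (hsch : S_schur.{u}) (hauto : S_auto.{u})
    (h2 : S_pdm2.{u}) (hmax : S_max.{u}) : S_inv.{u} := by
  intro G _ m M hm he hM h w hh hw L hL hχ
  obtain ⟨C, hC⟩ := hh
  obtain ⟨W, hW⟩ := hw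
  have hh : BdC h := ⟨C, hC⟩
  have hw : BdC w := ⟨W, hW⟩
  have hC0 : 0 ≤ C := (norm_nonneg _).trans (hC 0)
  have hW0 : 0 ≤ W := (norm_nonneg _).trans (hW 0)
  set q : G → ℂ := fun k => mC m (fun z => h (z + k) * conj (w z)) with hq
  have hqt : ∀ k z, ‖h (z + k) * conj (w z)‖ ≤ C * W := by
    intro k z
    rw [norm_mul, RCLike.norm_conj]
    exact mul_le_mul (hC _) (hW _) (norm_nonneg _) hC0
  have hqb' : ∀ k, ‖q k‖ ≤ C * W := fun k =>
    (norm_mC_le hm.toIsPos ⟨_, hqt k⟩).trans
      (hm.toIsMean.le_of_le (BdC.norm ⟨_, hqt k⟩) (hqt k))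
  have hqb : BdC q := ⟨_, hqb'⟩
  have hCW : 0 ≤ C * W := mul_nonneg hC0 hW0
  set X : ℝ := M (fun k => ‖q k‖ ^ 2) with hX
  have hX0 : 0 ≤ X := hM.nonneg _ hqb.normSq (fun k => by positivity)
  set V : ℝ := m (fun z => ‖w z‖ ^ 2) with hV
  have hV0 : 0 ≤ V := hm.nonneg _ hw.normSq (fun k => by positivity)
  set B : G → ℂ := fun k => mC m (fun z => h (z + k) * conj (h z)) with hB
  have hBt : ∀ k z, ‖h (z + k) * conj (h z)‖ ≤ C * C := by
    intro k z
    rw [norm_mul, RCLike.norm_conj]
    exact mul_le_mul (hC _) (hC _) (norm_nonneg _) hC0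
  have hBb : BdC B := ⟨C * C, fun k => (norm_mC_le hm.toIsPos ⟨_, hBt k⟩).trans
      (hm.toIsMean.le_of_le (BdC.norm ⟨_, hBt k⟩) (hBt k))⟩
  -- the autocorrelation of `conj q`
  set F : G → ℂ := fun j => mC M (fun k => (fun t => conj (q t)) (k + j) *
    conj ((fun t => conj (q t)) k)) with hF
  have hFPD : PD F := hauto G M hM (fun t => conj (q t)) hqb.conj
  have hF' : ∀ j, F j = mC M (fun k => conj (q (k + j)) * q k) := by
    intro j
    rw [hF]
    simp only [Complex.conj_conj]
  have hF0 : F 0 = (X : ℂ) := by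
    rw [hF', hX, ← mC_real hM.toIsPos]
    congr 1
    funext k
    rw [add_zero, Complex.conj_mul', Complex.ofReal_pow]
  have hFs : ∀ a b : G, mC M (fun k => conj (q (k + a)) * q (k + b)) = F (a - b) := by
    intro a b
    rw [hF', ← mC_inv hM (f := fun k => conj (q (k + (a - b))) * q k)
      ((hqb.comp (fun k => k + (a - b))).conj.mul hqb) b]
    congr 1
    funext k
    have : k + b + (a - b) = k + a := by abel
    rw [this]
  have hBs : ∀ a b : G, mC m (fun z => h (z + a) * conj (h (z + b))) = B (a - b) := by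
    intro a b
    rw [hB]
    simp only
    rw [← mC_inv hm (f := fun z => h (z + (a - b)) * conj (h z)) ⟨_, hBt _⟩ b]
    congr 1
    funext z
    have : z + b + (a - b) = z + a := by abel
    rw [this]
  -- the finite estimate
  have key : ∀ (n : ℕ) (x : Fin n → G), 0 < n →
      X ^ 2 ≤ V * ((∑ i, ∑ j, F (x i - x j) * B (x i - x j)).re / (n : ℝ) ^ 2) := by
    intro n x hn
    have hn' : (n : ℂ) ≠ 0 := by exact_mod_cast hn.ne'
    have hPM : IsInvMean (pm M m) := hM.pm hm
    set A : G × G → ℂ := fun p => (1 / (n : ℂ)) * ∑ i, conj (q (p.1 + x i)) * h (p.2 + (p.1 + x i))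
      with hA
    have hAt : ∀ i, ∀ p : G × G, ‖conj (q (p.1 + x i)) * h (p.2 + (p.1 + x i))‖ ≤ C * W * C := by
      intro i p
      rw [norm_mul, RCLike.norm_conj]
      exact mul_le_mul (hqb' _) (hC _) (norm_nonneg _) hCW
    have hAb : BdC A := BdC.smul _ (BdC.sum Finset.univ (fun i _ => ⟨_, hAt i⟩))
    have hwp : BdC (fun p : G × G => w p.2) := ⟨W, fun p => hW _⟩
    have e1 : (X : ℂ) = mC (pm M m) (fun p => A p * conj (w p.2)) := by
      have e2 : (fun p : G × G => A p * conj (w p.2)) =
          fun p => (1 / (n : ℂ)) * ∑ i, conj (q (p.1 + x i)) *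
            (h (p.2 + (p.1 + x i)) * conj (w p.2)) := by
        funext p
        rw [hA]
        simp only
        rw [mul_assoc, Finset.sum_mul]
        congr 1
        exact Finset.sum_congr rfl (fun i _ => by ring)
      have hb3 : ∀ i, BdC (fun p : G × G => conj (q (p.1 + x i)) *
            (h (p.2 + (p.1 + x i)) * conj (w p.2))) := fun i =>
        (hqb.comp (fun p : G × G => p.1 + x i)).conj.mul
          ((hh.comp (fun p : G × G => p.2 + (p.1 + x i))).mul hwp.conj)
      rw [e2, mC_smul hPM.toIsPos _ (BdC.sum Finset.univ (fun i _ => hb3 i)),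
        mC_sum hPM.toIsPos Finset.univ (fun i _ => hb3 i)]
      have e3 : ∀ i, mC (pm M m) (fun p : G × G => conj (q (p.1 + x i)) *
            (h (p.2 + (p.1 + x i)) * conj (w p.2))) = (X : ℂ) := fun i => by
        rw [mC_pm]
        have e4 : (fun y => mC m (fun z => conj (q (y + x i)) *
            (h (z + (y + x i)) * conj (w z)))) = fun y => (fun k => ((‖q k‖ ^ 2 : ℝ) : ℂ)) (y + x i) := by
          funext y
          rw [mC_smul hm.toIsPos _ ⟨_, hqt (y + x i)⟩]
          show conj (q (y + x i)) * q (y + x i) = ((‖q (y + x i)‖ ^ 2 : ℝ) : ℂ)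
          rw [Complex.conj_mul', Complex.ofReal_pow]
        show mC M (fun y => mC m (fun z => conj (q (y + x i)) *
            (h (z + (y + x i)) * conj (w z)))) = (X : ℂ)
        rw [e4, mC_inv hM (Bd.toC hqb.normSq), mC_real hM.toIsPos]
      rw [Finset.sum_congr rfl (fun i _ => e3 i), Finset.sum_const, Finset.card_univ,
        Fintype.card_fin, nsmul_eq_mul]
      field_simp
    have hcs := cs_mC hPM.toIsPos hAb hwp
    rw [← e1, Complex.norm_real, Real.norm_eq_abs, sq_abs] at hcs
    have h4 : pm M m (fun p : G × G => ‖w p.2‖ ^ 2) = V := by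
      show M (fun _ => m (fun z => ‖w z‖ ^ 2)) = V
      rw [hM.toIsMean.const]
    have h5 : pm M m (fun p => ‖A p‖ ^ 2) =
        (∑ i, ∑ j, F (x i - x j) * B (x i - x j)).re / (n : ℝ) ^ 2 := by
      have e4 : (fun p : G × G => ((‖A p‖ ^ 2 : ℝ) : ℂ)) = fun p =>
          (1 / (n : ℂ) ^ 2) * ∑ i, ∑ j, (conj (q (p.1 + x i)) * h (p.2 + (p.1 + x i))) *
            conj (conj (q (p.1 + x j)) * h (p.2 + (p.1 + x j))) := by
        funext p
        rw [Complex.ofReal_pow, ← Complex.mul_conj', hA]
        simp only [map_mul, map_sum, map_div₀, map_one, Complex.conj_natCast]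
        rw [← Finset.sum_mul_sum]
        ring
      have hb4 : ∀ i j, BdC (fun p : G × G => (conj (q (p.1 + x i)) * h (p.2 + (p.1 + x i))) *
            conj (conj (q (p.1 + x j)) * h (p.2 + (p.1 + x j)))) :=
        fun i j => BdC.mul ⟨_, hAt i⟩ (BdC.conj ⟨_, hAt j⟩)
      have e5 : ((pm M m (fun p => ‖A p‖ ^ 2) : ℝ) : ℂ) =
          (1 / (n : ℂ) ^ 2) * ∑ i, ∑ j, F (x i - x j) * B (x i - x j) := by
        rw [← mC_real hPM.toIsPos, e4, mC_smul hPM.toIsPos _
          (BdC.sum _ (fun i _ => BdC.sum _ (fun j _ => hb4 i j))),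
          mC_sum hPM.toIsPos _ (fun i _ => BdC.sum _ (fun j _ => hb4 i j))]
        congr 1
        refine Finset.sum_congr rfl (fun i _ => ?_)
        rw [mC_sum hPM.toIsPos _ (fun j _ => hb4 i j)]
        refine Finset.sum_congr rfl (fun j _ => ?_)
        rw [mC_pm]
        have e6 : (fun y => mC m (fun z => (conj (q (y + x i)) * h (z + (y + x i))) *
            conj (conj (q (y + x j)) * h (z + (y + x j))))) =
            fun y => B (x i - x j) * (conj (q (y + x i)) * q (y + x j)) := by
          funext y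
          have e7 : (fun z => (conj (q (y + x i)) * h (z + (y + x i))) *
            conj (conj (q (y + x j)) * h (z + (y + x j)))) = fun z =>
            (conj (q (y + x i)) * q (y + x j)) * (h (z + (y + x i)) * conj (h (z + (y + x j)))) := by
            funext z
            simp only [map_mul, Complex.conj_conj]
            ring
          rw [e7, mC_smul hm.toIsPos _ ((hh.comp (fun z => z + (y + x i))).mul
            (hh.comp (fun z => z + (y + x j))).conj), hBs]
          have : y + x i - (y + x j) = x i - x j := by abel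
          rw [this]
          ring
        show mC M (fun y => mC m (fun z => (conj (q (y + x i)) * h (z + (y + x i))) *
            conj (conj (q (y + x j)) * h (z + (y + x j))))) = _
        rw [e6, mC_smul hM.toIsPos _ ((hqb.comp (fun y => y + x i)).conj.mul
          (hqb.comp (fun y => y + x j))), hFs]
        ring
      have e6 := congrArg Complex.re e5
      rw [Complex.ofReal_re] at e6
      rw [e6]
      have e7 : (1 / (n : ℂ) ^ 2) = (((1 / (n : ℝ) ^ 2) : ℝ) : ℂ) := by push_cast; rfl
      rw [e7, Complex.re_ofReal_mul]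
      ring
    rw [h4, h5] at hcs
    linarith [hcs, mul_comm V ((∑ i, ∑ j, F (x i - x j) * B (x i - x j)).re / (n : ℝ) ^ 2)]
  -- the conclusion
  have hFB : ∀ F' : G → ℂ, PD F' → PD (fun k => F' k * B k) := fun F' hF' =>
    hsch G m hm F' h hF' hh
  have hFb : BdC F := ⟨_, (hp G F hFPD).2.1⟩
  have hmu : (mC M (fun k => F k * B k)).re ≤ X * L ^ 2 := by
    rcases hX0.eq_or_lt with h0 | h0
    · have hz : ∀ k, F k = 0 := by
        intro k
        have h3 := (hp G F hFPD).2.1 k
        rw [hF0, Complex.ofReal_re, ← h0] at h3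
        exact norm_le_zero_iff.mp h3
      have e : (fun k => F k * B k) = fun _ => 0 := by
        funext k
        rw [hz, zero_mul]
      rw [e, mC_zero hM.toIsPos, ← h0]
      simp
    · obtain ⟨χ, h3⟩ := hmax G M hM B hBb hFB (fun k => ((1 / X : ℝ) : ℂ) * F k)
        (PD_smul hFPD (by positivity)) (by
          rw [hF0, ← Complex.ofReal_mul, one_div_mul_cancel h0.ne', Complex.ofReal_one])
      have e1 : (mC M (fun k => ((1 / X : ℝ) : ℂ) * F k * B k)).re =
          (1 / X) * (mC M (fun k => F k * B k)).re := by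
        have : (fun k => ((1 / X : ℝ) : ℂ) * F k * B k) =
            fun k => ((1 / X : ℝ) : ℂ) * (F k * B k) := by funext k; ring
        rw [this, mC_smul hM.toIsPos _ (hFb.mul hBb), Complex.re_ofReal_mul]
      have e2 : mC M (fun k => ((χ k : Circle) : ℂ) * B k) =
          ((‖mC m (fun z => ((χ z : Circle) : ℂ) * h z)‖ ^ 2 : ℝ) : ℂ) := by
        have h5 := hE G m M hm he hM (fun z => ((χ z : Circle) : ℂ) * h z)
          (fun z => ((χ z : Circle) : ℂ) * h z) ((BdC.circle χ).mul hh) ((BdC.circle χ).mul hh)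
        rw [Complex.ofReal_pow, ← Complex.mul_conj', ← h5]
        congr 1
        funext k
        rw [hB]
        simp only
        rw [← mC_smul hm.toIsPos _ ⟨_, hBt k⟩]
        congr 1
        funext z
        have h6 : ((χ (z + k) : Circle) : ℂ) = (χ z : ℂ) * (χ k : ℂ) := by
          rw [AddChar.map_add_eq_mul, Circle.coe_mul]
        have h7 : ((χ z : Circle) : ℂ) * conj ((χ z : Circle) : ℂ) = 1 := by
          rw [Complex.mul_conj', Circle.norm_coe]; simp
        rw [h6, map_mul]
        calc ((χ k : Circle) : ℂ) * (h (z + k) * conj (h z))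
            = (((χ z : Circle) : ℂ) * conj ((χ z : Circle) : ℂ)) *
              (((χ k : Circle) : ℂ) * (h (z + k) * conj (h z))) := by rw [h7, one_mul]
          _ = _ := by ring
      have h8 : ‖mC m (fun z => ((χ z : Circle) : ℂ) * h z)‖ ≤ L := by
        have h9 := hχ χ⁻¹
        have e3 : (fun z => h z * conj (((χ⁻¹ z : Circle)) : ℂ)) =
            fun z => ((χ z : Circle) : ℂ) * h z := by
          funext z
          have : χ⁻¹ z = (χ z)⁻¹ := by
            rw [AddChar.inv_apply, AddChar.map_neg_eq_inv]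
          rw [this, circle_inv_conj, mul_comm]
        rwa [e3] at h9
      rw [e1, e2, Complex.ofReal_re] at h3
      have h10 : (1 / X) * (mC M (fun k => F k * B k)).re ≤ L ^ 2 :=
        h3.trans (pow_le_pow_left₀ (norm_nonneg _) h8 2)
      rw [div_mul_eq_mul_div, one_mul, div_le_iff₀ h0] at h10
      linarith
  have hfin : X ^ 2 ≤ V * (X * L ^ 2) := by
    refine le_of_forall_pos_le_add (fun ε hε => ?_)
    obtain ⟨n, x, hn, hx⟩ := h2 G M hM (fun k => F k * B k) (hFb.mul hBb)
      (hp G _ (hFB F hFPD)).1 (ε / (V + 1)) (by positivity)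
    refine (key n x hn).trans ?_
    have h11 : (∑ i, ∑ j, F (x i - x j) * B (x i - x j)).re / (n : ℝ) ^ 2 ≤
        X * L ^ 2 + ε / (V + 1) := hx.trans (by linarith)
    calc V * ((∑ i, ∑ j, F (x i - x j) * B (x i - x j)).re / (n : ℝ) ^ 2)
        ≤ V * (X * L ^ 2 + ε / (V + 1)) := mul_le_mul_of_nonneg_left h11 hV0
      _ = V * (X * L ^ 2) + (V / (V + 1)) * ε := by ring
      _ ≤ V * (X * L ^ 2) + 1 * ε := by
          gcongr
          rw [div_le_one (by positivity)]
          linarith
      _ = V * (X * L ^ 2) + ε := by ring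
  rcases hX0.eq_or_lt with h0 | h0
  · rw [← h0]; positivity
  · nlinarith

end Q136.BM
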