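import Pool.Agent.Q136.BM.Stm

/-!
# The maximum principle
-/

namespace Q136.BM

open scoped ComplexConjugate BigOperators

universe u

section

variable {G : Type u} [AddCommGroup G]

/-- the quadratic form -/
noncomputable def QF (B : G → ℂ) {n : ℕ} (x : Fin n → G) (F : G → ℂ) : ℝ :=
  (∑ i, ∑ j, F (x i - x j) * B (x i - x j)).re / (n : ℝ) ^ 2

lemma QF_cont (B : G → ℂ) {n : ℕ} (x : Fin n → G) : Continuous (QF B x) := by
  unfold QF
  have h : Continuous (fun F : G → ℂ => (∑ i, ∑ j, F (x i - x j) * B (x i - x j))) :=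
    continuous_finsetSum _ (fun i _ => continuous_finsetSum _ (fun j _ =>
      (continuous_apply (x i - x j)).mul continuous_const))
  exact (Complex.continuous_re.comp h).div_const _

lemma PD_closed : IsClosed {F : G → ℂ | PD F} := by
  have e : {F : G → ℂ | PD F} = ⋂ (n : ℕ), ⋂ (x : Fin n → G), ⋂ (c : Fin n → ℂ),
      {F : G → ℂ | 0 ≤ (∑ i, ∑ j, c i * conj (c j) * F (x i - x j)).re ∧
        (∑ i, ∑ j, c i * conj (c j) * F (x i - x j)).im = 0} := by
    ext F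
    simp only [Set.mem_iInter]
    rfl
  rw [e]
  refine isClosed_iInter (fun n => isClosed_iInter (fun x => isClosed_iInter (fun c => ?_)))
  have h : Continuous (fun F : G → ℂ => (∑ i, ∑ j, c i * conj (c j) * F (x i - x j))) :=
    continuous_finsetSum _ (fun i _ => continuous_finsetSum _ (fun j _ =>
      continuous_const.mul (continuous_apply (x i - x j))))
  exact (isClosed_le continuous_const (Complex.continuous_re.comp h)).inter
    (isClosed_eq (Complex.continuous_im.comp h) continuous_const)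

lemma P1_compact (hp : S_pdb.{u}) : IsCompact {F : G → ℂ | PD F ∧ F 0 = 1} := by
  have hK : IsCompact (Set.pi Set.univ (fun _ : G => Metric.closedBall (0 : ℂ) 1)) :=
    isCompact_univ_pi (fun _ => isCompact_closedBall 0 1)
  refine hK.of_isClosed_subset (PD_closed.inter (isClosed_eq (continuous_apply 0)
    continuous_const)) ?_
  rintro F ⟨hF, hF0⟩
  intro x _
  rw [mem_closedBall_zero_iff]
  have := (hp G F hF).2.1 x
  rwa [hF0, Complex.one_re] at this

end

theorem max_char (hp : S_pdb.{u}) (h1 : S_pdm1.{u}) (h2 : S_pdm2.{u}) (hc : S_pdchar.{u}) :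
    S_max.{u} := by
  intro G _ M hM B hB hFB F hF hF0
  obtain ⟨C, hC⟩ := hB
  have hC0 : 0 ≤ C := (norm_nonneg _).trans (hC 0)
  set P : Set (G → ℂ) := {F : G → ℂ | PD F ∧ F 0 = 1} with hP
  set Φ : (G → ℂ) → ℝ := fun F => (mC M (fun k => F k * B k)).re with hΦ
  have hFb : ∀ F ∈ P, ∀ x, ‖F x‖ ≤ 1 := by
    rintro F ⟨hF, hF0⟩ x
    have := (hp G F hF).2.1 x
    rwa [hF0, Complex.one_re] at this
  have hb : ∀ F ∈ P, ∀ x, ‖F x * B x‖ ≤ C := by
    intro F hF x
    rw [norm_mul]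
    calc ‖F x‖ * ‖B x‖ ≤ 1 * C := mul_le_mul (hFb F hF x) (hC x) (norm_nonneg _) zero_le_one
      _ = C := one_mul C
  have hΦb : ∀ F ∈ P, Φ F ≤ C := by
    intro F hF
    refine (Complex.re_le_norm _).trans ?_
    exact (norm_mC_le hM.toIsPos ⟨C, hb F hF⟩).trans
      (hM.toIsMean.le_of_le (BdC.norm ⟨C, hb F hF⟩) (hb F hF))
  have hle : ∀ F ∈ P, ∀ (n : ℕ) (x : Fin n → G), 0 < n → Φ F ≤ QF B x F := by
    intro F hF n x hn
    exact h1 G M hM _ (hFB F hF.1) n x hn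
  have hge : ∀ F ∈ P, ∀ ε : ℝ, 0 < ε → ∃ (n : ℕ) (x : Fin n → G), 0 < n ∧ QF B x F ≤ Φ F + ε := by
    intro F hF ε hε
    exact h2 G M hM _ ⟨C, hb F hF⟩ (hp G _ (hFB F hF.1)).1 ε hε
  have hFP : F ∈ P := ⟨hF, hF0⟩
  set s : ℝ := sSup (Φ '' P) with hs
  have hbdd : BddAbove (Φ '' P) := ⟨C, by rintro _ ⟨F, hF, rfl⟩; exact hΦb F hF⟩
  have hne : (Φ '' P).Nonempty := ⟨_, F, hFP, rfl⟩
  have hs1 : ∀ F ∈ P, Φ F ≤ s := fun F hF => le_csSup hbdd ⟨F, hF, rfl⟩
  -- the sets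
  set S : ℝ → Set (G → ℂ) := fun r => {F | F ∈ P ∧ ∀ (n : ℕ) (x : Fin n → G), 0 < n →
    r ≤ QF B x F} with hS
  have hScl : ∀ r, IsClosed (S r) := by
    intro r
    have e : S r = P ∩ ⋂ (n : ℕ), ⋂ (x : Fin n → G), ⋂ (_ : 0 < n), {F | r ≤ QF B x F} := by
      ext F
      simp only [hS, Set.mem_inter_iff, Set.mem_iInter]
      rfl
    rw [e]
    refine (P1_compact hp).isClosed.inter ?_
    exact isClosed_iInter (fun n => isClosed_iInter (fun x => isClosed_iInter (fun _ =>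
      isClosed_le continuous_const (QF_cont B x))))
  have hSc : ∀ r, IsCompact (S r) := fun r =>
    (P1_compact hp).of_isClosed_subset (hScl r) (fun F hF => hF.1)
  have hSn : ∀ k : ℕ, (S (s - 1 / ((k : ℝ) + 1))).Nonempty := by
    intro k
    have hk : s - 1 / ((k : ℝ) + 1) < s := by
      have : (0 : ℝ) < 1 / ((k : ℝ) + 1) := by positivity
      linarith
    obtain ⟨_, ⟨F', hF', rfl⟩, h3⟩ := exists_lt_of_lt_csSup hne hk
    exact ⟨F', hF', fun n x hn => h3.le.trans (hle F' hF' n x hn)⟩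
  have hmono : ∀ k : ℕ, S (s - 1 / (((k + 1 : ℕ) : ℝ) + 1)) ⊆ S (s - 1 / ((k : ℝ) + 1)) := by
    intro k F' hF'
    refine ⟨hF'.1, fun n x hn => le_trans ?_ (hF'.2 n x hn)⟩
    have : 1 / (((k + 1 : ℕ) : ℝ) + 1) ≤ 1 / ((k : ℝ) + 1) := by
      apply one_div_le_one_div_of_le (by positivity)
      push_cast
      linarith
    linarith
  obtain ⟨E₀, hE₀⟩ := IsCompact.nonempty_iInter_of_sequence_nonempty_isCompact_isClosed
    (fun k : ℕ => S (s - 1 / ((k : ℝ) + 1))) hmono hSn (hSc _) (fun k => hScl _)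
  have hTne : (S s).Nonempty := by
    refine ⟨E₀, (Set.mem_iInter.mp hE₀ 0).1, fun n x hn => ?_⟩
    refine le_of_forall_pos_le_add (fun ε hε => ?_)
    obtain ⟨k, hk⟩ := exists_nat_one_div_lt hε
    have := (Set.mem_iInter.mp hE₀ k).2 n x hn
    linarith
  -- points of `S s` have `Φ = s`
  have hT : ∀ F' ∈ S s, s ≤ Φ F' := by
    intro F' hF'
    refine le_of_forall_pos_le_add (fun ε hε => ?_)
    obtain ⟨n, x, hn, hx⟩ := hge F' hF'.1 ε hε
    exact (hF'.2 n x hn).trans hx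
  -- `Φ` is affine
  have haff : ∀ F₁ ∈ P, ∀ F₂ ∈ P, ∀ a b : ℝ, Φ (a • F₁ + b • F₂) = a * Φ F₁ + b * Φ F₂ := by
    intro F₁ hF₁ F₂ hF₂ a b
    have e : (fun k => (a • F₁ + b • F₂) k * B k) =
        fun k => (a : ℂ) * (F₁ k * B k) + (b : ℂ) * (F₂ k * B k) := by
      funext k
      simp only [Pi.add_apply, Pi.smul_apply, Complex.real_smul]
      ring
    have b1 : BdC (fun k => F₁ k * B k) := ⟨C, hb F₁ hF₁⟩
    have b2 : BdC (fun k => F₂ k * B k) := ⟨C, hb F₂ hF₂⟩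
    simp only [hΦ]
    rw [e, mC_add hM.toIsPos (b1.smul _) (b2.smul _), mC_smul hM.toIsPos _ b1,
      mC_smul hM.toIsPos _ b2, Complex.add_re, Complex.re_ofReal_mul, Complex.re_ofReal_mul]
  have hext : IsExtreme ℝ P (S s) := by
    refine ⟨fun F' hF' => hF'.1, ?_⟩
    rintro F₁ hF₁ F₂ hF₂ F' hF' ⟨a, b, ha, hb', hab, hF''⟩
    have h3 := hT F' hF'
    rw [← hF'', haff F₁ hF₁ F₂ hF₂] at h3
    have h4 := hs1 F₁ hF₁
    have h5 := hs1 F₂ hF₂
    have h6 : s ≤ Φ F₁ := by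
      by_contra hcon
      push Not at hcon
      have h7 := mul_lt_mul_of_pos_left hcon ha
      have h8 := mul_le_mul_of_nonneg_left h5 hb'.le
      have h9 : a * s + b * s = s := by rw [← add_mul, hab, one_mul]
      linarith
    exact ⟨hF₁, fun n x hn => h6.trans (hle F₁ hF₁ n x hn)⟩
  obtain ⟨E, hE⟩ := (hSc s).extremePoints_nonempty hTne
  have hE' := hext.extremePoints_subset_extremePoints hE
  obtain ⟨χ, hχ⟩ := hc G E hE'
  refine ⟨χ, ?_⟩
  have h7 := hs1 F hFP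
  have h8 := hT E hE.1
  have e9 : (fun k => ((χ k : Circle) : ℂ) * B k) = fun k => E k * B k := by
    funext k
    rw [hχ]
  rw [e9]
  exact h7.trans h8

end Q136.BM
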