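import Pool.Agent.Q136.BM.Stm

/-!
# Positive definite functions
-/

namespace Q136.BM

open scoped ComplexConjugate BigOperators

universe u

lemma quad_real {z : ℂ} (h : 0 ≤ z.re ∧ z.im = 0) : z = (z.re : ℂ) := by
  apply Complex.ext <;> simp [h.2]

theorem pdb : S_pdb.{u} := by
  intro G _ F hF
  have h0 : 0 ≤ (F 0).re ∧ (F 0).im = 0 := by
    have := hF 1 (fun _ => 0) (fun _ => 1)
    simpa using this
  have h2 : ∀ (x : G) (c : ℂ), 0 ≤ (F 0 + c * conj c * F 0 + c * F x + conj c * F (-x)).re ∧
      (F 0 + c * conj c * F 0 + c * F x + conj c * F (-x)).im = 0 := by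
    intro x c
    have := hF 2 ![x, 0] ![c, 1]
    simp only [Fin.sum_univ_two, Matrix.cons_val_zero, Matrix.cons_val_one, map_one, mul_one,
      one_mul, sub_self, sub_zero, zero_sub] at this
    have e : c * conj c * F 0 + c * F x + (conj c * F (-x) + F 0) =
        F 0 + c * conj c * F 0 + c * F x + conj c * F (-x) := by ring
    rwa [e] at this
  have hre : ((F 0).re : ℂ) = F 0 := (quad_real h0).symm
  have him1 : ∀ x, (F x).im + (F (-x)).im = 0 := by
    intro x
    have := (h2 x 1).2
    simp [h0.2] at this
    linarith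
  have him2 : ∀ x, (F x).re - (F (-x)).re = 0 := by
    intro x
    have := (h2 x Complex.I).2
    simp [h0.2] at this
    linarith
  have hherm : ∀ x, F (-x) = conj (F x) := by
    intro x
    apply Complex.ext
    · rw [Complex.conj_re]; linarith [him2 x]
    · rw [Complex.conj_im]; linarith [him1 x]
  refine ⟨hherm, fun x => ?_, h0.2⟩
  by_cases hx : F x = 0
  · rw [hx, norm_zero]; exact h0.1
  · -- `c = - conj (F x) / |F x|`
    set c : ℂ := - conj (F x) / ‖F x‖ with hc
    have hn : (‖F x‖ : ℂ) ≠ 0 := by
      rw [Ne, Complex.ofReal_eq_zero, norm_eq_zero]; exact hx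
    have h3 : c * F x = -(‖F x‖ : ℂ) := by
      rw [hc, div_mul_eq_mul_div, neg_mul, Complex.conj_mul']
      field_simp
    have h4 : c * conj c = 1 := by
      rw [Complex.mul_conj', hc, norm_div, norm_neg, RCLike.norm_conj, Complex.norm_real, norm_norm,
        div_self (norm_ne_zero_iff.mpr hx)]
      simp
    have h5 : conj c * F (-x) = -(‖F x‖ : ℂ) := by
      rw [hherm x, ← map_mul, h3, map_neg, Complex.conj_ofReal]
    have := (h2 x c).1
    rw [h4, h3, h5] at this
    simp at this
    linarith

theorem schur : S_schur.{u} := by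
  intro G _ m hm F h hF hh n x c
  have hb : ∀ i j, BdC (fun z => h (z + x i) * conj (h (z + x j))) := fun i j =>
    (hh.comp (fun z => z + x i)).mul (hh.comp (fun z => z + x j)).conj
  have e1 : ∀ i j, mC m (fun z => h (z + (x i - x j)) * conj (h z)) =
      mC m (fun z => h (z + x i) * conj (h (z + x j))) := by
    intro i j
    rw [← mC_inv hm (f := fun z => h (z + (x i - x j)) * conj (h z))
      ((hh.comp (fun z => z + (x i - x j))).mul hh.conj) (x j)]
    congr 1
    funext z
    have : z + x j + (x i - x j) = z + x i := by abel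
    rw [this]
  have e2 : (∑ i, ∑ j, c i * conj (c j) * (F (x i - x j) *
      mC m (fun z => h (z + (x i - x j)) * conj (h z)))) =
      mC m (fun z => ∑ i, ∑ j, (c i * h (z + x i)) * conj (c j * h (z + x j)) *
        F (x i - x j)) := by
    have hb2 : ∀ i j, BdC (fun z => (c i * h (z + x i)) * conj (c j * h (z + x j)) *
        F (x i - x j)) := by
      intro i j
      have := (hb i j).smul (c i * conj (c j) * F (x i - x j))
      refine ⟨this.choose, fun z => ?_⟩
      convert this.choose_spec z using 2
      simp only [map_mul]; ring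
    rw [mC_sum hm.toIsPos _ (fun i _ => BdC.sum _ (fun j _ => hb2 i j))]
    refine Finset.sum_congr rfl (fun i _ => ?_)
    rw [mC_sum hm.toIsPos _ (fun j _ => hb2 i j)]
    refine Finset.sum_congr rfl (fun j _ => ?_)
    rw [e1, ← mul_assoc, ← mC_smul hm.toIsPos _ (hb i j)]
    congr 1
    funext z
    rw [map_mul]; ring
  rw [e2]
  have hp := fun z => hF n x (fun i => c i * h (z + x i))
  have hb3 : BdC (fun z => ∑ i, ∑ j, (c i * h (z + x i)) * conj (c j * h (z + x j)) *
      F (x i - x j)) := by
    refine BdC.sum _ (fun i _ => BdC.sum _ (fun j _ => ?_))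
    have := (hb i j).smul (c i * conj (c j) * F (x i - x j))
    refine ⟨this.choose, fun z => ?_⟩
    convert this.choose_spec z using 2
    simp only [map_mul]; ring
  constructor
  · rw [mC_re]
    exact hm.nonneg _ hb3.re (fun z => (hp z).1)
  · rw [mC_im]
    have : (fun z => (∑ i, ∑ j, (c i * h (z + x i)) * conj (c j * h (z + x j)) *
      F (x i - x j)).im) = fun _ => 0 := by
      funext z
      exact (hp z).2
    rw [this, hm.toIsPos.zero]

lemma PD_one {G : Type u} [AddCommGroup G] : PD (fun _ : G => (1 : ℂ)) := by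
  intro n x c
  have e : (∑ i, ∑ j, c i * conj (c j) * (1 : ℂ)) = (‖∑ i, c i‖ ^ 2 : ℝ) := by
    rw [Complex.ofReal_pow, ← Complex.mul_conj', map_sum, Finset.sum_mul_sum]
    simp
  rw [e]
  constructor
  · rw [Complex.ofReal_re]; positivity
  · rw [Complex.ofReal_im]

theorem auto : S_auto.{u} := by
  intro G _ m hm h hh
  have := schur G m hm (fun _ => 1) h PD_one hh
  simpa using this

end Q136.BM
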