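import Pool.Agent.Q136.BM.Stm

/-!
# Extreme positive definite functions are characters
-/

namespace Q136.BM

open scoped ComplexConjugate BigOperators

universe u

section

variable {G : Type u} [AddCommGroup G]

/-- the modified function -/
noncomputable def DD (F : G → ℂ) (a : G) (c : ℂ) (x : G) : ℂ :=
  2 * F x + c * F (x + a) + conj c * F (x - a)

lemma DD_PD {F : G → ℂ} (hF : PD F) (a : G) {c : ℂ} (hc : c * conj c = 1) : PD (DD F a c) := by
  intro n x d
  have h := hF (n + n) (Fin.append (fun i => x i + a) x)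
    (Fin.append (fun i => c * d i) d)
  simp only [Fin.sum_univ_add, Fin.append_left, Fin.append_right, map_mul] at h
  have e : ∑ i, ∑ j, d i * conj (d j) * DD F a c (x i - x j) =
      ∑ i, (∑ j, c * d i * (conj c * conj (d j)) * F (x i + a - (x j + a)) +
        ∑ j, c * d i * conj (d j) * F (x i + a - x j)) +
      ∑ i, (∑ j, d i * (conj c * conj (d j)) * F (x i - (x j + a)) +
        ∑ j, d i * conj (d j) * F (x i - x j)) := by
    rw [← Finset.sum_add_distrib]
    refine Finset.sum_congr rfl (fun i _ => ?_)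
    rw [← Finset.sum_add_distrib, ← Finset.sum_add_distrib, ← Finset.sum_add_distrib]
    refine Finset.sum_congr rfl (fun j _ => ?_)
    have e1 : x i + a - (x j + a) = x i - x j := by abel
    have e2 : x i + a - x j = x i - x j + a := by abel
    have e3 : x i - (x j + a) = x i - x j - a := by abel
    rw [e1, e2, e3]
    have e4 : c * d i * (conj c * conj (d j)) = d i * conj (d j) := by
      calc c * d i * (conj c * conj (d j)) = (c * conj c) * (d i * conj (d j)) := by ring
        _ = d i * conj (d j) := by rw [hc, one_mul]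
    rw [e4]
    unfold DD
    ring
  rw [e]
  exact h

lemma PD_smul {F : G → ℂ} (hF : PD F) {r : ℝ} (hr : 0 ≤ r) : PD (fun x => (r : ℂ) * F x) := by
  intro n x d
  have e : ∑ i, ∑ j, d i * conj (d j) * ((r : ℂ) * F (x i - x j)) =
      (r : ℂ) * ∑ i, ∑ j, d i * conj (d j) * F (x i - x j) := by
    rw [Finset.mul_sum]
    refine Finset.sum_congr rfl (fun i _ => ?_)
    rw [Finset.mul_sum]
    refine Finset.sum_congr rfl (fun j _ => ?_)
    ring
  have h := hF n x d
  rw [e, Complex.re_ofReal_mul, Complex.im_ofReal_mul, h.2, mul_zero]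
  exact ⟨mul_nonneg hr h.1, rfl⟩

lemma DD_eq (hp : S_pdb.{u}) {F : G → ℂ}
    (hF : F ∈ Set.extremePoints ℝ {F : G → ℂ | PD F ∧ F 0 = 1}) (a : G) {c : ℂ}
    (hc : c * conj c = 1) : ∀ x, DD F a c x = DD F a c 0 * F x := by
  have hPD : PD F := hF.1.1
  have hF0 : F 0 = 1 := hF.1.2
  have h1 := DD_PD hPD a hc
  have hc' : (-c) * conj (-c) = 1 := by rw [map_neg]; linear_combination hc
  have h2 := DD_PD hPD a hc'
  obtain ⟨-, hb1, hi1⟩ := hp G _ h1
  obtain ⟨-, hb2, hi2⟩ := hp G _ h2
  set s : ℝ := (DD F a c 0).re with hs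
  set t : ℝ := (DD F a (-c) 0).re with ht
  have hs' : DD F a c 0 = (s : ℂ) := by apply Complex.ext <;> simp [hs, hi1]
  have ht' : DD F a (-c) 0 = (t : ℂ) := by apply Complex.ext <;> simp [ht, hi2]
  have hs0 : 0 ≤ s := (norm_nonneg _).trans (hb1 0)
  have ht0 : 0 ≤ t := (norm_nonneg _).trans (hb2 0)
  have hsum : ∀ x, DD F a c x + DD F a (-c) x = 4 * F x := by
    intro x
    unfold DD
    rw [map_neg]
    ring
  have hst : s + t = 4 := by
    have := hsum 0
    rw [hs', ht', hF0] at this
    have h3 := congrArg Complex.re this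
    simpa using h3
  intro x
  rw [hs']
  rcases hs0.eq_or_lt with h0 | h0
  · -- `s = 0`
    rw [← h0] at hb1
    have : ‖DD F a c x‖ ≤ 0 := hb1 x
    rw [norm_le_zero_iff.mp this, ← h0]
    simp
  · rcases ht0.eq_or_lt with h0' | h0'
    · rw [← h0'] at hb2
      have h4 : DD F a (-c) x = 0 := norm_le_zero_iff.mp (hb2 x)
      have h5 := hsum x
      rw [h4, add_zero] at h5
      have h6 : s = 4 := by linarith
      rw [h5, h6]
      push_cast
      ring
    · -- both positive
      have hA : (fun x => ((1 / s : ℝ) : ℂ) * DD F a c x) ∈ {F : G → ℂ | PD F ∧ F 0 = 1} := by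
        refine ⟨PD_smul h1 (by positivity), ?_⟩
        show ((1 / s : ℝ) : ℂ) * DD F a c 0 = 1
        rw [hs', ← Complex.ofReal_mul, one_div_mul_cancel h0.ne', Complex.ofReal_one]
      have hB : (fun x => ((1 / t : ℝ) : ℂ) * DD F a (-c) x) ∈ {F : G → ℂ | PD F ∧ F 0 = 1} := by
        refine ⟨PD_smul h2 (by positivity), ?_⟩
        show ((1 / t : ℝ) : ℂ) * DD F a (-c) 0 = 1
        rw [ht', ← Complex.ofReal_mul, one_div_mul_cancel h0'.ne', Complex.ofReal_one]
      have hseg : F ∈ openSegment ℝ (fun x => ((1 / s : ℝ) : ℂ) * DD F a c x)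
          (fun x => ((1 / t : ℝ) : ℂ) * DD F a (-c) x) := by
        refine ⟨s / 4, t / 4, by positivity, by positivity, by linarith, ?_⟩
        funext y
        simp only [Pi.add_apply, Pi.smul_apply, Complex.real_smul]
        have h7 := hsum y
        have hsC : (s : ℂ) ≠ 0 := by exact_mod_cast h0.ne'
        have htC : (t : ℂ) ≠ 0 := by exact_mod_cast h0'.ne'
        push_cast
        field_simp
        linear_combination h7
      have h8 := hF.2 hA hB hseg
      have h9 := congrFun h8 x
      rw [← h9]
      push_cast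
      have hsC : (s : ℂ) ≠ 0 := by exact_mod_cast h0.ne'
      field_simp

end

theorem pdchar (hp : S_pdb.{u}) : S_pdchar.{u} := by
  intro G _ F hF
  have hPD : PD F := hF.1.1
  have hF0 : F 0 = 1 := hF.1.2
  obtain ⟨hherm, hb, -⟩ := hp G F hPD
  have hmul : ∀ x a, F (x + a) = F a * F x := by
    intro x a
    have h1 := DD_eq hp hF a (c := 1) (by simp) x
    have h2 := DD_eq hp hF a (c := Complex.I) (by simp) x
    unfold DD at h1 h2
    simp only [map_one, one_mul, Complex.conj_I, zero_add, zero_sub, hF0, mul_one] at h1 h2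
    -- h1 : 2 F x + F (x+a) + F (x-a) = (2 + F a + F (-a)) F x
    have h3 : F (x + a) + F (x - a) = (F a + F (-a)) * F x := by linear_combination h1
    have h4 : F (x + a) - F (x - a) = (F a - F (-a)) * F x := by
      have h5 : Complex.I * (F (x + a) - F (x - a)) = Complex.I * ((F a - F (-a)) * F x) := by
        linear_combination h2
      exact mul_left_cancel₀ Complex.I_ne_zero h5
    linear_combination (h3 + h4) / 2
  have hn : ∀ x, ‖F x‖ = 1 := by
    intro x
    have h1 := hmul x (-x)
    rw [add_neg_cancel, hF0] at h1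
    have h2 := congrArg norm h1
    rw [norm_one, norm_mul] at h2
    have h3 := hb x
    have h4 := hb (-x)
    rw [hF0, Complex.one_re] at h3 h4
    nlinarith [norm_nonneg (F x), norm_nonneg (F (-x))]
  refine ⟨{ toFun := fun x => ⟨F x, by
              exact mem_sphere_zero_iff_norm.mpr (hn x)⟩
            map_zero_eq_one' := ?_
            map_add_eq_mul' := ?_ }, fun x => rfl⟩
  · apply Subtype.ext
    exact hF0
  · intro x y
    apply Subtype.ext
    show F (x + y) = F x * F y
    rw [hmul]
    ring

end Q136.BM
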