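import Pool.Agent.Q136.BM.Stm

/-!
# The mean of a positive definite function
-/

namespace Q136.BM

open scoped ComplexConjugate BigOperators

universe u

section

variable {G : Type u} [AddCommGroup G]

/-- the quadratic form of the uniform weights -/
noncomputable def TQ (D : G → ℂ) {n : ℕ} (x : Fin n → G) : ℝ := ∑ i, ∑ j, (D (x i - x j)).re

lemma TQ_eq (D : G → ℂ) {n : ℕ} (x : Fin n → G) : TQ D x = (∑ i, ∑ j, D (x i - x j)).re := by
  unfold TQ
  rw [Complex.re_sum]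
  exact Finset.sum_congr rfl (fun i _ => by rw [Complex.re_sum])

lemma TQ_snoc {D : G → ℂ} (hD : ∀ x, D (-x) = conj (D x)) {n : ℕ} (x : Fin n → G) (y : G) :
    TQ D (Fin.snoc x y : Fin (n + 1) → G) =
      TQ D x + 2 * ∑ i, (D (y - x i)).re + (D 0).re := by
  unfold TQ
  rw [Fin.sum_univ_castSucc]
  simp only [Fin.snoc_castSucc, Fin.snoc_last, Fin.sum_univ_castSucc, sub_self,
    Finset.sum_add_distrib]
  have e : ∀ i, (D (x i - y)).re = (D (y - x i)).re := by
    intro i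
    rw [← neg_sub, hD, Complex.conj_re]
  rw [Finset.sum_congr rfl (fun i _ => e i)]
  ring

variable {M : (G → ℝ) → ℝ}

lemma mean_shift (hM : IsInvMean M) {D : G → ℂ} (hb : BdC D) (a : G) :
    M (fun y => (D (y - a)).re) = (mC M D).re := by
  have := hM.inv (fun y => (D y).re) (-a) hb.re
  rw [mC_re, ← this]
  simp only [sub_eq_add_neg]

lemma mean_shift' (hM : IsInvMean M) {D : G → ℂ} (hb : BdC D) (hD : ∀ x, D (-x) = conj (D x))
    (a : G) : M (fun y => (D (a - y)).re) = (mC M D).re := by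
  rw [← mean_shift hM hb a]
  congr 1
  funext y
  rw [← neg_sub, hD, Complex.conj_re]

lemma pdm2_aux (hM : IsInvMean M) {D : G → ℂ} (hb : BdC D) (hD : ∀ x, D (-x) = conj (D x))
    {ε : ℝ} (hε : 0 < ε) (n : ℕ) :
    ∃ x : Fin n → G, TQ D x ≤ n * (n - 1) * (mC M D).re + n * ((D 0).re + ε) := by
  induction n with
  | zero => exact ⟨fun i => i.elim0, by simp [TQ]⟩
  | succ n ih =>
    obtain ⟨x, hx⟩ := ih
    have hb1 : ∀ i, Bd (fun y => (D (y - x i)).re) := fun i =>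
      (hb.comp (fun y => y - x i)).re
    have hb2 : Bd (fun y => ∑ i, (D (y - x i)).re) := Bd.sum _ (fun i _ => hb1 i)
    obtain ⟨y, hy⟩ := hM.toIsMean.exists_le hb2 (half_pos hε)
    have hs : M (fun y => ∑ i, (D (y - x i)).re) = n * (mC M D).re := by
      rw [hM.toIsPos.sum _ (fun i _ => hb1 i),
        Finset.sum_congr rfl (fun i _ => mean_shift hM hb (x i)), Finset.sum_const,
        Finset.card_univ, Fintype.card_fin, nsmul_eq_mul]
    rw [hs] at hy
    refine ⟨Fin.snoc x y, ?_⟩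
    rw [TQ_snoc hD]
    push_cast
    nlinarith

end

theorem pdm2 : S_pdm2.{u} := by
  intro G _ M hM D hb hD ε hε
  set μ := (mC M D).re with hμ
  obtain ⟨n, hn⟩ := exists_nat_gt ((|μ| + |(D 0).re| + 1) / ε)
  have hn0 : (0 : ℝ) < n := lt_of_le_of_lt (by positivity) hn
  obtain ⟨x, hx⟩ := pdm2_aux hM hb hD one_pos n
  refine ⟨n, x, by exact_mod_cast hn0, ?_⟩
  rw [← TQ_eq, div_le_iff₀ (by positivity)]
  rw [div_lt_iff₀ hε] at hn
  have h1 := neg_abs_le μ
  have h2 := le_abs_self (D 0).re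
  rw [← hμ] at hx
  nlinarith [mul_pos hn0 hε, mul_le_mul_of_nonneg_left hn.le hn0.le]

section

variable {G : Type u} [AddCommGroup G] {M : (G → ℝ) → ℝ}

/-- the cross term -/
noncomputable def XQ (D : G → ℂ) {n N : ℕ} (x : Fin n → G) (y : Fin N → G) : ℝ :=
  ∑ a, ∑ i, (D (x i - y a)).re

lemma XQ_snoc (D : G → ℂ) {n N : ℕ} (x : Fin n → G) (y : Fin N → G) (z : G) :
    XQ D x (Fin.snoc y z : Fin (N + 1) → G) = XQ D x y + ∑ i, (D (x i - z)).re := by
  unfold XQ
  rw [Fin.sum_univ_castSucc]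
  simp only [Fin.snoc_castSucc, Fin.snoc_last]

lemma pdm1_aux (hM : IsInvMean M) {D : G → ℂ} (hb : BdC D) (hD : ∀ x, D (-x) = conj (D x))
    {n : ℕ} (hn : 0 < n) (x : Fin n → G) {N : ℝ} (hN : 0 < N) {ε : ℝ} (hε : 0 < ε) (a : ℕ) :
    ∃ y : Fin a → G, TQ D y / N ^ 2 - 2 * XQ D x y / (n * N) ≤
      a * (a - 1) * (mC M D).re / N ^ 2 - 2 * a * (mC M D).re / N + a * ((D 0).re / N ^ 2 + ε / N) := by
  have hn' : (0 : ℝ) < n := by exact_mod_cast hn
  induction a with
  | zero => exact ⟨fun i => i.elim0, by simp [TQ, XQ]⟩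
  | succ a ih =>
    obtain ⟨y, hy⟩ := ih
    have hb1 : ∀ i, Bd (fun z => (D (z - y i)).re) := fun i =>
      (hb.comp (fun z => z - y i)).re
    have hb2 : ∀ i, Bd (fun z => (D (x i - z)).re) := fun i =>
      (hb.comp (fun z => x i - z)).re
    have hb3 : Bd (fun z => ∑ i, (D (z - y i)).re) := Bd.sum _ (fun i _ => hb1 i)
    have hb4 : Bd (fun z => ∑ i, (D (x i - z)).re) := Bd.sum _ (fun i _ => hb2 i)
    obtain ⟨z, hz⟩ := hM.toIsMean.exists_le ((hb3.smul (2 / N ^ 2)).sub (hb4.smul (2 / (n * N))))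
      (div_pos hε hN)
    have hs1 : M (fun z => ∑ i, (D (z - y i)).re) = a * (mC M D).re := by
      rw [hM.toIsPos.sum _ (fun i _ => hb1 i),
        Finset.sum_congr rfl (fun i _ => mean_shift hM hb (y i)), Finset.sum_const,
        Finset.card_univ, Fintype.card_fin, nsmul_eq_mul]
    have hs2 : M (fun z => ∑ i, (D (x i - z)).re) = n * (mC M D).re := by
      rw [hM.toIsPos.sum _ (fun i _ => hb2 i),
        Finset.sum_congr rfl (fun i _ => mean_shift' hM hb hD (x i)), Finset.sum_const,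
        Finset.card_univ, Fintype.card_fin, nsmul_eq_mul]
    rw [hM.toIsPos.sub (hb3.smul _) (hb4.smul _), hM.smul _ _ hb3, hM.smul _ _ hb4, hs1, hs2]
      at hz
    refine ⟨Fin.snoc y z, ?_⟩
    rw [TQ_snoc hD, XQ_snoc]
    have e1 : (TQ D y + 2 * ∑ i, (D (z - y i)).re + (D 0).re) / N ^ 2 -
        2 * (XQ D x y + ∑ i, (D (x i - z)).re) / (n * N) =
        (TQ D y / N ^ 2 - 2 * XQ D x y / (n * N)) + (2 / N ^ 2 * ∑ i, (D (z - y i)).re -
          2 / (n * N) * ∑ i, (D (x i - z)).re) + (D 0).re / N ^ 2 := by ring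
    have e2 : 2 / (n * N) * (n * (mC M D).re) = 2 * (mC M D).re / N := by
      field_simp
    rw [e2] at hz
    rw [e1]
    refine (add_le_add (add_le_add hy hz) le_rfl).trans_eq ?_
    push_cast
    ring

lemma form_append {D : G → ℂ} (hPD : PD D) (hD : ∀ x, D (-x) = conj (D x)) {n N : ℕ}
    (hn : 0 < n) (hN : 0 < N) (x : Fin n → G) (y : Fin N → G) :
    0 ≤ TQ D x / (n : ℝ) ^ 2 + (TQ D y / (N : ℝ) ^ 2 - 2 * XQ D x y / (n * N)) := by
  have hn' : (n : ℝ) ≠ 0 := by exact_mod_cast hn.ne'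
  have hN' : (N : ℝ) ≠ 0 := by exact_mod_cast hN.ne'
  have h := (hPD (n + N) (Fin.append x y)
    (Fin.append (fun _ => ((1 / (n : ℝ) : ℝ) : ℂ)) (fun _ => ((-(1 / (N : ℝ)) : ℝ) : ℂ)))).1
  simp only [Fin.sum_univ_add, Fin.append_left, Fin.append_right, Complex.conj_ofReal,
    ← Complex.ofReal_mul, Complex.add_re, Complex.re_sum, Complex.re_ofReal_mul] at h
  refine h.trans_eq ?_
  have e : ∀ (a : Fin N) (i : Fin n), (D (y a - x i)).re = (D (x i - y a)).re := by
    intro a i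
    rw [← neg_sub, hD, Complex.conj_re]
  have e2 : ∑ i : Fin n, ∑ a : Fin N, (D (x i - y a)).re = XQ D x y := by
    unfold XQ
    exact Finset.sum_comm
  have e3 : ∑ a : Fin N, ∑ i : Fin n, (D (y a - x i)).re = XQ D x y := by
    unfold XQ
    exact Finset.sum_congr rfl (fun a _ => Finset.sum_congr rfl (fun i _ => e a i))
  simp only [Finset.sum_add_distrib, ← Finset.mul_sum]
  rw [e2, e3]
  unfold TQ
  field_simp
  ring

end

theorem pdm1 (hp : S_pdb.{u}) : S_pdm1.{u} := by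
  intro G _ M hM D hPD n x hn
  obtain ⟨hD, hDb, -⟩ := hp G D hPD
  have hb : BdC D := ⟨_, hDb⟩
  set μ := (mC M D).re with hμ
  rw [← TQ_eq]
  refine le_of_forall_pos_le_add (fun ε hε => ?_)
  obtain ⟨N, hN⟩ := exists_nat_gt ((|μ| + |(D 0).re| + 1) / (ε / 2))
  have hN0 : (0 : ℝ) < N := lt_of_le_of_lt (by positivity) hN
  obtain ⟨y, hy⟩ := pdm1_aux hM hb hD hn x hN0 (half_pos hε) N
  have h1 := form_append hPD hD hn (by exact_mod_cast hN0) x y
  rw [← hμ] at hy
  have e1 : (N : ℝ) * (N - 1) * μ / (N : ℝ) ^ 2 - 2 * N * μ / N + N * ((D 0).re / (N : ℝ) ^ 2 +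
      ε / 2 / N) = -μ + (-μ + (D 0).re) / N + ε / 2 := by
    field_simp
    ring
  rw [e1] at hy
  have h2 : (-μ + (D 0).re) / N ≤ ε / 2 := by
    rw [div_le_iff₀ hN0]
    rw [div_lt_iff₀ (half_pos hε)] at hN
    linarith [neg_abs_le μ, le_abs_self (D 0).re]
  linarith

end Q136.BM
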