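import Pool.Agent.Q136.BM.Part3

/-!
# The partition theorem if two endomorphisms sum to zero and there is a third one
-/

namespace Q136.BM

open scoped ComplexConjugate BigOperators

universe u

lemma range_neg' {G : Type u} [AddCommGroup G] (φ : G →+ G) : (-φ).range = φ.range := by
  ext x
  simp only [AddMonoidHom.mem_range, AddMonoidHom.neg_apply]
  constructor
  · rintro ⟨y, rfl⟩; exact ⟨-y, by simp⟩
  · rintro ⟨y, rfl⟩; exact ⟨-y, by simp⟩

/-- shifting a Bohr set -/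
lemma bohr_sub {G : Type u} [AddCommGroup G] {k : ℕ} {χ : Fin k → AddChar G Circle} {η : ℝ}
    {g a : G} (hg : g ∈ bohr χ (η / 2)) (ha : ∀ t, ‖((χ t a : Circle) : ℂ) - 1‖ < η / 2) :
    g - a ∈ bohr χ η := by
  intro t
  have e1 : ((χ t (g - a) : Circle) : ℂ) - 1 =
      (((χ t g : Circle) : ℂ) - ((χ t a : Circle) : ℂ)) * ((χ t (-a) : Circle) : ℂ) := by
    rw [sub_mul, ← Circle.coe_mul, ← Circle.coe_mul, ← AddChar.map_add_eq_mul,
      ← AddChar.map_add_eq_mul, add_neg_cancel, AddChar.map_zero_eq_one, Circle.coe_one,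
      sub_eq_add_neg g]
  rw [e1, norm_mul, Circle.norm_coe, mul_one]
  have e2 : ((χ t g : Circle) : ℂ) - ((χ t a : Circle) : ℂ) =
      (((χ t g : Circle) : ℂ) - 1) - (((χ t a : Circle) : ℂ) - 1) := by ring
  rw [e2]
  refine (norm_sub_le _ _).trans_lt ?_
  have h1 := ha t
  have h2 := hg t
  linarith

theorem part2 (hex : S_exists.{u}) (herg : S_erg.{u}) (hdis' : S_disint.{u})
    (hschurb : S_schurb.{u}) (hpos : S_pos.{u}) : S_part2.{u} := by
  classical
  intro d hd S hS r n hr hn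
  have hr' : (0 : ℝ) < r := by exact_mod_cast hr
  obtain ⟨a, b, hab, rfl⟩ := Finset.card_eq_two.mp hS
  obtain ⟨c, hc⟩ : ∃ c : Fin d, c ∉ ({a, b} : Finset (Fin d)) := by
    by_contra hcon
    push Not at hcon
    have h1 : (Finset.univ : Finset (Fin d)) ⊆ {a, b} := fun x _ => hcon x
    have h2 := Finset.card_le_card h1
    rw [Finset.card_univ, Fintype.card_fin, hS] at h2
    omega
  have hca : c ≠ a := fun h => hc (by rw [h]; simp)
  have hcb : c ≠ b := fun h => hc (by rw [h]; simp)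
  -- the parameters
  have hP := fun (ρ : P0) (st : ℕ × P0) =>
    hpos r st.1 st.2.1 ρ.1 (n a) (n c) st.2.2 ρ.2 (hn a) (hn c)
  choose cf βf hcf hβf hP using hP
  have hS := fun (x : P0) => hschurb x.1 x.2 (n a) (n c) (hn a) (hn c)
  choose kf ηf hηf hS using hS
  let cP : P0 → ℕ × P0 → P0 := fun ρ st => ⟨cf ρ st, hcf ρ st⟩
  let step : P0 → ℕ × P0 → ℕ × P0 := fun ρ st => (st.1 + r * kf (cP ρ st),
    ⟨min st.2.1 (ηf (cP ρ st) / 2), lt_min st.2.2 (half_pos (hηf _))⟩)
  let sts : P0 → ℕ → ℕ × P0 := fun ρ u => (step ρ)^[u] (0, ⟨1, one_pos⟩)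
  have hsts : ∀ ρ u, sts ρ (u + 1) = step ρ (sts ρ u) := fun ρ u =>
    Function.iterate_succ_apply' (step ρ) u _
  let cc : P0 → ℕ → P0 := fun ρ u => cP ρ (sts ρ u)
  have hB := fun (ρ : P0) => exists_lb (fun u => βf ρ (sts ρ u)) (fun u => hβf _ _) (r + 1)
  choose B hB hB' using hB
  let nx : P0 → P0 := fun ρ => ⟨min ρ.1 (B ρ), lt_min ρ.2 (hB ρ)⟩
  let ρs : ℕ → P0 := fun q => nx^[q] ⟨1, one_pos⟩
  have hρs : ∀ q, ρs (q + 1) = nx (ρs q) := fun q => Function.iterate_succ_apply' nx q _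
  have hanti : ∀ q, (ρs (q + 1)).1 ≤ (ρs q).1 := fun q => by
    rw [hρs]
    exact min_le_left _ _
  have hE := fun (q : ℕ) => exists_lb (fun u => ηf (cc (ρs q) u) / 2)
    (fun u => half_pos (hηf _)) (r + 1)
  choose E hE hE' using hE
  obtain ⟨η₀, hη₀, hη₀'⟩ := exists_lb E hE (r + 1)
  refine ⟨(Finset.range (r + 1)).sup (fun q => (Finset.range (r + 1)).sup
    (fun u => kf (cc (ρs q) u))), η₀, hη₀, ?_⟩
  intro G _ φ hφ hsum A hcov hdis
  rw [Finset.sum_pair hab] at hsum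
  have hφb : φ b = -φ a := by rw [eq_neg_iff_add_eq_zero, add_comm]; exact hsum
  obtain ⟨m₀, hm₀⟩ := hex G
  obtain ⟨m, hm, he, -⟩ := herg G m₀ ∅ hm₀
  -- the invariant mean on the pairs
  let π₂ : KK (φ a) (φ c) →+ G := (AddMonoidHom.snd G G).comp (KK (φ a) (φ c)).subtype
  have hle : (φ a).range.comap (φ c) ≤ π₂.range := by
    intro x hx
    rw [AddSubgroup.mem_comap] at hx
    obtain ⟨t, ht⟩ := hx
    have hmem : ((t, x) : G × G) ∈ KK (φ a) (φ c) := by
      rw [mem_KK]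
      exact ht
    exact ⟨⟨_, hmem⟩, rfl⟩
  have hi := index_comap_le (φ c) (φ a) (by rw [hφ a]; exact hn a)
  have hdv := AddSubgroup.index_dvd_of_le hle
  have hi1 : π₂.range.index ≠ 0 := fun h0 =>
    hi.1 (by rw [h0] at hdv; exact Nat.eq_zero_of_zero_dvd hdv)
  have hi2 : π₂.range.index ≤ n a := by
    rw [← hφ a]
    exact (Nat.le_of_dvd (Nat.pos_of_ne_zero hi.1) hdv).trans hi.2
  obtain ⟨M, hM, hMd⟩ := hdis' G (KK (φ a) (φ c)) m hm π₂ hi1
  have hMd' : ∀ f : G → ℝ, Bd f → (∀ x, 0 ≤ f x) →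
      M (fun κ : KK (φ a) (φ c) => f κ.1.2) ≤ n a * m f := by
    intro f hf h0
    have h1 := hMd f hf h0
    have h2 := hm.nonneg f hf h0
    calc M (fun κ : KK (φ a) (φ c) => f κ.1.2) ≤ π₂.range.index * m f := h1
      _ ≤ n a * m f := by gcongr
  obtain ⟨q, hq, hgap⟩ := exists_gap (fun q => (ρs q).1) hanti (fun i => m (ind (A i)))
  set ρ : P0 := ρs q with hρ
  -- the Bohr sets of the cells with a large count
  have hbohr : ∀ (i : Fin r) (u : ℕ), ∃ χ : Fin (kf (cc ρ u)) → AddChar G Circle,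
      (cc ρ u).1 ≤ cnt m M (A i) → ∀ g ∈ bohr χ (ηf (cc ρ u)),
        ∃ x₁ ∈ A i, ∃ x₂ ∈ A i, ∃ x₃ ∈ A i, φ a x₁ - φ a x₂ + φ c x₃ = g := by
    intro i u
    by_cases h : (cc ρ u).1 ≤ cnt m M (A i)
    · obtain ⟨χ, hχ⟩ := hS (cc ρ u) G (φ a) (φ c) (hφ a) (hφ c) m M hm he hM (A i) h
      exact ⟨χ, fun _ => hχ⟩
    · exact ⟨fun _ => 1, fun h' => absurd h' h⟩
  choose χ hχ using hbohr
  let θ : G →+ G := ∑ j ∈ Finset.univ \ {a, b, c}, φ j
  -- the characters of the stages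
  let Tset : ℕ → Finset (AddChar G Circle) := fun u =>
    (Finset.range u).biUnion (fun v => Finset.univ.image
      (fun p : Fin r × Fin (kf (cc ρ v)) => (χ p.1 v p.2).compAddMonoidHom θ))
  have hTc : ∀ u, (Tset u).card ≤ (sts ρ u).1 := by
    intro u
    induction u with
    | zero =>
      show (Tset 0).card ≤ 0
      simp [Tset]
    | succ u ih =>
      have h1 : Tset (u + 1) = Tset u ∪ Finset.univ.image
          (fun p : Fin r × Fin (kf (cc ρ u)) => (χ p.1 u p.2).compAddMonoidHom θ) := by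
        show (Finset.range (u + 1)).biUnion _ = (Finset.range u).biUnion _ ∪ _
        rw [Finset.range_add_one, Finset.biUnion_insert, Finset.union_comm]
      have h2 : (Finset.univ.image
          (fun p : Fin r × Fin (kf (cc ρ u)) => (χ p.1 u p.2).compAddMonoidHom θ)).card ≤
          r * kf (cc ρ u) := by
        refine Finset.card_image_le.trans ?_
        rw [Finset.card_univ, Fintype.card_prod, Fintype.card_fin, Fintype.card_fin]
      rw [h1, hsts]
      refine (Finset.card_union_le _ _).trans ?_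
      exact Nat.add_le_add ih h2
  have hζanti : ∀ u v, u ≤ v → (sts ρ v).2.1 ≤ (sts ρ u).2.1 := by
    intro u v huv
    have h1 : Antitone (fun u => (sts ρ u).2.1) := antitone_nat_of_succ_le (fun u => by
      rw [hsts]
      exact min_le_left _ _)
    exact h1 huv
  have hζη : ∀ u, (sts ρ (u + 1)).2.1 ≤ ηf (cc ρ u) / 2 := by
    intro u
    rw [hsts]
    exact min_le_right _ _
  have hstage : ∀ u : Fin (r + 1), ∃ i : Fin r, (cc ρ u).1 ≤ cnt m M (A i) ∧ ∃ a₀ ∈ A i,
      ∀ ψ ∈ Tset u, ‖((ψ a₀ : Circle) : ℂ) - 1‖ < (sts ρ u).2.1 := by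
    intro u
    obtain ⟨ξ, hξ⟩ := exists_enum (Tset u) _ (hTc u) 1
    obtain ⟨i, -, hi, a₀, ha₀, haξ⟩ := hP ρ (sts ρ u) G (φ a) (φ c) (hφ a) (hφ c) m M hm he hM
      hMd' A hcov hdis (by
        intro i hi
        have h1 : m (ind (A i)) < (ρs (q + 1)).1 := hgap i hi
        rw [hρs] at h1
        exact (h1.le.trans (min_le_right _ _)).trans (hB' ρ u u.2)) ξ
    refine ⟨i, hi, a₀, ha₀, fun ψ hψ => ?_⟩
    obtain ⟨j, hj⟩ := hξ ψ hψ
    rw [← hj]
    exact haξ j
  choose ci hci using hstage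
  obtain ⟨u, v, huv, hcuv⟩ := Fintype.exists_ne_map_eq_of_card_lt ci (by simp)
  have key : ∀ u v : Fin (r + 1), u < v → ci u = ci v →
      HasBohr φ (A (ci u)) (kf (cc ρ u)) (ηf (cc ρ u) / 2) := by
    intro u v hlt hE
    obtain ⟨hcnt, -⟩ := hci u
    obtain ⟨-, a₀, ha₀, hψ⟩ := hci v
    rw [← hE] at ha₀
    set i := ci u with hi
    have hθa : ∀ t, ‖((χ i u t (θ a₀) : Circle) : ℂ) - 1‖ < ηf (cc ρ u) / 2 := by
      intro t
      have hmem : (χ i u t).compAddMonoidHom θ ∈ Tset v := by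
        refine Finset.mem_biUnion.mpr ⟨u, Finset.mem_range.mpr hlt, ?_⟩
        exact Finset.mem_image.mpr ⟨(i, t), Finset.mem_univ _, rfl⟩
      have h1 := hψ _ hmem
      have h2 : (sts ρ v).2.1 ≤ (sts ρ (u + 1)).2.1 := hζanti _ _ (Nat.succ_le_of_lt hlt)
      exact h1.trans_le (h2.trans (hζη u))
    refine ⟨χ i u, fun g hg => ?_⟩
    obtain ⟨x₁, hx₁, x₂, hx₂, x₃, hx₃, hx⟩ := hχ i u hcnt _ (bohr_sub hg hθa)
    refine ⟨fun j => if j = a then x₁ else if j = b then x₂ else if j = c then x₃ else a₀,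
      fun j => ?_, ?_⟩
    · by_cases h1 : j = a
      · simp only [h1, if_true]; exact hx₁
      · by_cases h2 : j = b
        · subst h2; simp only [h1, if_false, if_true]; exact hx₂
        · by_cases h3 : j = c
          · subst h3; simp only [h1, h2, if_false, if_true]; exact hx₃
          · simp only [h1, h2, h3, if_false]; exact ha₀
    · rw [← Finset.sum_sdiff (Finset.subset_univ ({a, b, c} : Finset (Fin d)))]
      have e1 : ∑ j ∈ Finset.univ \ {a, b, c}, φ j (if j = a then x₁ else if j = b then x₂ else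
          if j = c then x₃ else a₀) = θ a₀ := by
        show _ = (∑ j ∈ Finset.univ \ {a, b, c}, φ j) a₀
        rw [AddMonoidHom.finsetSum_apply]
        refine Finset.sum_congr rfl (fun j hj => ?_)
        have h1 := (Finset.mem_sdiff.mp hj).2
        simp only [Finset.mem_insert, Finset.mem_singleton, not_or] at h1
        rw [if_neg h1.1, if_neg h1.2.1, if_neg h1.2.2]
      have e2 : ∑ j ∈ ({a, b, c} : Finset (Fin d)), φ j (if j = a then x₁ else
          if j = b then x₂ else if j = c then x₃ else a₀) = g - θ a₀ := by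
        rw [Finset.sum_insert (by simp [hab, hca.symm]), Finset.sum_insert (by simp [hcb.symm]),
          Finset.sum_singleton, if_pos rfl, if_neg hab.symm, if_pos rfl, if_neg hca, if_neg hcb,
          if_pos rfl, hφb, AddMonoidHom.neg_apply, ← hx]
        abel
      rw [e1, e2]
      abel
  have hfin : ∀ u : Fin (r + 1), kf (cc ρ u) ≤ (Finset.range (r + 1)).sup (fun q =>
      (Finset.range (r + 1)).sup (fun u => kf (cc (ρs q) u))) := by
    intro u
    have h1 : kf (cc ρ u) ≤ (Finset.range (r + 1)).sup (fun u => kf (cc (ρs q) u)) :=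
      Finset.le_sup (f := fun u => kf (cc (ρs q) u)) (Finset.mem_range.mpr u.2)
    exact h1.trans (Finset.le_sup (f := fun q => (Finset.range (r + 1)).sup
      (fun u => kf (cc (ρs q) u))) (Finset.mem_range.mpr hq))
  have hfin2 : ∀ u : Fin (r + 1), η₀ ≤ ηf (cc ρ u) / 2 := fun u =>
    (hη₀' q hq).trans (hE' q u u.2)
  rcases lt_or_gt_of_ne huv with h | h
  · exact ⟨_, (key u v h hcuv).mono (hfin u) (hfin2 u)⟩
  · exact ⟨_, (key v u h hcuv.symm).mono (hfin v) (hfin2 v)⟩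

end Q136.BM
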