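import Pool.Agent.Q136.BM.Pos
import Pool.Agent.Q136.BM.Final

/-!
# The partition theorem if at least three endomorphisms sum to zero
-/

namespace Q136.BM

open scoped ComplexConjugate BigOperators

universe u

/-- positive reals -/
abbrev P0 : Type := {x : ℝ // 0 < x}

/-- pigeonhole for thresholds -/
lemma exists_gap (ρ : ℕ → ℝ) (hρ : ∀ q, ρ (q + 1) ≤ ρ q) {r : ℕ} (δ : Fin r → ℝ) :
    ∃ q < r + 1, ∀ i, δ i < ρ q → δ i < ρ (q + 1) := by
  by_contra hcon
  push Not at hcon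
  have hanti : Antitone ρ := antitone_nat_of_succ_le hρ
  have hcon' : ∀ q : Fin (r + 1), ∃ i, δ i < ρ q ∧ ρ (q + 1) ≤ δ i := fun q => hcon q q.2
  choose c hc1 hc2 using hcon'
  obtain ⟨a, b, hab, hcab⟩ := Fintype.exists_ne_map_eq_of_card_lt c (by simp)
  have key : ∀ a b : Fin (r + 1), a < b → c a = c b → False := by
    intro a b hlt hE
    have h1 := hc2 a
    have h2 := hc1 b
    rw [← hE] at h2
    have h3 : ρ b.1 ≤ ρ (a.1 + 1) := hanti hlt
    linarith
  rcases lt_or_gt_of_ne hab with h | h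
  · exact key a b h hcab
  · exact key b a h hcab.symm

/-- the mean of the cells of a partition which are not dense -/
lemma exists_dense_mem {G : Type u} [AddCommGroup G] {m : (G → ℝ) → ℝ} (hm : IsInvMean m) {r : ℕ}
    (hr : 0 < r) {A : Fin r → Set G} (hcov : ∀ x, ∃ i, x ∈ A i) (D : Fin r → Prop) {β : ℝ}
    (hβ : 0 < β) (hD : ∀ i, ¬ D i → m (ind (A i)) < β / (2 * r)) {B : Set G}
    (hB : β ≤ m (ind B)) : ∃ i, D i ∧ ∃ a ∈ A i, a ∈ B := by
  classical
  by_contra hcon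
  push Not at hcon
  have hr' : (0 : ℝ) < r := by exact_mod_cast hr
  have h1 : ∀ x, ind B x ≤ ∑ i ∈ Finset.univ.filter (fun i => ¬ D i), ind (A i) x := by
    intro x
    by_cases hx : x ∈ B
    · obtain ⟨i, hi⟩ := hcov x
      have hDi : ¬ D i := fun h => hcon i h x hi hx
      calc ind B x ≤ 1 := (ind_icc _ _).2
        _ = ind (A i) x := (ind_mem hi).symm
        _ ≤ _ := Finset.single_le_sum (f := fun i => ind (A i) x)
            (fun i _ => (ind_icc _ _).1) (Finset.mem_filter.mpr ⟨Finset.mem_univ i, hDi⟩)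
    · rw [ind_notMem hx]
      exact Finset.sum_nonneg (fun i _ => (ind_icc _ _).1)
  have h2 := hm.toIsPos.mono (bd_ind B) (Bd.sum _ (fun i _ => bd_ind (A i))) h1
  rw [hm.toIsPos.sum _ (fun i _ => bd_ind (A i))] at h2
  have h3 : ∑ i ∈ Finset.univ.filter (fun i => ¬ D i), m (ind (A i)) ≤
      (Finset.univ.filter (fun i => ¬ D i)).card • (β / (2 * r)) :=
    Finset.sum_le_card_nsmul _ _ _ (fun i hi => (hD i (Finset.mem_filter.mp hi).2).le)
  have h4 : ((Finset.univ.filter (fun i : Fin r => ¬ D i)).card : ℝ) ≤ r := by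
    exact_mod_cast (Finset.card_le_univ _).trans_eq (Fintype.card_fin r)
  rw [nsmul_eq_mul] at h3
  have h5 : ((Finset.univ.filter (fun i : Fin r => ¬ D i)).card : ℝ) * (β / (2 * r)) ≤
      r * (β / (2 * r)) := by gcongr
  have h6 : (r : ℝ) * (β / (2 * r)) = β / 2 := by field_simp
  linarith

theorem part3 (hex : S_exists.{u}) (herg : S_erg.{u}) (hcore : S_core.{u}) (hbd : S_bdens.{u}) :
    S_part3.{u} := by
  classical
  intro d S hS r n hr hn
  have hr' : (0 : ℝ) < r := by exact_mod_cast hr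
  -- three elements
  obtain ⟨a, ha, b, hb, c, hc, hab, hac, hbc⟩ := Finset.two_lt_card.mp hS
  let ι := {j : Fin d // j ∈ S}
  have hC := fun ρ : P0 => hcore ι ⟨a, ha⟩ ⟨b, hb⟩ ⟨c, hc⟩
    (fun h => hab (congrArg Subtype.val h)) (fun h => hac (congrArg Subtype.val h))
    (fun h => hbc (congrArg Subtype.val h)) ρ.1 ρ.2 (fun j => n j.1) (fun j => hn j.1)
  choose kf ηf hη hC using hC
  have hB := fun ρ : P0 => hbd (r * kf ρ) (ηf ρ / 2) (half_pos (hη ρ))
  choose βf hβ hB using hB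
  let nx : P0 → P0 := fun ρ => ⟨min ρ.1 (βf ρ / (2 * r)), lt_min ρ.2 (by
    have := hβ ρ
    positivity)⟩
  let ρs : ℕ → P0 := fun q => nx^[q] ⟨1, one_pos⟩
  have hρs : ∀ q, ρs (q + 1) = nx (ρs q) := fun q => Function.iterate_succ_apply' nx q _
  have hanti : ∀ q, (ρs (q + 1)).1 ≤ (ρs q).1 := fun q => by
    rw [hρs]
    exact min_le_left _ _
  obtain ⟨η₀, hη₀, hη₀'⟩ := exists_lb (fun q => ηf (ρs q) / 2) (fun q => half_pos (hη _)) (r + 1)
  refine ⟨(Finset.range (r + 1)).sup (fun q => kf (ρs q)), η₀, hη₀, ?_⟩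
  intro G _ φ hφ hsum A hcov hdis
  obtain ⟨m₀, hm₀⟩ := hex G
  obtain ⟨m, hm, he, -⟩ := herg G m₀ ∅ hm₀
  obtain ⟨q, hq, hgap⟩ := exists_gap (fun q => (ρs q).1) hanti (fun i => m (ind (A i)))
  set ρ : P0 := ρs q with hρ
  let D : Fin r → Prop := fun i => ρ.1 ≤ m (ind (A i))
  have hD : ∀ i, ¬ D i → m (ind (A i)) < βf ρ / (2 * r) := by
    intro i hi
    have h1 : m (ind (A i)) < (ρs (q + 1)).1 := hgap i (not_le.mp hi)
    rw [hρs] at h1
    exact h1.trans_le (min_le_right _ _)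
  -- the Bohr sets of the dense cells
  have hι : ∑ j : ι, φ j.1 = 0 := by
    rw [← hsum]
    exact Finset.sum_coe_sort S (fun j => φ j)
  have hbohr : ∀ i, ∃ χ : Fin (kf ρ) → AddChar G Circle, D i → ∀ g ∈ bohr χ (ηf ρ),
      ∃ x : ι → G, (∀ j, x j ∈ A i) ∧ ∑ j, φ j.1 (x j) = g := by
    intro i
    by_cases hi : D i
    · obtain ⟨χ, hχ⟩ := hC ρ G (fun j : ι => φ j.1) (fun j => hφ j.1) hι m hm he (A i) hi
      exact ⟨χ, fun _ => hχ⟩
    · exact ⟨fun _ => 1, fun h => absurd h hi⟩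
  choose χ hχ using hbohr
  -- the other endomorphisms
  let θ : G →+ G := ∑ j ∈ Finset.univ \ S, φ j
  let ψ : Fin (r * kf ρ) → AddChar G Circle := fun t =>
    (χ (finProdFinEquiv.symm t).1 (finProdFinEquiv.symm t).2).compAddMonoidHom θ
  obtain ⟨i, hDi, a₀, ha₀, haB⟩ := exists_dense_mem hm hr hcov D (hβ ρ) hD (hB ρ G m hm ψ)
  have hθa : ∀ t, ‖((χ i t (θ a₀) : Circle) : ℂ) - 1‖ < ηf ρ / 2 := by
    intro t
    have h1 := haB (finProdFinEquiv (i, t))
    have h2 : ψ (finProdFinEquiv (i, t)) = (χ i t).compAddMonoidHom θ := by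
      show (χ (finProdFinEquiv.symm (finProdFinEquiv (i, t))).1
        (finProdFinEquiv.symm (finProdFinEquiv (i, t))).2).compAddMonoidHom θ = _
      rw [Equiv.symm_apply_apply]
    rw [h2] at h1
    exact h1
  have hH : HasBohr φ (A i) (kf ρ) (ηf ρ / 2) := by
    refine ⟨χ i, fun g hg => ?_⟩
    have hg' : g - θ a₀ ∈ bohr (χ i) (ηf ρ) := by
      intro t
      have e1 : ((χ i t (g - θ a₀) : Circle) : ℂ) - 1 =
          (((χ i t g : Circle) : ℂ) - ((χ i t (θ a₀) : Circle) : ℂ)) *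
            ((χ i t (-θ a₀) : Circle) : ℂ) := by
        rw [sub_mul, ← Circle.coe_mul, ← Circle.coe_mul, ← AddChar.map_add_eq_mul,
          ← AddChar.map_add_eq_mul, add_neg_cancel, AddChar.map_zero_eq_one, Circle.coe_one,
          sub_eq_add_neg g]
      rw [e1, norm_mul, Circle.norm_coe, mul_one]
      have e2 : ((χ i t g : Circle) : ℂ) - ((χ i t (θ a₀) : Circle) : ℂ) =
          (((χ i t g : Circle) : ℂ) - 1) - (((χ i t (θ a₀) : Circle) : ℂ) - 1) := by ring
      rw [e2]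
      refine (norm_sub_le _ _).trans_lt ?_
      have := hθa t
      have := hg t
      linarith
    obtain ⟨x, hx, hxs⟩ := hχ i hDi _ hg'
    refine ⟨fun j => if h : j ∈ S then x ⟨j, h⟩ else a₀, fun j => ?_, ?_⟩
    · by_cases h : j ∈ S
      · simp only [dif_pos h]
        exact hx _
      · simp only [dif_neg h]
        exact ha₀
    · rw [← Finset.sum_sdiff (Finset.subset_univ S)]
      have e1 : ∑ j ∈ Finset.univ \ S, φ j (if h : j ∈ S then x ⟨j, h⟩ else a₀) = θ a₀ := by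
        show _ = (∑ j ∈ Finset.univ \ S, φ j) a₀
        rw [AddMonoidHom.finsetSum_apply]
        refine Finset.sum_congr rfl (fun j hj => ?_)
        rw [dif_neg (Finset.mem_sdiff.mp hj).2]
      have e2 : ∑ j ∈ S, φ j (if h : j ∈ S then x ⟨j, h⟩ else a₀) = g - θ a₀ := by
        rw [← hxs, ← Finset.sum_coe_sort S]
        refine Finset.sum_congr rfl (fun j _ => ?_)
        rw [dif_pos j.2]
      rw [e1, e2]
      abel
  exact ⟨i, hH.mono (Finset.le_sup (f := fun q => kf (ρs q)) (Finset.mem_range.mpr hq))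
    (hη₀' q hq)⟩

end Q136.BM
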