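import Pool.Agent.Q136.BM.SchurB
import Pool.Agent.Q136.BM.Bessel

/-!
# Some dense cell has a large count and meets the given Bohr set
-/

namespace Q136.BM

open scoped ComplexConjugate BigOperators

universe u

section Corr

variable {G : Type u} [AddCommGroup G] {m : (G → ℝ) → ℝ}

/-- Fourier coefficients -/
noncomputable def fc (m : (G → ℝ) → ℝ) (f : G → ℂ) (χ : AddChar G Circle) : ℂ :=
  mC m (fun z => f z * conj ((χ z : Circle) : ℂ))

/-- the function without the frequencies in `Λ` -/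
noncomputable def rest (m : (G → ℝ) → ℝ) (f : G → ℂ) (Λ : Finset (AddChar G Circle)) : G → ℂ :=
  fun z => f z - ∑ χ ∈ Λ, fc m f χ * ((χ z : Circle) : ℂ)

lemma rest_bd {f : G → ℂ} (hf : BdC f) (Λ : Finset (AddChar G Circle)) : BdC (rest m f Λ) :=
  hf.sub (BdC.sum _ (fun χ _ => (BdC.circle χ).smul _))

lemma fc_shift (hm : IsInvMean m) {f : G → ℂ} (hf : BdC f) (t : G) (χ : AddChar G Circle) :
    fc m (fun z => f (z + t)) χ = ((χ t : Circle) : ℂ) * fc m f χ := by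
  have h1 := mC_inv hm (hf.mul (BdC.circle χ).conj) t
  have e : (fun z => f (z + t) * conj ((χ z : Circle) : ℂ)) =
      fun z => ((χ t : Circle) : ℂ) * (f (z + t) * conj ((χ (z + t) : Circle) : ℂ)) := by
    funext z
    have h2 : ((χ t : Circle) : ℂ) * conj ((χ t : Circle) : ℂ) = 1 := by
      rw [Complex.mul_conj', Circle.norm_coe]; simp
    rw [AddChar.map_add_eq_mul, Circle.coe_mul, map_mul]
    calc f (z + t) * conj ((χ z : Circle) : ℂ)
        = (((χ t : Circle) : ℂ) * conj ((χ t : Circle) : ℂ)) *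
          (f (z + t) * conj ((χ z : Circle) : ℂ)) := by rw [h2, one_mul]
      _ = _ := by ring
  unfold fc
  rw [e, mC_smul hm.toIsPos]
  · congr 1
  · exact (hf.comp (fun z => z + t)).mul ((BdC.circle χ).conj.comp (fun z => z + t))

lemma fc_rest_eq (hm : IsInvMean m) {f : G → ℂ} (hf : BdC f) (Λ : Finset (AddChar G Circle))
    (χ : AddChar G Circle) : fc m (rest m f Λ) χ = fc m f χ -
      ∑ ψ ∈ Λ, fc m f ψ * mC m (fun z => ((ψ z : Circle) : ℂ) * conj ((χ z : Circle) : ℂ)) := by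
  have hbχ : ∀ ψ : AddChar G Circle,
      BdC (fun z => ((ψ z : Circle) : ℂ) * conj ((χ z : Circle) : ℂ)) := fun ψ =>
    (BdC.circle ψ).mul (BdC.circle χ).conj
  have e1 : (fun z => rest m f Λ z * conj ((χ z : Circle) : ℂ)) = fun z =>
      f z * conj ((χ z : Circle) : ℂ) -
        ∑ ψ ∈ Λ, fc m f ψ * (((ψ z : Circle) : ℂ) * conj ((χ z : Circle) : ℂ)) := by
    funext z
    unfold rest
    rw [sub_mul, Finset.sum_mul]
    congr 1
    exact Finset.sum_congr rfl (fun ψ _ => by ring)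
  show mC m (fun z => rest m f Λ z * conj ((χ z : Circle) : ℂ)) = _
  rw [e1, mC_sub hm.toIsPos (hf.mul (BdC.circle χ).conj)
    (BdC.sum _ (fun ψ _ => (hbχ ψ).smul _)), mC_sum hm.toIsPos _ (fun ψ _ => (hbχ ψ).smul _)]
  congr 1
  exact Finset.sum_congr rfl (fun ψ _ => mC_smul hm.toIsPos _ (hbχ ψ))

lemma fc_rest (hm : IsInvMean m) {f : G → ℂ} (hf : BdC f) {Λ : Finset (AddChar G Circle)}
    {χ : AddChar G Circle} (h : χ ∈ Λ) : fc m (rest m f Λ) χ = 0 := by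
  rw [fc_rest_eq hm hf, Finset.sum_eq_single χ]
  · rw [char_self hm, mul_one, sub_self]
  · intro ψ _ hψ
    rw [char_orth hm hψ, mul_zero]
  · intro h'
    exact absurd h h'

lemma fc_rest' (hm : IsInvMean m) {f : G → ℂ} (hf : BdC f) {Λ : Finset (AddChar G Circle)}
    {χ : AddChar G Circle} (h : χ ∉ Λ) : fc m (rest m f Λ) χ = fc m f χ := by
  rw [fc_rest_eq hm hf, Finset.sum_eq_zero, sub_zero]
  intro ψ hψ
  have hne : ψ ≠ χ := by
    intro h'
    rw [h'] at hψ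
    exact h hψ
  rw [char_orth hm hne, mul_zero]

lemma corr_eq (hm : IsInvMean m) {f : G → ℂ} (hf : BdC f) (Λ : Finset (AddChar G Circle)) (t : G) :
    mC m (fun z => f (z + t) * conj (f z)) =
      ∑ χ ∈ Λ, ((‖fc m f χ‖ ^ 2 : ℝ) : ℂ) * ((χ t : Circle) : ℂ) +
        mC m (fun z => rest m f Λ (z + t) * conj (rest m f Λ z)) := by
  set g : G → ℂ := fun z => ∑ χ ∈ Λ, fc m f χ * ((χ z : Circle) : ℂ) with hg
  set e : G → ℂ := rest m f Λ with he
  have hgb : BdC g := BdC.sum _ (fun χ _ => (BdC.circle χ).smul _)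
  have heb : BdC e := rest_bd hf Λ
  have hfe : ∀ z, f z = g z + e z := fun z => by
    show f z = g z + (f z - g z)
    ring
  have hgb' := hgb.comp (fun z => z + t)
  have heb' := heb.comp (fun z => z + t)
  have e1 : (fun z => f (z + t) * conj (f z)) = fun z =>
      g (z + t) * conj (f z) + (e (z + t) * conj (g z) + e (z + t) * conj (e z)) := by
    funext z
    rw [hfe (z + t)]
    conv_lhs => rw [add_mul]
    congr 1
    rw [hfe z, map_add]
    ring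
  rw [e1, mC_add hm.toIsPos (hgb'.mul hf.conj) ((heb'.mul hgb.conj).add (heb'.mul heb.conj)),
    mC_add hm.toIsPos (heb'.mul hgb.conj) (heb'.mul heb.conj)]
  have t1 : mC m (fun z => g (z + t) * conj (f z)) =
      ∑ χ ∈ Λ, ((‖fc m f χ‖ ^ 2 : ℝ) : ℂ) * ((χ t : Circle) : ℂ) := by
    have e2 : (fun z => g (z + t) * conj (f z)) = fun z => ∑ χ ∈ Λ,
        (fc m f χ * ((χ t : Circle) : ℂ)) * conj (f z * conj ((χ z : Circle) : ℂ)) := by
      funext z
      rw [hg]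
      simp only
      rw [Finset.sum_mul]
      refine Finset.sum_congr rfl (fun χ _ => ?_)
      rw [AddChar.map_add_eq_mul, Circle.coe_mul, map_mul, Complex.conj_conj]
      ring
    have hb : ∀ χ : AddChar G Circle, BdC (fun z => conj (f z * conj ((χ z : Circle) : ℂ))) :=
      fun χ => (hf.mul (BdC.circle χ).conj).conj
    rw [e2, mC_sum hm.toIsPos _ (fun χ _ => (hb χ).smul _)]
    refine Finset.sum_congr rfl (fun χ _ => ?_)
    rw [mC_smul hm.toIsPos _ (hb χ), mC_conj hm.toIsPos (hf.mul (BdC.circle χ).conj)]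
    show fc m f χ * ((χ t : Circle) : ℂ) * conj (fc m f χ) = _
    rw [Complex.ofReal_pow, ← Complex.mul_conj']
    ring
  have t2 : mC m (fun z => e (z + t) * conj (g z)) = 0 := by
    have e2 : (fun z => e (z + t) * conj (g z)) = fun z => ∑ χ ∈ Λ,
        conj (fc m f χ) * (e (z + t) * conj ((χ z : Circle) : ℂ)) := by
      funext z
      rw [hg]
      simp only
      rw [map_sum, Finset.mul_sum]
      refine Finset.sum_congr rfl (fun χ _ => ?_)
      rw [map_mul]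
      ring
    have hb : ∀ χ : AddChar G Circle, BdC (fun z => e (z + t) * conj ((χ z : Circle) : ℂ)) :=
      fun χ => heb'.mul (BdC.circle χ).conj
    rw [e2, mC_sum hm.toIsPos _ (fun χ _ => (hb χ).smul _)]
    refine Finset.sum_eq_zero (fun χ hχ => ?_)
    rw [mC_smul hm.toIsPos _ (hb χ)]
    have h1 : mC m (fun z => e (z + t) * conj ((χ z : Circle) : ℂ)) =
        ((χ t : Circle) : ℂ) * fc m e χ := fc_shift hm heb t χ
    rw [h1, he, fc_rest hm hf hχ, mul_zero, mul_zero]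
  rw [t1, t2, zero_add]

lemma norm_corr_neg (hm : IsInvMean m) {e : G → ℂ} (he : BdC e) (t : G) :
    ‖mC m (fun z => e (z + -t) * conj (e z))‖ = ‖mC m (fun z => e (z + t) * conj (e z))‖ := by
  have hb : BdC (fun z => e (z + -t) * conj (e z)) := (he.comp (fun z => z + -t)).mul he.conj
  have h1 := mC_inv hm hb t
  rw [← h1]
  have h2 := mC_conj hm.toIsPos ((he.comp (fun z => z + t)).mul he.conj)
  rw [← RCLike.norm_conj (mC m (fun z => e (z + t) * conj (e z))), ← h2]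
  congr 2
  funext z
  rw [add_neg_cancel_right, map_mul, Complex.conj_conj, mul_comm]

lemma cor_lower (hm : IsInvMean m) {f : G → ℝ} (hf : ∀ x, 0 ≤ f x ∧ f x ≤ 1) {ρ : ℝ} (hρ : 0 < ρ)
    (hfρ : ρ ≤ m f) {Λ₀ Λ₁ : Finset (AddChar G Circle)} (hsub : Λ₀ ⊆ Λ₁) (h1 : 1 ∈ Λ₀)
    (hE : ∑ χ ∈ Λ₁, ‖fc m (fun z => (f z : ℂ)) χ‖ ^ 2 -
      ∑ χ ∈ Λ₀, ‖fc m (fun z => (f z : ℂ)) χ‖ ^ 2 ≤ ρ ^ 2 / 8)
    {t : G} (ht : ∀ χ ∈ Λ₀, ‖((χ t : Circle) : ℂ) - 1‖ < 1 / 8) :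
    3 / 4 * ρ ^ 2 - ‖mC m (fun z => rest m (fun z => (f z : ℂ)) Λ₁ (z + t) *
      conj (rest m (fun z => (f z : ℂ)) Λ₁ z))‖ ≤ m (fun z => f z * f (z + t)) := by
  classical
  set F : G → ℂ := fun z => (f z : ℂ) with hF
  have hfb : Bd f := Bd.of_icc hf
  have hFb : BdC F := hfb.toC
  have hc := corr_eq hm hFb Λ₁ t
  set R : ℂ := mC m (fun z => rest m F Λ₁ (z + t) * conj (rest m F Λ₁ z)) with hR
  have hre : m (fun z => f z * f (z + t)) =
      ∑ χ ∈ Λ₁, ‖fc m F χ‖ ^ 2 * (((χ t : Circle) : ℂ)).re + R.re := by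
    have h2 : mC m (fun z => F (z + t) * conj (F z)) = ((m (fun z => f z * f (z + t)) : ℝ) : ℂ) := by
      rw [← mC_real hm.toIsPos]
      congr 1
      funext z
      rw [hF]
      simp only
      rw [Complex.conj_ofReal]
      push_cast
      ring
    rw [h2] at hc
    have h3 := congrArg Complex.re hc
    rw [Complex.ofReal_re, Complex.add_re, Complex.re_sum] at h3
    rw [h3]
    congr 1
    exact Finset.sum_congr rfl (fun χ _ => Complex.re_ofReal_mul _ _)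
  have hR' : -‖R‖ ≤ R.re := (abs_le.mp (Complex.abs_re_le_norm R)).1
  have hsplit : ∑ χ ∈ Λ₁, ‖fc m F χ‖ ^ 2 * (((χ t : Circle) : ℂ)).re =
      ∑ χ ∈ Λ₁ \ Λ₀, ‖fc m F χ‖ ^ 2 * (((χ t : Circle) : ℂ)).re +
        ∑ χ ∈ Λ₀, ‖fc m F χ‖ ^ 2 * (((χ t : Circle) : ℂ)).re :=
    (Finset.sum_sdiff hsub).symm
  have hsplit2 : ∑ χ ∈ Λ₁, ‖fc m F χ‖ ^ 2 =
      ∑ χ ∈ Λ₁ \ Λ₀, ‖fc m F χ‖ ^ 2 + ∑ χ ∈ Λ₀, ‖fc m F χ‖ ^ 2 :=
    (Finset.sum_sdiff hsub).symm
  have b1 : -(∑ χ ∈ Λ₁ \ Λ₀, ‖fc m F χ‖ ^ 2) ≤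
      ∑ χ ∈ Λ₁ \ Λ₀, ‖fc m F χ‖ ^ 2 * (((χ t : Circle) : ℂ)).re := by
    rw [← Finset.sum_neg_distrib]
    refine Finset.sum_le_sum (fun χ _ => ?_)
    have h4 : -1 ≤ (((χ t : Circle) : ℂ)).re := by
      have := (abs_le.mp (Complex.abs_re_le_norm ((χ t : Circle) : ℂ))).1
      rwa [Circle.norm_coe] at this
    nlinarith [sq_nonneg ‖fc m F χ‖]
  have b2 : 7 / 8 * ρ ^ 2 ≤ ∑ χ ∈ Λ₀, ‖fc m F χ‖ ^ 2 * (((χ t : Circle) : ℂ)).re := by
    have h4 : ∀ χ ∈ Λ₀, 7 / 8 * ‖fc m F χ‖ ^ 2 ≤ ‖fc m F χ‖ ^ 2 * (((χ t : Circle) : ℂ)).re := by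
      intro χ hχ
      have h5 := (abs_le.mp (Complex.abs_re_le_norm (((χ t : Circle) : ℂ) - 1))).1
      have h6 := ht χ hχ
      rw [Complex.sub_re, Complex.one_re] at h5
      have h7 : 7 / 8 ≤ (((χ t : Circle) : ℂ)).re := by linarith
      nlinarith [sq_nonneg ‖fc m F χ‖]
    have h8 : 7 / 8 * ‖fc m F 1‖ ^ 2 ≤ ∑ χ ∈ Λ₀, ‖fc m F χ‖ ^ 2 * (((χ t : Circle) : ℂ)).re := by
      refine le_trans ?_ (Finset.sum_le_sum h4)
      exact Finset.single_le_sum (f := fun χ => 7 / 8 * ‖fc m F χ‖ ^ 2)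
        (fun χ _ => by positivity) h1
    have h9 : fc m F 1 = ((m f : ℝ) : ℂ) := by
      unfold fc
      rw [← mC_real hm.toIsPos]
      congr 1
      funext z
      rw [AddChar.one_apply, Circle.coe_one, map_one, mul_one]
    rw [h9, Complex.norm_real, Real.norm_eq_abs, sq_abs] at h8
    have h10 : ρ ^ 2 ≤ m f ^ 2 := pow_le_pow_left₀ hρ.le hfρ 2
    linarith
  rw [hre, hsplit]
  linarith

end Corr

/-- finitely many positive numbers have a positive lower bound -/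
lemma exists_lb (b : ℕ → ℝ) (hb : ∀ s, 0 < b s) (T : ℕ) : ∃ c : ℝ, 0 < c ∧ ∀ s < T, c ≤ b s := by
  induction T with
  | zero => exact ⟨1, one_pos, fun s hs => absurd hs (Nat.not_lt_zero s)⟩
  | succ T ih =>
    obtain ⟨c, hc, h⟩ := ih
    refine ⟨min c (b T), lt_min hc (hb T), fun s hs => ?_⟩
    rcases Nat.lt_succ_iff_lt_or_eq.mp hs with h1 | h1
    · exact (min_le_left _ _).trans (h s h1)
    · rw [h1]
      exact min_le_right _ _

/-- pigeonhole for a bounded sequence -/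
lemma exists_small_step (E : ℕ → ℝ) (h0 : 0 ≤ E 0) (h1 : ∀ s, E s ≤ 1) {τ : ℝ} {T : ℕ}
    (hT : 1 < T * τ) : ∃ s < T, E (s + 1) - E s ≤ τ := by
  by_contra hcon
  push Not at hcon
  have h2 : ∀ s ≤ T, s * τ ≤ E s := by
    intro s
    induction s with
    | zero => intro _; simpa using h0
    | succ s ih =>
      intro hs
      have h3 := ih (by omega)
      have h4 := hcon s (by omega)
      push_cast
      linarith
  have h3 := h2 T le_rfl
  linarith [h1 T]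

theorem pos (hinv : S_inv.{u}) (hbes : S_bessel.{u}) (hlarge : S_large.{u}) (hdom : S_dom.{u})
    (hbd : S_bdens.{u}) : S_pos.{u} := by
  classical
  intro r l ζ ρ n n₃ hζ hρ hn hn₃
  have hn' : (0 : ℝ) < n := by exact_mod_cast Nat.pos_of_ne_zero hn
  have hn3' : (0 : ℝ) < n₃ := by exact_mod_cast Nat.pos_of_ne_zero hn₃
  have hr' : (0 : ℝ) < (r : ℝ) + 1 := by positivity
  have hz : (0 : ℝ) < min (1 / 8) ζ := lt_min (by norm_num) hζ
  -- the lower bounds for the Bohr sets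
  let βf : ℝ → ℝ := fun e => (hbd (r * ⌈1 / e ^ 2⌉₊ + l) (min (1 / 8) ζ) hz).choose
  have hβf : ∀ e, 0 < βf e := fun e => (hbd (r * ⌈1 / e ^ 2⌉₊ + l) (min (1 / 8) ζ) hz).choose_spec.1
  have hβf' : ∀ (e : ℝ) (G : Type u) [AddCommGroup G] (m : (G → ℝ) → ℝ), IsInvMean m →
      ∀ χ : Fin (r * ⌈1 / e ^ 2⌉₊ + l) → AddChar G Circle,
        βf e ≤ m (ind (bohr χ (min (1 / 8) ζ))) :=
    fun e => (hbd (r * ⌈1 / e ^ 2⌉₊ + l) (min (1 / 8) ζ) hz).choose_spec.2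
  -- the scales
  let nx : ℝ → ℝ := fun e => min e (ρ ^ 2 * βf e / (8 * ((r + 1) * n₃)))
  let ε : ℕ → ℝ := fun s => nx^[s] ρ
  have hε0 : ε 0 = ρ := rfl
  have hεs : ∀ s, ε (s + 1) = nx (ε s) := fun s => Function.iterate_succ_apply' nx s ρ
  have hεpos : ∀ s, 0 < ε s := by
    intro s
    induction s with
    | zero => exact hρ
    | succ s ih =>
      rw [hεs]
      exact lt_min ih (by have := hβf (ε s); positivity)
  have hεle : ∀ s, ε (s + 1) ≤ ε s := fun s => by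
    rw [hεs]
    exact min_le_left _ _
  have hερ : ∀ s, ε s ≤ ρ := by
    intro s
    induction s with
    | zero => exact le_rfl
    | succ s ih => exact (hεle s).trans ih
  obtain ⟨T, hT⟩ : ∃ T : ℕ, 1 < T * (ρ ^ 2 / 8) := by
    obtain ⟨T, hT⟩ := exists_nat_gt (1 / (ρ ^ 2 / 8))
    refine ⟨T, ?_⟩
    rwa [div_lt_iff₀ (by positivity)] at hT
  obtain ⟨β₀, hβ₀, hβle⟩ := exists_lb (fun s => βf (ε s)) (fun s => hβf _) T
  refine ⟨ρ ^ 2 * β₀ / (4 * (r + 1)), β₀ / (2 * (n * (r + 1))), by positivity, by positivity, ?_⟩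
  intro G _ φ φ₃ hφ hφ₃ m M hm he hM hMd A hcov hdis hgap ξ
  -- the indicator functions
  let f : Fin r → G → ℝ := fun i => ind (A i)
  have hf : ∀ i x, 0 ≤ f i x ∧ f i x ≤ 1 := fun i => ind_icc (A i)
  have hfb : ∀ i, Bd (f i) := fun i => bd_ind (A i)
  let F : Fin r → G → ℂ := fun i z => (f i z : ℂ)
  have hFb : ∀ i, BdC (F i) := fun i => (hfb i).toC
  have hFn : ∀ i x, ‖F i x‖ ≤ 1 := fun i x => by
    show ‖((f i x : ℝ) : ℂ)‖ ≤ 1
    rw [Complex.norm_real, Real.norm_eq_abs, abs_of_nonneg (hf i x).1]; exact (hf i x).2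
  have hsum1 : ∀ x, ∑ i, f i x = 1 := by
    intro x
    obtain ⟨i, hi⟩ := hcov x
    rw [Finset.sum_eq_single i]
    · exact ind_mem hi
    · intro j _ hj
      exact ind_notMem (fun h => Set.disjoint_left.mp (hdis j i hj) h hi)
    · exact fun h => absurd (Finset.mem_univ _) h
  choose Λ hΛ using fun (s : ℕ) (i : Fin r) => hlarge G m hm (F i) (hFn i) (ε s) (hεpos s)
  have hΛc : ∀ s i, ((Λ s i).card : ℝ) ≤ 1 / ε s ^ 2 := fun s i => by
    rw [le_div_iff₀ (by have := hεpos s; positivity)]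
    exact (hΛ s i).1
  have hΛm : ∀ s i (χ : AddChar G Circle), χ ∈ Λ s i ↔ ε s ≤ ‖fc m (F i) χ‖ :=
    fun s i χ => (hΛ s i).2 χ
  have hΛmono : ∀ s i, Λ s i ⊆ Λ (s + 1) i := by
    intro s i χ hχ
    rw [hΛm] at hχ ⊢
    exact (hεle s).trans hχ
  let D : Finset (Fin r) := Finset.univ.filter (fun i => ρ ≤ m (f i))
  have hD : ∀ i, i ∈ D ↔ ρ ≤ m (f i) := fun i => by
    show i ∈ Finset.univ.filter (fun i => ρ ≤ m (f i)) ↔ _
    rw [Finset.mem_filter]
    exact ⟨fun h => h.2, fun h => ⟨Finset.mem_univ _, h⟩⟩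
  -- the energies
  let E : ℕ → ℝ := fun s => ∑ i ∈ D, ∑ χ ∈ Λ s i, ‖fc m (F i) χ‖ ^ 2
  have hE0 : 0 ≤ E 0 := Finset.sum_nonneg (fun i _ => Finset.sum_nonneg (fun χ _ => by positivity))
  have hbess : ∀ i (Λ' : Finset (AddChar G Circle)),
      m (fun z => ‖rest m (F i) Λ' z‖ ^ 2) = m (f i) - ∑ χ ∈ Λ', ‖fc m (F i) χ‖ ^ 2 := by
    intro i Λ'
    have h1 := bessel_eq hm Λ' (hFb i)
    have h2 : (fun z => ‖F i z‖ ^ 2) = f i := by
      funext z
      show ‖((f i z : ℝ) : ℂ)‖ ^ 2 = f i z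
      rw [Complex.norm_real, Real.norm_eq_abs, sq_abs]
      show (ind (A i) z) ^ 2 = ind (A i) z
      by_cases h : z ∈ A i
      · rw [ind_mem h, one_pow]
      · rw [ind_notMem h]
        norm_num
    rw [h2] at h1
    exact h1
  have hE1 : ∀ s, E s ≤ 1 := by
    intro s
    have h1 : E s ≤ ∑ i ∈ D, m (f i) := by
      refine Finset.sum_le_sum (fun i _ => ?_)
      have h2 := hbess i (Λ s i)
      have h3 : 0 ≤ m (fun z => ‖rest m (F i) (Λ s i) z‖ ^ 2) :=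
        hm.nonneg _ (rest_bd (hFb i) _).normSq (fun z => by positivity)
      linarith
    have h2 : ∑ i ∈ D, m (f i) ≤ ∑ i, m (f i) :=
      Finset.sum_le_sum_of_subset_of_nonneg (Finset.subset_univ D)
        (fun i _ _ => hm.nonneg _ (hfb i) (fun x => (hf i x).1))
    have h3 : ∑ i, m (f i) = 1 := by
      rw [← hm.toIsPos.sum Finset.univ (fun i _ => hfb i), funext hsum1, hm.one]
    linarith
  obtain ⟨s, hsT, hs⟩ := exists_small_step E hE0 hE1 hT
  set β := βf (ε s) with hβdef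
  have hβpos : 0 < β := hβf _
  have hβ₀β : β₀ ≤ β := hβle s hsT
  -- the rests
  let e : Fin r → G → ℂ := fun i => rest m (F i) (Λ (s + 1) i)
  have heb : ∀ i, BdC (e i) := fun i => rest_bd (hFb i) _
  have heL : ∀ i (χ : AddChar G Circle),
      ‖mC m (fun z => e i z * conj ((χ z : Circle) : ℂ))‖ ≤ ε (s + 1) := by
    intro i χ
    show ‖fc m (rest m (F i) (Λ (s + 1) i)) χ‖ ≤ ε (s + 1)
    by_cases hχ : χ ∈ Λ (s + 1) i
    · rw [fc_rest hm (hFb i) hχ, norm_zero]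
      exact (hεpos _).le
    · rw [fc_rest' hm (hFb i) hχ]
      rw [hΛm] at hχ
      exact (not_le.mp hχ).le
  have hem : ∀ i, m (fun z => ‖e i z‖ ^ 2) ≤ 1 := by
    intro i
    have h2 := hbess i (Λ (s + 1) i)
    have h3 : 0 ≤ ∑ χ ∈ Λ (s + 1) i, ‖fc m (F i) χ‖ ^ 2 :=
      Finset.sum_nonneg (fun χ _ => by positivity)
    have h4 : m (f i) ≤ 1 := hm.toIsMean.le_of_le (hfb i) (fun x => (hf i x).2)
    show m (fun z => ‖rest m (F i) (Λ (s + 1) i) z‖ ^ 2) ≤ 1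
    linarith
  let R : Fin r → KK φ φ₃ → ℝ := fun i κ => ‖mC m (fun z => e i (z + κ.1.1) * conj (e i z))‖
  have hRb : ∀ i, Bd (R i) := by
    intro i
    obtain ⟨C, hC⟩ := heb i
    refine BdC.norm (BdC.iter hm.toIsMean (C := C * C) (fun κ z => ?_))
    rw [norm_mul, RCLike.norm_conj]
    exact mul_le_mul (hC _) (hC _) (norm_nonneg _) ((norm_nonneg _).trans (hC 0))
  have hMR : ∀ i, M (R i) ≤ n₃ * ε (s + 1) := by
    intro i
    have h1 := avg_corr (φ := φ) (φ₃ := φ₃) (M := M) hinv hdom hm he hM (by rw [hφ₃]; exact hn₃)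
      (heb i) (heb i) (hεpos (s + 1)).le (heL i)
    have h2 : (fun κ : KK φ φ₃ => ‖mC m (fun z => e i (z + -κ.1.1) * conj (e i z))‖ ^ 2) =
        fun κ => R i κ ^ 2 := by
      funext κ
      rw [norm_corr_neg hm (heb i)]
    rw [h2, hφ₃] at h1
    have h3 := hM.toIsPos.cs (hRb i) (Bd.const (X := KK φ φ₃) 1)
    have h4 : M (R i) ^ 2 ≤ M (fun κ => R i κ ^ 2) := by
      simpa only [mul_one, one_pow, hM.one] using h3
    have h5 : (n₃ : ℝ) * (ε (s + 1) ^ 2 * m (fun z => ‖e i z‖ ^ 2)) ≤ (n₃ * ε (s + 1)) ^ 2 := by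
      have h6 : ε (s + 1) ^ 2 * m (fun z => ‖e i z‖ ^ 2) ≤ ε (s + 1) ^ 2 * 1 := by
        have := hem i
        gcongr
      have h7 : (1 : ℝ) ≤ n₃ := by exact_mod_cast Nat.pos_of_ne_zero hn₃
      calc (n₃ : ℝ) * (ε (s + 1) ^ 2 * m (fun z => ‖e i z‖ ^ 2)) ≤ n₃ * (ε (s + 1) ^ 2 * 1) := by
            gcongr
        _ ≤ n₃ * (ε (s + 1) ^ 2 * n₃) := by gcongr
        _ = (n₃ * ε (s + 1)) ^ 2 := by ring
    exact le_of_sq_le_sq (h4.trans (h1.trans h5)) (by have := hεpos (s + 1); positivity)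
  -- the Bohr set
  let W : Set (KK φ φ₃) := {κ | (∀ i ∈ D, ∀ χ ∈ Λ s i, ‖((χ κ.1.1 : Circle) : ℂ) - 1‖ < 1 / 8) ∧
    κ.1.2 ∈ bohr ξ ζ}
  have hMW : β ≤ M (ind W) := by
    let p₁ : KK φ φ₃ →+ G := (AddMonoidHom.fst G G).comp (KK φ φ₃).subtype
    let p₂ : KK φ φ₃ →+ G := (AddMonoidHom.snd G G).comp (KK φ φ₃).subtype
    let T₁ : Finset (AddChar (KK φ φ₃) Circle) :=
      Finset.univ.biUnion (fun i => (Λ s i).image (fun χ => χ.compAddMonoidHom p₁))
    have hT₁ : T₁.card ≤ r * ⌈1 / ε s ^ 2⌉₊ := by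
      refine Finset.card_biUnion_le.trans ?_
      refine (Finset.sum_le_card_nsmul _ _ ⌈1 / ε s ^ 2⌉₊ (fun i _ => ?_)).trans ?_
      · refine Finset.card_image_le.trans ?_
        exact_mod_cast (hΛc s i).trans (Nat.le_ceil _)
      · rw [Finset.card_univ, Fintype.card_fin, smul_eq_mul]
    obtain ⟨χ₁, hχ₁⟩ := exists_enum T₁ _ hT₁ 1
    have h1 := hβf' (ε s) (KK φ φ₃) M hM
      (Fin.append χ₁ (fun j => (ξ j).compAddMonoidHom p₂))
    refine h1.trans (hM.toIsPos.mono (bd_ind _) (bd_ind _) (fun κ => ?_))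
    by_cases hκ : κ ∈ bohr (Fin.append χ₁ (fun j => (ξ j).compAddMonoidHom p₂)) (min (1 / 8) ζ)
    · have hκW : κ ∈ W := by
        obtain ⟨h2, h3⟩ := bohr_append χ₁ (fun j => (ξ j).compAddMonoidHom p₂)
          (min_le_left (1 / 8) ζ) (min_le_right (1 / 8) ζ) hκ
        refine ⟨fun i _ χ hχ => ?_, fun j => h3 j⟩
        obtain ⟨a, ha⟩ := hχ₁ (χ.compAddMonoidHom p₁) (Finset.mem_biUnion.mpr
          ⟨i, Finset.mem_univ i, Finset.mem_image.mpr ⟨χ, hχ, rfl⟩⟩)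
        have h4 := h2 a
        rw [ha] at h4
        exact h4
      rw [ind_mem hκW]
      exact (ind_icc _ _).2
    · rw [ind_notMem hκ]
      exact (ind_icc _ _).1
  -- the correlations
  let Co : Fin r → KK φ φ₃ → ℝ := fun i κ => m (fun z => f i z * f i (z + κ.1.1))
  have hCob : ∀ i, Bd (Co i) := fun i => Bd.iter hm.toIsMean (C := 1) (fun κ z => by
    have h1 := hf i z
    have h2 := hf i (z + κ.1.1)
    rw [abs_of_nonneg (mul_nonneg h1.1 h2.1)]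
    nlinarith [h1.1, h1.2, h2.1, h2.2])
  have hCo0 : ∀ i κ, 0 ≤ Co i κ := fun i κ => hm.nonneg _
    ((hfb i).mul ((hfb i).comp (fun z => z + κ.1.1))) (fun z => mul_nonneg (hf i _).1 (hf i _).1)
  have hEi : ∀ i ∈ D, ∑ χ ∈ Λ (s + 1) i, ‖fc m (F i) χ‖ ^ 2 - ∑ χ ∈ Λ s i, ‖fc m (F i) χ‖ ^ 2 ≤
      ρ ^ 2 / 8 := by
    intro i hi
    have h1 : E (s + 1) - E s = ∑ i ∈ D, (∑ χ ∈ Λ (s + 1) i, ‖fc m (F i) χ‖ ^ 2 -
        ∑ χ ∈ Λ s i, ‖fc m (F i) χ‖ ^ 2) := (Finset.sum_sub_distrib _ _).symm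
    have h2 : ∀ j ∈ D, 0 ≤ ∑ χ ∈ Λ (s + 1) j, ‖fc m (F j) χ‖ ^ 2 -
        ∑ χ ∈ Λ s j, ‖fc m (F j) χ‖ ^ 2 := by
      intro j _
      have := Finset.sum_le_sum_of_subset_of_nonneg (hΛmono s j)
        (f := fun χ => ‖fc m (F j) χ‖ ^ 2) (fun χ _ _ => by positivity)
      linarith
    have h3 := Finset.single_le_sum h2 hi
    linarith
  have hCoW : ∀ i ∈ D, ∀ κ ∈ W, 3 / 4 * ρ ^ 2 - R i κ ≤ Co i κ := by
    intro i hi κ hκ
    refine cor_lower hm (hf i) hρ ((hD i).mp hi) (hΛmono s i) ?_ (hEi i hi)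
      (fun χ hχ => hκ.1 i hi χ hχ)
    rw [hΛm]
    have h9 : fc m (F i) 1 = ((m (f i) : ℝ) : ℂ) := by
      unfold fc
      rw [← mC_real hm.toIsPos]
      congr 1
      funext z
      rw [AddChar.one_apply, Circle.coe_one, map_one, mul_one]
    rw [h9, Complex.norm_real, Real.norm_eq_abs]
    exact (hερ s).trans (((hD i).mp hi).trans (le_abs_self _))
  -- the main estimate
  let H : Fin r → KK φ φ₃ → ℝ := fun i κ => ind W κ * (f i κ.1.2 * Co i κ)
  have hf2b : ∀ i, Bd (fun κ : KK φ φ₃ => f i κ.1.2) := fun i => (hfb i).comp (fun κ : KK φ φ₃ => κ.1.2)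
  have hHb : ∀ i, Bd (H i) := fun i => (bd_ind W).mul ((hf2b i).mul (hCob i))
  have hpt : ∀ κ : KK φ φ₃, 3 / 4 * ρ ^ 2 * (ind W κ - ∑ i ∈ Finset.univ \ D, f i κ.1.2) -
      ∑ i ∈ D, R i κ ≤ ∑ i ∈ D, H i κ := by
    intro κ
    have h1 : ∀ i ∈ D, 3 / 4 * ρ ^ 2 * (ind W κ * f i κ.1.2) - R i κ ≤ H i κ := by
      intro i hi
      have hR0 : 0 ≤ R i κ := norm_nonneg _
      show _ ≤ ind W κ * (f i κ.1.2 * Co i κ)
      by_cases hκ : κ ∈ W
      · rw [ind_mem hκ, one_mul, one_mul]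
        have h2 := hCoW i hi κ hκ
        have h3 := hf i κ.1.2
        nlinarith [h3.1, h3.2, mul_le_mul_of_nonneg_left h2 h3.1]
      · rw [ind_notMem hκ, zero_mul, zero_mul, mul_zero]
        linarith
    have h2 : ∑ i ∈ D, (3 / 4 * ρ ^ 2 * (ind W κ * f i κ.1.2) - R i κ) ≤ ∑ i ∈ D, H i κ :=
      Finset.sum_le_sum h1
    rw [Finset.sum_sub_distrib, ← Finset.mul_sum, ← Finset.mul_sum] at h2
    have h3 : ∑ i ∈ D, f i κ.1.2 = 1 - ∑ i ∈ Finset.univ \ D, f i κ.1.2 := by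
      have h4 := Finset.sum_sdiff (Finset.subset_univ D) (f := fun i => f i κ.1.2)
      have h5 := hsum1 κ.1.2
      linarith
    have h6 : 0 ≤ ∑ i ∈ Finset.univ \ D, f i κ.1.2 := Finset.sum_nonneg (fun i _ => (hf i _).1)
    have h7 : ind W κ - ∑ i ∈ Finset.univ \ D, f i κ.1.2 ≤ ind W κ * ∑ i ∈ D, f i κ.1.2 := by
      rw [h3]
      have h8 := ind_icc W κ
      nlinarith [h8.1, h8.2]
    have h9 : 3 / 4 * ρ ^ 2 * (ind W κ - ∑ i ∈ Finset.univ \ D, f i κ.1.2) ≤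
        3 / 4 * ρ ^ 2 * (ind W κ * ∑ i ∈ D, f i κ.1.2) := by
      gcongr
    linarith
  have hrr : (D.card : ℝ) ≤ r := by
    exact_mod_cast (Finset.card_le_univ D).trans_eq (Fintype.card_fin r)
  have hmain : ρ ^ 2 * β / 4 ≤ ∑ i ∈ D, M (H i) := by
    have b1 : Bd (fun κ : KK φ φ₃ => ind W κ - ∑ i ∈ Finset.univ \ D, f i κ.1.2) :=
      (bd_ind W).sub (Bd.sum _ (fun i _ => hf2b i))
    have b2 : Bd (fun κ : KK φ φ₃ => ∑ i ∈ D, R i κ) := Bd.sum _ (fun i _ => hRb i)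
    have h1 := hM.toIsPos.mono ((b1.smul (3 / 4 * ρ ^ 2)).sub b2) (Bd.sum _ (fun i _ => hHb i)) hpt
    rw [hM.toIsPos.sub (b1.smul (3 / 4 * ρ ^ 2)) b2, hM.smul _ _ b1,
      hM.toIsPos.sub (bd_ind W) (Bd.sum _ (fun i _ => hf2b i)),
      hM.toIsPos.sum _ (fun i _ => hf2b i), hM.toIsPos.sum _ (fun i _ => hRb i),
      hM.toIsPos.sum _ (fun i _ => hHb i)] at h1
    have h2 : ∑ i ∈ Finset.univ \ D, M (fun κ : KK φ φ₃ => f i κ.1.2) ≤ β / 2 := by
      have h3 : ∀ i ∈ Finset.univ \ D, M (fun κ : KK φ φ₃ => f i κ.1.2) ≤ β / (2 * (r + 1)) := by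
        intro i hi
        have h4 : ¬ ρ ≤ m (f i) := fun h => (Finset.mem_sdiff.mp hi).2 ((hD i).mpr h)
        have h5 := hgap i (not_le.mp h4)
        have h6 := hMd (f i) (hfb i) (fun x => (hf i x).1)
        calc M (fun κ : KK φ φ₃ => f i κ.1.2) ≤ n * m (f i) := h6
          _ ≤ n * (β₀ / (2 * (n * (r + 1)))) := by gcongr
          _ = β₀ / (2 * (r + 1)) := by field_simp
          _ ≤ β / (2 * (r + 1)) := by gcongr
      refine (Finset.sum_le_card_nsmul _ _ _ h3).trans ?_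
      have h7 : ((Finset.univ \ D).card : ℝ) ≤ r := by
        exact_mod_cast (Finset.card_le_univ _).trans_eq (Fintype.card_fin r)
      rw [nsmul_eq_mul]
      calc ((Finset.univ \ D).card : ℝ) * (β / (2 * (r + 1))) ≤ r * (β / (2 * (r + 1))) := by
            gcongr
        _ = (r / (r + 1)) * (β / 2) := by field_simp
        _ ≤ 1 * (β / 2) := by
            gcongr
            rw [div_le_one hr']
            linarith
        _ = β / 2 := one_mul _
    have h3 : ∑ i ∈ D, M (R i) ≤ ρ ^ 2 * β / 8 := by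
      refine (Finset.sum_le_card_nsmul _ _ _ (fun i _ => hMR i)).trans ?_
      rw [nsmul_eq_mul]
      have h4 : ε (s + 1) ≤ ρ ^ 2 * β / (8 * ((r + 1) * n₃)) := by
        rw [hεs]
        exact min_le_right _ _
      calc (D.card : ℝ) * (n₃ * ε (s + 1))
          ≤ r * (n₃ * (ρ ^ 2 * β / (8 * ((r + 1) * n₃)))) := by
            have := hεpos (s + 1)
            gcongr
        _ = (r / (r + 1)) * (ρ ^ 2 * β / 8) := by field_simp
        _ ≤ 1 * (ρ ^ 2 * β / 8) := by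
            gcongr
            rw [div_le_one hr']
            linarith
        _ = ρ ^ 2 * β / 8 := one_mul _
    have h4 : 3 / 4 * ρ ^ 2 * (β - β / 2) ≤
        3 / 4 * ρ ^ 2 * (M (ind W) - ∑ i ∈ Finset.univ \ D, M (fun κ : KK φ φ₃ => f i κ.1.2)) := by
      gcongr
    nlinarith
  obtain ⟨i, hiD, hi⟩ : ∃ i ∈ D, ρ ^ 2 * β / (4 * (r + 1)) ≤ M (H i) := by
    by_contra hcon
    push Not at hcon
    have h1 : ∑ i ∈ D, M (H i) ≤ D.card • (ρ ^ 2 * β / (4 * (r + 1))) :=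
      Finset.sum_le_card_nsmul _ _ _ (fun i hi => (hcon i hi).le)
    rw [nsmul_eq_mul] at h1
    have h2 : (D.card : ℝ) * (ρ ^ 2 * β / (4 * (r + 1))) < ρ ^ 2 * β / 4 := by
      calc (D.card : ℝ) * (ρ ^ 2 * β / (4 * (r + 1))) ≤ r * (ρ ^ 2 * β / (4 * (r + 1))) := by
            gcongr
        _ = (r / (r + 1)) * (ρ ^ 2 * β / 4) := by field_simp
        _ < 1 * (ρ ^ 2 * β / 4) := by
            gcongr
            rw [div_lt_one hr']
            linarith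
        _ = ρ ^ 2 * β / 4 := one_mul _
    linarith
  have hc1 : ρ ^ 2 * β₀ / (4 * (r + 1)) ≤ ρ ^ 2 * β / (4 * (r + 1)) := by gcongr
  refine ⟨i, (hD i).mp hiD, ?_, ?_⟩
  · refine (hc1.trans hi).trans ?_
    show M (H i) ≤ M (fun κ => f i κ.1.2 * Co i κ)
    refine hM.toIsPos.mono (hHb i) ((hf2b i).mul (hCob i)) (fun κ => ?_)
    have h1 : 0 ≤ f i κ.1.2 * Co i κ := mul_nonneg (hf i _).1 (hCo0 i κ)
    have h2 := ind_icc W κ
    show ind W κ * (f i κ.1.2 * Co i κ) ≤ f i κ.1.2 * Co i κ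
    nlinarith [h2.1, h2.2]
  · have hpos : 0 < M (H i) := lt_of_lt_of_le (by positivity) hi
    obtain ⟨κ, hκ⟩ := hM.toIsMean.exists_pos (hHb i) hpos
    have hκW : κ ∈ W := by
      by_contra hcon
      have : H i κ = 0 := by
        show ind W κ * (f i κ.1.2 * Co i κ) = 0
        rw [ind_notMem hcon, zero_mul]
      rw [this] at hκ
      exact lt_irrefl _ hκ
    have hκA : κ.1.2 ∈ A i := by
      by_contra hcon
      have : H i κ = 0 := by
        show ind W κ * (ind (A i) κ.1.2 * Co i κ) = 0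
        rw [ind_notMem hcon, zero_mul, mul_zero]
      rw [this] at hκ
      exact lt_irrefl _ hκ
    exact ⟨κ.1.2, hκA, hκW.2⟩

end Q136.BM
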