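import Pool.Agent.Q136.BM.Core

/-!
# A large count gives a Bohr set
-/

namespace Q136.BM

open scoped ComplexConjugate BigOperators

universe u

section Setup

variable {G : Type u} [AddCommGroup G]

/-- the count -/
noncomputable def NS (m : (G → ℝ) → ℝ) {φ φ₃ : G →+ G} (M : (KK φ φ₃ → ℝ) → ℝ)
    (f F : G → ℝ) : ℝ :=
  M (fun κ => f κ.1.2 * m (fun z => F z * f (z + κ.1.1)))

/-- the complex count -/
noncomputable def NSC (m : (G → ℝ) → ℝ) {φ φ₃ : G →+ G} (M : (KK φ φ₃ → ℝ) → ℝ)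
    (f : G → ℝ) (F : G → ℂ) : ℂ :=
  mC M (fun κ => (f κ.1.2 : ℂ) * mC m (fun z => F z * (f (z + κ.1.1) : ℂ)))

variable {m : (G → ℝ) → ℝ} {φ φ₃ : G →+ G} {M : (KK φ φ₃ → ℝ) → ℝ} {f : G → ℝ}

lemma bd_in (hf : ∀ x, 0 ≤ f x ∧ f x ≤ 1) {F : G → ℝ} {C : ℝ} (hF : ∀ x, |F x| ≤ C)
    (κ : KK φ φ₃) (z : G) : |F z * f (z + κ.1.1)| ≤ C := by
  have h1 := hf (z + κ.1.1)
  rw [abs_mul, abs_of_nonneg h1.1]
  nlinarith [abs_nonneg (F z), h1.1, h1.2, hF z]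

lemma bdC_in (hf : ∀ x, 0 ≤ f x ∧ f x ≤ 1) {F : G → ℂ} {C : ℝ} (hF : ∀ x, ‖F x‖ ≤ C)
    (κ : KK φ φ₃) (z : G) : ‖F z * (f (z + κ.1.1) : ℂ)‖ ≤ C := by
  have h1 := hf (z + κ.1.1)
  rw [norm_mul, Complex.norm_real, Real.norm_eq_abs, abs_of_nonneg h1.1]
  nlinarith [norm_nonneg (F z), h1.1, h1.2, hF z]

lemma bd_f2 (hf : ∀ x, 0 ≤ f x ∧ f x ≤ 1) : Bd (fun κ : KK φ φ₃ => f κ.1.2) :=
  Bd.of_icc (a := 0) (b := 1) (fun κ => hf _)

lemma bd_out (hm : IsMean m) (hf : ∀ x, 0 ≤ f x ∧ f x ≤ 1) {F : G → ℝ} (hF : Bd F) :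
    Bd (fun κ : KK φ φ₃ => f κ.1.2 * m (fun z => F z * f (z + κ.1.1))) := by
  obtain ⟨C, hC⟩ := hF
  exact (bd_f2 hf).mul (Bd.iter hm (bd_in hf hC))

lemma bdC_out (hm : IsMean m) (hf : ∀ x, 0 ≤ f x ∧ f x ≤ 1) {F : G → ℂ} (hF : BdC F) :
    BdC (fun κ : KK φ φ₃ => (f κ.1.2 : ℂ) * mC m (fun z => F z * (f (z + κ.1.1) : ℂ))) := by
  obtain ⟨C, hC⟩ := hF
  exact (bd_f2 hf).toC.mul (BdC.iter hm (bdC_in hf hC))

lemma NS_sub (hm : IsMean m) (hM : IsMean M) (hf : ∀ x, 0 ≤ f x ∧ f x ≤ 1) {F F' : G → ℝ}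
    (hF : Bd F) (hF' : Bd F') :
    NS m M f (fun x => F x - F' x) = NS m M f F - NS m M f F' := by
  unfold NS
  rw [← hM.toIsPos.sub (bd_out hm hf hF) (bd_out hm hf hF')]
  congr 1
  funext κ
  obtain ⟨C, hC⟩ := hF
  obtain ⟨D, hD⟩ := hF'
  rw [← mul_sub, ← hm.toIsPos.sub ⟨C, bd_in hf hC κ⟩ ⟨D, bd_in hf hD κ⟩]
  congr 2
  funext z
  ring

lemma NS_smul (hm : IsMean m) (hM : IsMean M) (hf : ∀ x, 0 ≤ f x ∧ f x ≤ 1) (c : ℝ) {F : G → ℝ}
    (hF : Bd F) : NS m M f (fun x => c * F x) = c * NS m M f F := by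
  unfold NS
  rw [← hM.toIsPos.smul _ _ (bd_out hm hf hF)]
  congr 1
  funext κ
  obtain ⟨C, hC⟩ := hF
  rw [mul_left_comm, ← hm.toIsPos.smul _ _ ⟨C, bd_in hf hC κ⟩]
  congr 2
  funext z
  ring

lemma NS_sum (hm : IsMean m) (hM : IsMean M) (hf : ∀ x, 0 ≤ f x ∧ f x ≤ 1) {ι : Type*}
    (s : Finset ι) {F : ι → G → ℝ} (hF : ∀ i, Bd (F i)) :
    NS m M f (fun x => ∑ i ∈ s, F i x) = ∑ i ∈ s, NS m M f (F i) := by
  unfold NS
  rw [← hM.toIsPos.sum s (fun i _ => bd_out hm hf (hF i))]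
  congr 1
  funext κ
  choose C hC using hF
  rw [← Finset.mul_sum, ← hm.toIsPos.sum s (fun i _ => ⟨C i, bd_in hf (hC i) κ⟩)]
  congr 2
  funext z
  rw [Finset.sum_mul]

lemma NSC_real (hm : IsMean m) (hM : IsMean M) (F : G → ℝ) :
    NSC m M f (fun x => (F x : ℂ)) = (NS m M f F : ℂ) := by
  unfold NSC NS
  rw [← mC_real hM.toIsPos]
  congr 1
  funext κ
  push_cast
  rw [← mC_real hm.toIsPos]
  congr 2
  funext z
  push_cast
  ring

lemma NSC_add (hm : IsMean m) (hM : IsMean M) (hf : ∀ x, 0 ≤ f x ∧ f x ≤ 1) {F F' : G → ℂ}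
    (hF : BdC F) (hF' : BdC F') :
    NSC m M f (fun x => F x + F' x) = NSC m M f F + NSC m M f F' := by
  unfold NSC
  rw [← mC_add hM.toIsPos (bdC_out hm hf hF) (bdC_out hm hf hF')]
  congr 1
  funext κ
  obtain ⟨C, hC⟩ := hF
  obtain ⟨D, hD⟩ := hF'
  rw [← mul_add, ← mC_add hm.toIsPos ⟨C, bdC_in hf hC κ⟩ ⟨D, bdC_in hf hD κ⟩]
  congr 2
  funext z
  ring

/-- invariance under the kernel of `φ` -/
lemma NS_ker (hm : IsInvMean m) (hM : IsInvMean M) (hf : ∀ x, 0 ≤ f x ∧ f x ≤ 1) {F : G → ℝ}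
    (hF : Bd F) {s : G} (hs : φ s = 0) :
    NS m M f (fun x => F (x + s)) = NS m M f F := by
  have hmem : ((s, 0) : G × G) ∈ KK φ φ₃ := by
    rw [mem_KK, hs, map_zero]
  unfold NS
  rw [← hM.inv (fun κ => f κ.1.2 * m (fun z => F (z + s) * f (z + κ.1.1))) ⟨_, hmem⟩
    (bd_out hm.toIsMean hf (hF.comp (fun z => z + s)))]
  congr 1
  funext κ
  have e1 : (κ + ⟨_, hmem⟩ : KK φ φ₃).1 = (κ.1.1 + s, κ.1.2 + 0) := rfl
  rw [e1]
  simp only [add_zero]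
  congr 1
  obtain ⟨C, hC⟩ := hF
  rw [← hm.inv (fun z => F z * f (z + κ.1.1)) s ⟨C, bd_in hf hC κ⟩]
  congr 1
  funext z
  congr 2
  abel

/-- the trivial bound -/
lemma NSC_le (hm : IsInvMean m) (hM : IsMean M) (hf : ∀ x, 0 ≤ f x ∧ f x ≤ 1) {F : G → ℂ}
    (hF : BdC F) : ‖NSC m M f F‖ ≤ Real.sqrt (m (fun z => ‖F z‖ ^ 2)) := by
  obtain ⟨C, hC⟩ := hF
  have hF' : BdC F := ⟨C, hC⟩
  have h1 : ‖NSC m M f F‖ ≤ m (fun z => ‖F z‖) := by
    unfold NSC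
    refine (norm_mC_le hM.toIsPos (bdC_out hm.toIsMean hf hF')).trans ?_
    refine hM.le_of_le (BdC.norm (bdC_out hm.toIsMean hf hF')) (fun κ => ?_)
    have h2 : ‖mC m (fun z => F z * (f (z + κ.1.1) : ℂ))‖ ≤ m (fun z => ‖F z‖) := by
      refine (norm_mC_le hm.toIsPos ⟨C, bdC_in hf hC κ⟩).trans ?_
      refine hm.toIsPos.mono (BdC.norm ⟨C, bdC_in hf hC κ⟩) hF'.norm (fun z => ?_)
      have h3 := hf (z + κ.1.1)
      rw [norm_mul, Complex.norm_real, Real.norm_eq_abs, abs_of_nonneg h3.1]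
      nlinarith [norm_nonneg (F z), h3.1, h3.2]
    have h4 := hf κ.1.2
    rw [norm_mul, Complex.norm_real, Real.norm_eq_abs, abs_of_nonneg h4.1]
    have h5 : 0 ≤ ‖mC m (fun z => F z * (f (z + κ.1.1) : ℂ))‖ := norm_nonneg _
    nlinarith
  refine h1.trans ?_
  apply Real.le_sqrt_of_sq_le
  have h2 := hm.toIsPos.cs hF'.norm (Bd.const (X := G) 1)
  simpa [hm.one] using h2

/-- the homomorphism `(t, x) ↦ -t` -/
def negFst (φ φ₃ : G →+ G) : KK φ φ₃ →+ G := -((AddMonoidHom.fst G G).comp (KK φ φ₃).subtype)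

lemma negFst_apply (κ : KK φ φ₃) : negFst φ φ₃ κ = -κ.1.1 := rfl

lemma negFst_index (h3 : φ₃.range.index ≠ 0) :
    (negFst φ φ₃).range.index ≠ 0 ∧ (negFst φ φ₃).range.index ≤ φ₃.range.index := by
  have hi := index_comap_le φ φ₃ h3
  have hle : φ₃.range.comap φ ≤ (negFst φ φ₃).range := by
    intro t ht
    rw [AddSubgroup.mem_comap] at ht
    obtain ⟨x, hx⟩ := ht
    have hmem : ((-t, -x) : G × G) ∈ KK φ φ₃ := by
      rw [mem_KK]
      show φ (-t) = φ₃ (-x)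
      rw [map_neg, map_neg, hx]
    exact ⟨⟨_, hmem⟩, by rw [negFst_apply]; exact neg_neg t⟩
  have hd := AddSubgroup.index_dvd_of_le hle
  refine ⟨fun h0 => hi.1 (by rw [h0] at hd; exact Nat.eq_zero_of_zero_dvd hd), ?_⟩
  exact (Nat.le_of_dvd (Nat.pos_of_ne_zero hi.1) hd).trans hi.2

/-- the average of the correlations, by Fourier coefficients -/
lemma avg_corr (hinv : S_inv.{u}) (hdom : S_dom.{u}) (hm : IsInvMean m) (he : Erg m)
    (hM : IsInvMean M) (h3 : φ₃.range.index ≠ 0) {h w : G → ℂ} (hh : BdC h) (hw : BdC w)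
    {L : ℝ} (hL : 0 ≤ L)
    (hhL : ∀ χ : AddChar G Circle, ‖mC m (fun z => h z * conj ((χ z : Circle) : ℂ))‖ ≤ L) :
    M (fun κ : KK φ φ₃ => ‖mC m (fun z => h (z + -κ.1.1) * conj (w z))‖ ^ 2) ≤
      φ₃.range.index * (L ^ 2 * m (fun z => ‖w z‖ ^ 2)) := by
  obtain ⟨hi1, hi2⟩ := negFst_index (φ := φ) h3
  obtain ⟨M', hM', hdm⟩ := hdom G (KK φ φ₃) M hM (negFst φ φ₃) hi1
  obtain ⟨C, hC⟩ := hh
  obtain ⟨D, hD⟩ := hw
  have hterm : ∀ (k z : G), ‖h (z + k) * conj (w z)‖ ≤ C * D := by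
    intro k z
    rw [norm_mul, RCLike.norm_conj]
    exact mul_le_mul (hC _) (hD _) (norm_nonneg _) ((norm_nonneg _).trans (hC 0))
  have hb : Bd (fun k : G => ‖mC m (fun z => h (z + k) * conj (w z))‖ ^ 2) :=
    BdC.normSq (BdC.iter hm.toIsMean hterm)
  have h1 := hdm _ hb (fun k => by positivity)
  have h2 := hinv G m M' hm he hM' h w ⟨C, hC⟩ ⟨D, hD⟩ L hL hhL
  have h4 : 0 ≤ L ^ 2 * m (fun z => ‖w z‖ ^ 2) :=
    mul_nonneg (sq_nonneg L) (hm.nonneg _ (BdC.normSq ⟨D, hD⟩) (fun z => by positivity))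
  calc M (fun κ : KK φ φ₃ => ‖mC m (fun z => h (z + -κ.1.1) * conj (w z))‖ ^ 2)
      ≤ (negFst φ φ₃).range.index * M' (fun k => ‖mC m (fun z => h (z + k) * conj (w z))‖ ^ 2) := h1
    _ ≤ (negFst φ φ₃).range.index * (L ^ 2 * m (fun z => ‖w z‖ ^ 2)) := by gcongr
    _ ≤ φ₃.range.index * (L ^ 2 * m (fun z => ‖w z‖ ^ 2)) := by gcongr

/-- the bound by Fourier coefficients -/
lemma NSC_inv (hinv : S_inv.{u}) (hdom : S_dom.{u}) (hm : IsInvMean m) (he : Erg m)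
    (hM : IsInvMean M) (hf : ∀ x, 0 ≤ f x ∧ f x ≤ 1) (h3 : φ₃.range.index ≠ 0)
    {F : G → ℂ} (hF : BdC F) {L : ℝ} (hL : 0 ≤ L)
    (hFL : ∀ χ : AddChar G Circle, ‖mC m (fun z => F z * conj ((χ z : Circle) : ℂ))‖ ≤ L) :
    ‖NSC m M f F‖ ^ 2 ≤ φ₃.range.index * L ^ 2 := by
  have hfb : Bd f := Bd.of_icc hf
  have h1 := avg_corr (φ := φ) (M := M) hinv hdom hm he hM h3 hF hfb.toC hL hFL
  have h2 : m (fun z => ‖((f z : ℝ) : ℂ)‖ ^ 2) ≤ 1 := by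
    refine hm.toIsMean.le_of_le (BdC.normSq hfb.toC) (fun z => ?_)
    rw [Complex.norm_real, Real.norm_eq_abs, abs_of_nonneg (hf z).1]
    nlinarith [(hf z).1, (hf z).2]
  have h4 : ‖NSC m M f F‖ ^ 2 ≤
      M (fun κ : KK φ φ₃ => ‖mC m (fun z => F (z + -κ.1.1) * conj ((f z : ℝ) : ℂ))‖ ^ 2) := by
    have hb : BdC (fun κ : KK φ φ₃ => mC m (fun z => F (z + -κ.1.1) * conj ((f z : ℝ) : ℂ))) := by
      obtain ⟨C, hC⟩ := hF
      refine BdC.iter hm.toIsMean (C := C) (fun κ z => ?_)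
      rw [norm_mul, RCLike.norm_conj, Complex.norm_real, Real.norm_eq_abs, abs_of_nonneg (hf z).1]
      nlinarith [norm_nonneg (F (z + -κ.1.1)), (hf z).1, (hf z).2, hC (z + -κ.1.1)]
    have e : NSC m M f F = mC M (fun κ : KK φ φ₃ => (f κ.1.2 : ℂ) *
        mC m (fun z => F (z + -κ.1.1) * conj ((f z : ℝ) : ℂ))) := by
      unfold NSC
      congr 1
      funext κ
      congr 1
      obtain ⟨C, hC⟩ := hF
      rw [← mC_inv hm (f := fun z => F z * (f (z + κ.1.1) : ℂ)) ⟨C, bdC_in hf hC κ⟩ (-κ.1.1)]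
      congr 1
      funext z
      rw [neg_add_cancel_right, Complex.conj_ofReal]
    rw [e]
    have h5 : ‖mC M (fun κ : KK φ φ₃ => (f κ.1.2 : ℂ) *
        mC m (fun z => F (z + -κ.1.1) * conj ((f z : ℝ) : ℂ)))‖ ≤
        M (fun κ : KK φ φ₃ => ‖mC m (fun z => F (z + -κ.1.1) * conj ((f z : ℝ) : ℂ))‖) := by
      refine (norm_mC_le hM.toIsPos ((bd_f2 hf).toC.mul hb)).trans ?_
      refine hM.toIsPos.mono ((bd_f2 hf).toC.mul hb).norm hb.norm (fun κ => ?_)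
      have h6 := hf κ.1.2
      rw [norm_mul, Complex.norm_real, Real.norm_eq_abs, abs_of_nonneg h6.1]
      have h7 : 0 ≤ ‖mC m (fun z => F (z + -κ.1.1) * conj ((f z : ℝ) : ℂ))‖ := norm_nonneg _
      nlinarith
    have h8 := hM.toIsPos.cs hb.norm (Bd.const (X := KK φ φ₃) 1)
    have h9 : M (fun κ : KK φ φ₃ => ‖mC m (fun z => F (z + -κ.1.1) * conj ((f z : ℝ) : ℂ))‖) ^ 2 ≤
        M (fun κ : KK φ φ₃ => ‖mC m (fun z => F (z + -κ.1.1) * conj ((f z : ℝ) : ℂ))‖ ^ 2) := by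
      simpa only [mul_one, one_pow, hM.one] using h8
    exact (pow_le_pow_left₀ (norm_nonneg _) h5 2).trans h9
  refine h4.trans (h1.trans ?_)
  have h10 : L ^ 2 * m (fun z => ‖((f z : ℝ) : ℂ)‖ ^ 2) ≤ L ^ 2 * 1 := by gcongr
  calc (φ₃.range.index : ℝ) * (L ^ 2 * m (fun z => ‖((f z : ℝ) : ℂ)‖ ^ 2))
      ≤ φ₃.range.index * (L ^ 2 * 1) := by gcongr
    _ = φ₃.range.index * L ^ 2 := by rw [mul_one]

end Setup

theorem schurb (hinv : S_inv.{u}) (hdec : S_decomp.{u}) (hdom : S_dom.{u})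
    (hext : S_charext.{u}) (hsub : S_subbohr.{u}) : S_schurb.{u} := by
  intro c hc n n₃ hn hn₃
  obtain ⟨η₁, hη₁, hS⟩ := hsub n hn
  obtain ⟨ε, hε, hε1, hε2⟩ : ∃ ε : ℝ, 0 < ε ∧ 2 * ε ≤ c / 8 ∧ (n₃ : ℝ) * (2 * ε) ^ 2 ≤ (c / 4) ^ 2 := by
    have h0 : (0 : ℝ) ≤ n₃ := Nat.cast_nonneg _
    refine ⟨min (c / 16) (c / (8 * (n₃ + 1))), lt_min (by positivity) (by positivity), ?_, ?_⟩
    · linarith [min_le_left (c / 16) (c / (8 * ((n₃ : ℝ) + 1)))]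
    · have h1 := min_le_right (c / 16) (c / (8 * ((n₃ : ℝ) + 1)))
      have h2 : 0 ≤ min (c / 16) (c / (8 * ((n₃ : ℝ) + 1))) := le_min (by positivity) (by positivity)
      calc (n₃ : ℝ) * (2 * min (c / 16) (c / (8 * ((n₃ : ℝ) + 1)))) ^ 2
          ≤ (n₃ : ℝ) * (2 * (c / (8 * ((n₃ : ℝ) + 1)))) ^ 2 := by gcongr
        _ = ((n₃ : ℝ) / (n₃ + 1) ^ 2) * (c / 4) ^ 2 := by
            field_simp
            norm_num
        _ ≤ 1 * (c / 4) ^ 2 := by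
            gcongr
            rw [div_le_one (by positivity)]; nlinarith
        _ = (c / 4) ^ 2 := one_mul _
  set K1 : ℕ := ⌈1 / ε ^ 2⌉₊ with hK1
  refine ⟨K1 + n, min (c / 8) η₁, lt_min (by positivity) hη₁, ?_⟩
  intro G _ φ φ₃ hφ hφ₃ m M hm he hM A hA
  set f : G → ℝ := ind A with hfdef
  have hf : ∀ x, 0 ≤ f x ∧ f x ≤ 1 := ind_icc A
  have hfb : Bd f := bd_ind A
  obtain ⟨Λ, hΛ1, hΛ⟩ := hdec G m hm f hf ε hε
  obtain ⟨χs, hχs⟩ := hS G φ.range hφ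
  classical
  let T : Finset (AddChar G Circle) := Λ.image (fun χ =>
    if h : (∀ x, φ x = 0 → χ x = 1) then (hext G φ χ h).choose else 1)
  have hTc : T.card ≤ K1 := by
    refine Finset.card_image_le.trans ?_
    rw [hK1]
    have h1 : (Λ.card : ℝ) ≤ 1 / ε ^ 2 := by rw [le_div_iff₀ (by positivity)]; exact hΛ1
    exact_mod_cast h1.trans (Nat.le_ceil _)
  obtain ⟨χ₁, hχ₁⟩ := exists_enum T K1 hTc 1
  refine ⟨Fin.append χ₁ χs, fun g hg => ?_⟩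
  obtain ⟨hg1, hg2⟩ := bohr_append χ₁ χs (min_le_left (c / 8) η₁) (min_le_right (c / 8) η₁) hg
  obtain ⟨p, hp⟩ := hχs hg2
  have hΛp : ∀ χ ∈ Λ, (∀ x, φ x = 0 → χ x = 1) → ‖((χ p : Circle) : ℂ) - 1‖ ≤ c / 8 := by
    intro χ hχ hker
    have hmem : (hext G φ χ hker).choose ∈ T := by
      refine Finset.mem_image.mpr ⟨χ, hχ, ?_⟩
      rw [dif_pos hker]
    obtain ⟨i, hi⟩ := hχ₁ _ hmem
    have h1 := hg1 i
    rw [hi, ← hp, (hext G φ χ hker).choose_spec p] at h1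
    exact h1.le
  obtain ⟨N, s, hN, hs, h₁, h₂, hb1, hb2, hsum, hm1, hm2, hF2⟩ :=
    hΛ φ p (c / 8) (by positivity) hΛp
  have hN0 : c ≤ NS m M f f := hA
  have hdiff : NS m M f (fun z => (∑ i, (f (z + p + s i) - f (z + s i))) / (N : ℝ)) =
      NS m M f (fun z => f (z + p)) - NS m M f f := by
    have e1 : (fun z => (∑ i, (f (z + p + s i) - f (z + s i))) / (N : ℝ)) =
        fun z => (1 / (N : ℝ)) * ∑ i, (f (z + p + s i) - f (z + s i)) := by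
      funext z; ring
    have hb : ∀ i, Bd (fun z => f (z + p + s i) - f (z + s i)) := fun i =>
      (hfb.comp (fun z => z + p + s i)).sub (hfb.comp (fun z => z + s i))
    rw [e1, NS_smul hm.toIsMean hM.toIsMean hf _ (Bd.sum Finset.univ (fun i _ => hb i)),
      NS_sum hm.toIsMean hM.toIsMean hf Finset.univ hb]
    have e2 : ∀ i, NS m M f (fun z => f (z + p + s i) - f (z + s i)) =
        NS m M f (fun z => f (z + p)) - NS m M f f := by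
      intro i
      rw [NS_sub hm.toIsMean hM.toIsMean hf (hfb.comp (fun z => z + p + s i))
        (hfb.comp (fun z => z + s i)), NS_ker hm hM hf hfb (hs i)]
      congr 1
      have := NS_ker (M := M) hm hM hf (hfb.comp (fun z => z + p)) (hs i)
      rw [← this]
      congr 1
      funext z
      congr 1
      abel
    rw [Finset.sum_congr rfl (fun i _ => e2 i), Finset.sum_const, Finset.card_univ,
      Fintype.card_fin, nsmul_eq_mul]
    have : (N : ℝ) ≠ 0 := by exact_mod_cast hN.ne'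
    field_simp
  have hbound : |NS m M f (fun z => f (z + p)) - NS m M f f| ≤ c / 2 := by
    rw [← hdiff, ← Real.norm_eq_abs, ← Complex.norm_real, ← NSC_real hm.toIsMean hM.toIsMean]
    have e3 : NSC m M f (fun z => (((∑ i, (f (z + p + s i) - f (z + s i))) / (N : ℝ) : ℝ) : ℂ)) =
        NSC m M f h₁ + NSC m M f h₂ := by
      rw [← NSC_add hm.toIsMean hM.toIsMean hf hb1 hb2]
      congr 1
      funext z
      exact hsum z
    rw [e3]
    have b1 : ‖NSC m M f h₁‖ ≤ c / 4 := by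
      refine (NSC_le hm hM.toIsMean hf hb1).trans ?_
      refine (Real.sqrt_le_sqrt hm1).trans ?_
      rw [Real.sqrt_sq (by positivity)]
      linarith
    have b2 : ‖NSC m M f h₂‖ ≤ c / 4 := by
      have h3 := NSC_inv (M := M) hinv hdom hm he hM hf (by rw [hφ₃]; exact hn₃) hb2
        (L := 2 * ε) (by positivity) hF2
      rw [hφ₃] at h3
      exact le_of_sq_le_sq (h3.trans hε2) (by positivity)
    calc ‖NSC m M f h₁ + NSC m M f h₂‖ ≤ ‖NSC m M f h₁‖ + ‖NSC m M f h₂‖ := norm_add_le _ _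
      _ ≤ c / 4 + c / 4 := add_le_add b1 b2
      _ = c / 2 := by ring
  have hNp : 0 < NS m M f (fun z => f (z + p)) := by
    have := (abs_le.mp hbound).1
    linarith
  obtain ⟨κ, hκ⟩ := hM.toIsMean.exists_pos (bd_out hm.toIsMean hf (hfb.comp (fun z => z + p))) hNp
  have hin0 : 0 ≤ m (fun z => f (z + p) * f (z + κ.1.1)) :=
    hm.nonneg _ ((hfb.comp (fun z => z + p)).mul (hfb.comp (fun z => z + κ.1.1)))
      (fun z => mul_nonneg (hf _).1 (hf _).1)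
  have hκ1 : 0 < f κ.1.2 := by
    by_contra hcon
    have : f κ.1.2 = 0 := le_antisymm (not_lt.mp hcon) (hf _).1
    rw [this, zero_mul] at hκ
    exact lt_irrefl _ hκ
  have hκ2 : 0 < m (fun z => f (z + p) * f (z + κ.1.1)) := by
    by_contra hcon
    have : m (fun z => f (z + p) * f (z + κ.1.1)) = 0 := le_antisymm (not_lt.mp hcon) hin0
    rw [this, mul_zero] at hκ
    exact lt_irrefl _ hκ
  obtain ⟨z, hz⟩ := hm.toIsMean.exists_pos
    ((hfb.comp (fun z => z + p)).mul (hfb.comp (fun z => z + κ.1.1))) hκ2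
  have hz1 : 0 < f (z + p) := by
    by_contra hcon
    have : f (z + p) = 0 := le_antisymm (not_lt.mp hcon) (hf _).1
    rw [this, zero_mul] at hz
    exact lt_irrefl _ hz
  have hz2 : 0 < f (z + κ.1.1) := by
    by_contra hcon
    have : f (z + κ.1.1) = 0 := le_antisymm (not_lt.mp hcon) (hf _).1
    rw [this, mul_zero] at hz
    exact lt_irrefl _ hz
  refine ⟨z + p, ind_pos hz1, z + κ.1.1, ind_pos hz2, κ.1.2, ind_pos hκ1, ?_⟩
  rw [map_add, map_add, ← mem_KK.mp κ.2, hp]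
  abel

end Q136.BM
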