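import Pool.Agent.Q136.BM.Stm

/-!
# van der Corput's inequality
-/

namespace Q136.BM

open scoped ComplexConjugate BigOperators

universe u

theorem vdc (hpdm : S_pdm2.{u}) : S_vdc.{u} := by
  intro K Z _ M m hM hm Ψ C hΨ f hf
  set D : K → ℂ := fun κ => mC M (fun y => mC m (fun z => Ψ (y + κ) z * conj (Ψ y z))) with hD
  have hC0 : 0 ≤ C := by
    obtain ⟨z⟩ := hm.nonempty
    exact (norm_nonneg _).trans (hΨ 0 z)
  have hb : ∀ (κ κ' : K) (y : K) (z : Z), ‖Ψ (y + κ) z * conj (Ψ (y + κ') z)‖ ≤ C * C := by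
    intro κ κ' y z
    rw [norm_mul, RCLike.norm_conj]
    exact mul_le_mul (hΨ _ _) (hΨ _ _) (norm_nonneg _) hC0
  -- the shifted form of `D`
  have hDs : ∀ κ κ' : K, mC M (fun y => mC m (fun z => Ψ (y + κ) z * conj (Ψ (y + κ') z))) =
      D (κ - κ') := by
    intro κ κ'
    have := mC_inv hM (f := fun y => mC m (fun z => Ψ (y + (κ - κ')) z * conj (Ψ y z)))
      (by
        have h := hb (κ - κ') 0
        simp only [add_zero] at h
        exact BdC.iter hm h) κ'
    rw [hD]
    simp only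
    rw [← this]
    congr 1
    funext y
    have e : y + κ' + (κ - κ') = y + κ := by abel
    rw [e]
  have hherm : ∀ κ, D (-κ) = conj (D κ) := by
    intro κ
    have h1 := hDs 0 κ
    rw [zero_sub] at h1
    rw [← h1]
    simp only [hD]
    have h2 : BdC (fun y => mC m (fun z => Ψ (y + κ) z * conj (Ψ y z))) := by
      have h := hb κ 0
      simp only [add_zero] at h
      exact BdC.iter hm h
    rw [← mC_conj hM.toIsPos h2]
    congr 1
    funext y
    have h3 := hb κ 0 y
    simp only [add_zero] at h3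
    rw [← mC_conj hm.toIsPos ⟨C * C, h3⟩]
    congr 1
    funext z
    rw [map_mul, Complex.conj_conj, add_zero, mul_comm]
  have hDb : BdC D := by
    refine ⟨C * C, fun κ => ?_⟩
    have h := hb κ 0
    simp only [add_zero] at h
    refine (norm_mC_le hM.toIsPos (BdC.iter hm h)).trans ?_
    refine hM.toIsMean.le_of_le (BdC.norm (BdC.iter hm h)) (fun y => ?_)
    exact (norm_mC_le hm.toIsPos ⟨C * C, h y⟩).trans
      (hm.le_of_le (BdC.norm ⟨C * C, h y⟩) (h y))
  -- the estimate for finitely many points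
  have key : ∀ (n : ℕ) (x : Fin n → K), 0 < n →
      ‖mC M (fun y => mC m (fun z => f z * Ψ y z))‖ ^ 2 ≤
        (∑ i, ∑ j, D (x i - x j)).re / (n : ℝ) ^ 2 := by
    intro n x hn
    have hn' : (n : ℂ) ≠ 0 := by exact_mod_cast hn.ne'
    have hfΨ : ∀ y z, ‖f z * Ψ y z‖ ≤ C := by
      intro y z
      rw [norm_mul]
      calc ‖f z‖ * ‖Ψ y z‖ ≤ 1 * C := mul_le_mul (hf z) (hΨ y z) (norm_nonneg _) zero_le_one
        _ = C := one_mul C
    set N := mC M (fun y => mC m (fun z => f z * Ψ y z)) with hN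
    have hNi : ∀ i, mC M (fun y => mC m (fun z => f z * Ψ (y + x i) z)) = N := by
      intro i
      exact mC_inv hM (f := fun y => mC m (fun z => f z * Ψ y z)) (BdC.iter hm hfΨ) (x i)
    -- the average as a mean on the product
    set A : K × Z → ℂ := fun q => (1 / (n : ℂ)) * ∑ i, Ψ (q.1 + x i) q.2 with hA
    have hsumb : ∀ q : K × Z, ‖∑ i, Ψ (q.1 + x i) q.2‖ ≤ n * C := by
      intro q
      refine (norm_sum_le _ _).trans ?_
      refine (Finset.sum_le_sum (fun i _ => hΨ _ _)).trans_eq ?_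
      rw [Finset.sum_const, Finset.card_univ, Fintype.card_fin, nsmul_eq_mul]
    have hAb : BdC A := BdC.smul _ ⟨n * C, hsumb⟩
    have hPM : IsMean (pm M m) := hM.toIsMean.pm hm
    have e1 : N = mC (pm M m) (fun q => A q * conj (conj (f q.2))) := by
      have e2 : (fun q : K × Z => A q * conj (conj (f q.2))) =
          fun q => (1 / (n : ℂ)) * ∑ i, f q.2 * Ψ (q.1 + x i) q.2 := by
        funext q
        rw [Complex.conj_conj, hA, ← Finset.mul_sum]
        ring
      have hb3 : ∀ i, BdC (fun q : K × Z => f q.2 * Ψ (q.1 + x i) q.2) := fun i =>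
        ⟨C, fun q => hfΨ _ _⟩
      rw [e2, mC_smul hPM.toIsPos _ (BdC.sum Finset.univ (fun i _ => hb3 i)),
        mC_sum hPM.toIsPos Finset.univ (fun i _ => hb3 i)]
      have e3 : ∀ i, mC (pm M m) (fun q : K × Z => f q.2 * Ψ (q.1 + x i) q.2) = N := fun i => by
        rw [mC_pm]; exact hNi i
      rw [Finset.sum_congr rfl (fun i _ => e3 i), Finset.sum_const, Finset.card_univ,
        Fintype.card_fin, nsmul_eq_mul]
      field_simp
    have hcs := cs_mC hPM.toIsPos hAb (g := fun q : K × Z => conj (f q.2))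
      ⟨1, fun q => by rw [RCLike.norm_conj]; exact hf _⟩
    rw [← e1] at hcs
    have h4 : pm M m (fun q : K × Z => ‖conj (f q.2)‖ ^ 2) ≤ 1 := by
      refine hPM.le_of_le ⟨1, fun q => ?_⟩ (fun q => ?_)
      · rw [abs_of_nonneg (by positivity), RCLike.norm_conj]
        exact pow_le_one₀ (norm_nonneg _) (hf _)
      · rw [RCLike.norm_conj]
        exact pow_le_one₀ (norm_nonneg _) (hf _)
    have h5 : pm M m (fun q => ‖A q‖ ^ 2) = (∑ i, ∑ j, D (x i - x j)).re / (n : ℝ) ^ 2 := by
      have e4 : (fun q : K × Z => ((‖A q‖ ^ 2 : ℝ) : ℂ)) = fun q =>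
          (1 / (n : ℂ) ^ 2) * ∑ i, ∑ j, Ψ (q.1 + x i) q.2 * conj (Ψ (q.1 + x j) q.2) := by
        funext q
        rw [Complex.ofReal_pow, ← Complex.mul_conj', hA]
        simp only [map_mul, map_sum, map_div₀, map_one, Complex.conj_natCast]
        rw [← Finset.sum_mul_sum]
        ring
      have hb4 : ∀ i j, BdC (fun q : K × Z => Ψ (q.1 + x i) q.2 * conj (Ψ (q.1 + x j) q.2)) :=
        fun i j => ⟨C * C, fun q => hb _ _ _ _⟩
      have e5 : ((pm M m (fun q => ‖A q‖ ^ 2) : ℝ) : ℂ) =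
          (1 / (n : ℂ) ^ 2) * ∑ i, ∑ j, D (x i - x j) := by
        rw [← mC_real hPM.toIsPos, e4, mC_smul hPM.toIsPos _
          (BdC.sum _ (fun i _ => BdC.sum _ (fun j _ => hb4 i j))),
          mC_sum hPM.toIsPos _ (fun i _ => BdC.sum _ (fun j _ => hb4 i j))]
        congr 1
        refine Finset.sum_congr rfl (fun i _ => ?_)
        rw [mC_sum hPM.toIsPos _ (fun j _ => hb4 i j)]
        refine Finset.sum_congr rfl (fun j _ => ?_)
        rw [mC_pm]
        exact hDs _ _
      have e6 := congrArg Complex.re e5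
      rw [Complex.ofReal_re] at e6
      rw [e6]
      have e7 : (1 / (n : ℂ) ^ 2) = (((1 / (n : ℝ) ^ 2) : ℝ) : ℂ) := by push_cast; rfl
      rw [e7, Complex.re_ofReal_mul]
      ring
    rw [h5] at hcs
    refine hcs.trans ?_
    have h6 : 0 ≤ (∑ i, ∑ j, D (x i - x j)).re / (n : ℝ) ^ 2 := by
      rw [← h5]
      exact hPM.nonneg _ hAb.normSq (fun q => by positivity)
    nlinarith
  -- the conclusion
  have e8 : M (fun κ => (mC M (fun y => mC m (fun z => Ψ (y + κ) z * conj (Ψ y z)))).re) =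
      (mC M D).re := rfl
  rw [e8]
  refine le_of_forall_pos_le_add (fun ε hε => ?_)
  obtain ⟨n, x, hn, hx⟩ := hpdm K M hM D hDb hherm ε hε
  exact (key n x hn).trans hx

end Q136.BM
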