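import Pool.Agent.Q110.BM.Exists
import Pool.Agent.Q110.BM.Erg
import Pool.Agent.Q136.BM.Vdc
import Pool.Agent.Q136.BM.Gvn
import Pool.Agent.Q136.BM.PD
import Pool.Agent.Q136.BM.ErgMix
import Pool.Agent.Q136.BM.PDMean
import Pool.Agent.Q136.BM.PDChar
import Pool.Agent.Q136.BM.Max
import Pool.Agent.Q136.BM.Inv
import Pool.Agent.Q136.BM.Bessel
import Pool.Agent.Q136.BM.Decomp
import Pool.Agent.Q136.BM.Core
import Pool.Agent.Q136.BM.CharExt
import Pool.Agent.Q136.BM.BDens
import Pool.Agent.Q136.BM.Dom
import Pool.Agent.Q136.BM.Coset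
import Pool.Agent.Q136.BM.Dhj
import Pool.Agent.Q136.BM.SchurB
import Pool.Agent.Q136.BM.Pos
import Pool.Agent.Q136.BM.Part2
import Pool.Agent.Q136.BM.Part3
import Pool.Agent.Q136.BM.Final

/-!
# Assembly
-/

namespace Q136.BM

universe u

theorem inv_full : S_inv.{u} :=
  inv_thm mix pdb schur auto pdm2 (max_char pdb (pdm1 pdb) pdm2 (pdchar pdb))

theorem gvn_full : S_gvn.{u} := gvn (vdc pdm2) coset inv_full dom

theorem decomp_full : S_decomp.{u} := decomp bessel (large bessel)

theorem core_full : S_core.{u} :=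
  core Q110.BM.exists_mean gvn_full dhj_pos decomp_full charext subbohr

theorem part1_full : S_part1.{u} := part1 subbohr

theorem part3_full : S_part3.{u} := part3 Q110.BM.exists_mean Q110.BM.erg core_full bdens

theorem part2_full : S_part2.{u} :=
  part2 Q110.BM.exists_mean Q110.BM.erg (disint Q110.BM.exists_mean)
    (schurb inv_full decomp_full dom charext subbohr) (pos inv_full bessel (large bessel) dom bdens)

end Q136.BM
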