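import Mathlib

/-!
# Means on the bounded functions on a set, invariant means on abelian groups: basic facts

A mean is given as a functional on all functions `X → ℝ`; only its values at bounded functions
matter.
-/

namespace Q136.BM

open scoped ComplexConjugate

universe u v

variable {X : Type u} {Y : Type v}

/-- bounded real functions -/
def Bd (f : X → ℝ) : Prop := ∃ C : ℝ, ∀ x, |f x| ≤ C

/-- bounded complex functions -/
def BdC (f : X → ℂ) : Prop := ∃ C : ℝ, ∀ x, ‖f x‖ ≤ C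

/-- a positive linear functional on the bounded functions -/
structure IsPos (m : (X → ℝ) → ℝ) : Prop where
  /-- additivity -/
  add : ∀ f g : X → ℝ, Bd f → Bd g → m (fun x => f x + g x) = m f + m g
  /-- homogeneity -/
  smul : ∀ (c : ℝ) (f : X → ℝ), Bd f → m (fun x => c * f x) = c * m f
  /-- positivity -/
  nonneg : ∀ f : X → ℝ, Bd f → (∀ x, 0 ≤ f x) → 0 ≤ m f

/-- a mean: a positive linear functional on the bounded functions with value `1` at `1` -/
structure IsMean (m : (X → ℝ) → ℝ) : Prop extends IsPos m where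
  /-- normalisation -/
  one : m (fun _ => 1) = 1

/-- a translation-invariant mean on an abelian group -/
structure IsInvMean {G : Type u} [AddCommGroup G] (m : (G → ℝ) → ℝ) : Prop extends IsMean m where
  /-- invariance -/
  inv : ∀ (f : G → ℝ) (g : G), Bd f → m (fun x => f (x + g)) = m f

/-- the complex extension of a functional -/
noncomputable def mC (m : (X → ℝ) → ℝ) (f : X → ℂ) : ℂ :=
  ⟨m (fun x => (f x).re), m (fun x => (f x).im)⟩

/-! ### Bounded functions -/

lemma Bd.const (c : ℝ) : Bd (fun _ : X => c) := ⟨|c|, fun _ => le_rfl⟩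

lemma Bd.add {f g : X → ℝ} (hf : Bd f) (hg : Bd g) : Bd (fun x => f x + g x) := by
  obtain ⟨C, hC⟩ := hf
  obtain ⟨D, hD⟩ := hg
  exact ⟨C + D, fun x => (abs_add_le _ _).trans (add_le_add (hC x) (hD x))⟩

lemma Bd.mul {f g : X → ℝ} (hf : Bd f) (hg : Bd g) : Bd (fun x => f x * g x) := by
  obtain ⟨C, hC⟩ := hf
  obtain ⟨D, hD⟩ := hg
  refine ⟨C * D, fun x => ?_⟩
  rw [abs_mul]
  exact mul_le_mul (hC x) (hD x) (abs_nonneg _) ((abs_nonneg _).trans (hC x))

lemma Bd.smul {f : X → ℝ} (c : ℝ) (hf : Bd f) : Bd (fun x => c * f x) := (Bd.const c).mul hf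

lemma Bd.neg {f : X → ℝ} (hf : Bd f) : Bd (fun x => - f x) := by
  obtain ⟨C, hC⟩ := hf
  exact ⟨C, fun x => by rw [abs_neg]; exact hC x⟩

lemma Bd.sub {f g : X → ℝ} (hf : Bd f) (hg : Bd g) : Bd (fun x => f x - g x) := by
  simpa [sub_eq_add_neg] using hf.add hg.neg

lemma Bd.comp {f : X → ℝ} (hf : Bd f) (φ : Y → X) : Bd (fun y => f (φ y)) := by
  obtain ⟨C, hC⟩ := hf
  exact ⟨C, fun x => hC _⟩

lemma Bd.abs {f : X → ℝ} (hf : Bd f) : Bd (fun x => |f x|) := by
  obtain ⟨C, hC⟩ := hf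
  exact ⟨C, fun x => by rw [abs_abs]; exact hC x⟩

lemma Bd.sum {ι : Type*} (s : Finset ι) {f : ι → X → ℝ} (hf : ∀ i ∈ s, Bd (f i)) :
    Bd (fun x => ∑ i ∈ s, f i x) := by
  classical
  induction s using Finset.induction_on with
  | empty => simpa using Bd.const (X := X) 0
  | insert a s ha ih =>
    have h1 := (hf a (Finset.mem_insert_self a s)).add
      (ih (fun i hi => hf i (Finset.mem_insert_of_mem hi)))
    simpa [Finset.sum_insert ha] using h1

lemma Bd.prod {ι : Type*} (s : Finset ι) {f : ι → X → ℝ} (hf : ∀ i ∈ s, Bd (f i)) :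
    Bd (fun x => ∏ i ∈ s, f i x) := by
  classical
  induction s using Finset.induction_on with
  | empty => simpa using Bd.const (X := X) 1
  | insert a s ha ih =>
    have h1 := (hf a (Finset.mem_insert_self a s)).mul
      (ih (fun i hi => hf i (Finset.mem_insert_of_mem hi)))
    simpa [Finset.prod_insert ha] using h1

lemma Bd.of_icc {f : X → ℝ} {a b : ℝ} (h : ∀ x, a ≤ f x ∧ f x ≤ b) : Bd f :=
  ⟨max |a| |b|, fun x => abs_le_max_abs_abs (h x).1 (h x).2⟩

lemma Bd.ind (A : Set X) : Bd (A.indicator (fun _ => (1 : ℝ))) := by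
  refine Bd.of_icc (a := 0) (b := 1) (fun x => ?_)
  by_cases h : x ∈ A <;> simp [h]

lemma Bd.mono {f g : X → ℝ} (hg : Bd g) (h : ∀ x, |f x| ≤ |g x|) : Bd f := by
  obtain ⟨C, hC⟩ := hg
  exact ⟨C, fun x => (h x).trans (hC x)⟩

lemma BdC.const (c : ℂ) : BdC (fun _ : X => c) := ⟨‖c‖, fun _ => le_rfl⟩

lemma BdC.add {f g : X → ℂ} (hf : BdC f) (hg : BdC g) : BdC (fun x => f x + g x) := by
  obtain ⟨C, hC⟩ := hf
  obtain ⟨D, hD⟩ := hg
  exact ⟨C + D, fun x => (norm_add_le _ _).trans (add_le_add (hC x) (hD x))⟩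

lemma BdC.mul {f g : X → ℂ} (hf : BdC f) (hg : BdC g) : BdC (fun x => f x * g x) := by
  obtain ⟨C, hC⟩ := hf
  obtain ⟨D, hD⟩ := hg
  refine ⟨C * D, fun x => ?_⟩
  rw [norm_mul]
  exact mul_le_mul (hC x) (hD x) (norm_nonneg _) ((norm_nonneg _).trans (hC x))

lemma BdC.smul {f : X → ℂ} (c : ℂ) (hf : BdC f) : BdC (fun x => c * f x) := (BdC.const c).mul hf

lemma BdC.neg {f : X → ℂ} (hf : BdC f) : BdC (fun x => - f x) := by
  obtain ⟨C, hC⟩ := hf
  exact ⟨C, fun x => by rw [norm_neg]; exact hC x⟩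

lemma BdC.sub {f g : X → ℂ} (hf : BdC f) (hg : BdC g) : BdC (fun x => f x - g x) := by
  simpa [sub_eq_add_neg] using hf.add hg.neg

lemma BdC.conj {f : X → ℂ} (hf : BdC f) : BdC (fun x => conj (f x)) := by
  obtain ⟨C, hC⟩ := hf
  exact ⟨C, fun x => by rw [RCLike.norm_conj]; exact hC x⟩

lemma BdC.comp {f : X → ℂ} (hf : BdC f) (φ : Y → X) : BdC (fun y => f (φ y)) := by
  obtain ⟨C, hC⟩ := hf
  exact ⟨C, fun x => hC _⟩

lemma BdC.sum {ι : Type*} (s : Finset ι) {f : ι → X → ℂ} (hf : ∀ i ∈ s, BdC (f i)) :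
    BdC (fun x => ∑ i ∈ s, f i x) := by
  classical
  induction s using Finset.induction_on with
  | empty => simpa using BdC.const (X := X) 0
  | insert a s ha ih =>
    have h1 := (hf a (Finset.mem_insert_self a s)).add
      (ih (fun i hi => hf i (Finset.mem_insert_of_mem hi)))
    simpa [Finset.sum_insert ha] using h1

lemma BdC.prod {ι : Type*} (s : Finset ι) {f : ι → X → ℂ} (hf : ∀ i ∈ s, BdC (f i)) :
    BdC (fun x => ∏ i ∈ s, f i x) := by
  classical
  induction s using Finset.induction_on with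
  | empty => simpa using BdC.const (X := X) 1
  | insert a s ha ih =>
    have h1 := (hf a (Finset.mem_insert_self a s)).mul
      (ih (fun i hi => hf i (Finset.mem_insert_of_mem hi)))
    simpa [Finset.prod_insert ha] using h1

lemma BdC.re {f : X → ℂ} (hf : BdC f) : Bd (fun x => (f x).re) := by
  obtain ⟨C, hC⟩ := hf
  exact ⟨C, fun x => (Complex.abs_re_le_norm _).trans (hC x)⟩

lemma BdC.im {f : X → ℂ} (hf : BdC f) : Bd (fun x => (f x).im) := by
  obtain ⟨C, hC⟩ := hf
  exact ⟨C, fun x => (Complex.abs_im_le_norm _).trans (hC x)⟩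

lemma BdC.norm {f : X → ℂ} (hf : BdC f) : Bd (fun x => ‖f x‖) := by
  obtain ⟨C, hC⟩ := hf
  exact ⟨C, fun x => by rw [abs_norm]; exact hC x⟩

lemma BdC.normSq {f : X → ℂ} (hf : BdC f) : Bd (fun x => ‖f x‖ ^ 2) := by
  simpa [sq] using hf.norm.mul hf.norm

lemma Bd.toC {f : X → ℝ} (hf : Bd f) : BdC (fun x => (f x : ℂ)) := by
  obtain ⟨C, hC⟩ := hf
  exact ⟨C, fun x => by rw [Complex.norm_real]; exact hC x⟩

lemma BdC.circle (φ : X → Circle) : BdC (fun x => (φ x : ℂ)) :=
  ⟨1, fun x => by rw [Circle.norm_coe]⟩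

/-! ### Positive functionals and means -/

namespace IsPos

variable {m : (X → ℝ) → ℝ} (hm : IsPos m)
include hm

lemma zero : m (fun _ => 0) = 0 := by
  have := hm.smul 0 (fun _ => 0) (Bd.const 0)
  simpa using this

lemma neg {f : X → ℝ} (hf : Bd f) : m (fun x => - f x) = - m f := by
  have := hm.smul (-1) f hf
  simpa using this

lemma sub {f g : X → ℝ} (hf : Bd f) (hg : Bd g) : m (fun x => f x - g x) = m f - m g := by
  have h1 := hm.add f (fun x => - g x) hf hg.neg
  rw [hm.neg hg] at h1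
  simpa [sub_eq_add_neg] using h1

lemma mono {f g : X → ℝ} (hf : Bd f) (hg : Bd g) (h : ∀ x, f x ≤ g x) : m f ≤ m g := by
  have h1 := hm.nonneg (fun x => g x - f x) (hg.sub hf) (fun x => sub_nonneg.mpr (h x))
  rw [hm.sub hg hf] at h1
  linarith

lemma sum {ι : Type*} (s : Finset ι) {f : ι → X → ℝ} (hf : ∀ i ∈ s, Bd (f i)) :
    m (fun x => ∑ i ∈ s, f i x) = ∑ i ∈ s, m (f i) := by
  classical
  induction s using Finset.induction_on with
  | empty => simpa using hm.zero
  | insert a s ha ih =>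
    have hf' : ∀ i ∈ s, Bd (f i) := fun i hi => hf i (Finset.mem_insert_of_mem hi)
    rw [Finset.sum_insert ha, ← ih hf',
      ← hm.add _ _ (hf a (Finset.mem_insert_self a s)) (Bd.sum s hf')]
    congr 1
    funext x
    rw [Finset.sum_insert ha]

lemma abs_le {f : X → ℝ} (hf : Bd f) : |m f| ≤ m (fun x => |f x|) := by
  rw [_root_.abs_le]
  constructor
  · rw [neg_le, ← hm.neg hf]
    exact hm.mono hf.neg hf.abs (fun x => neg_le_abs _)
  · exact hm.mono hf hf.abs (fun x => le_abs_self _)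

/-- Cauchy-Schwarz for real functions -/
lemma cs {f g : X → ℝ} (hf : Bd f) (hg : Bd g) :
    (m (fun x => f x * g x)) ^ 2 ≤ m (fun x => f x ^ 2) * m (fun x => g x ^ 2) := by
  have hf2 : Bd (fun x => f x ^ 2) := by simpa [sq] using hf.mul hf
  have hg2 : Bd (fun x => g x ^ 2) := by simpa [sq] using hg.mul hg
  have key : ∀ t : ℝ, 0 ≤ m (fun x => g x ^ 2) * (t * t)
      + (2 * m (fun x => f x * g x)) * t + m (fun x => f x ^ 2) := by
    intro t
    have h0 : 0 ≤ m (fun x => (f x + t * g x) ^ 2) := by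
      apply hm.nonneg
      · simpa [sq] using (hf.add (hg.smul t)).mul (hf.add (hg.smul t))
      · intro x; positivity
    have h1 : m (fun x => (f x + t * g x) ^ 2) = m (fun x => f x ^ 2)
        + 2 * t * m (fun x => f x * g x) + t ^ 2 * m (fun x => g x ^ 2) := by
      have e : (fun x => (f x + t * g x) ^ 2) = fun x =>
          (f x ^ 2 + (2 * t) * (f x * g x)) + t ^ 2 * g x ^ 2 := by
        funext x; ring
      rw [e, hm.add _ _ (hf2.add ((hf.mul hg).smul _)) (hg2.smul _),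
        hm.add _ _ hf2 ((hf.mul hg).smul _), hm.smul _ _ (hf.mul hg), hm.smul _ _ hg2]
    rw [h1] at h0
    linarith
  have h := discrim_le_zero key
  unfold discrim at h
  nlinarith [h]

end IsPos

namespace IsMean

variable {m : (X → ℝ) → ℝ} (hm : IsMean m)
include hm

lemma const (c : ℝ) : m (fun _ => c) = c := by
  have := hm.smul c (fun _ => 1) (Bd.const 1)
  rw [hm.one] at this
  simpa using this

lemma le_of_le {f : X → ℝ} (hf : Bd f) {c : ℝ} (h : ∀ x, f x ≤ c) : m f ≤ c := by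
  have := hm.toIsPos.mono hf (Bd.const c) h
  rwa [hm.const] at this

lemma ge_of_ge {f : X → ℝ} (hf : Bd f) {c : ℝ} (h : ∀ x, c ≤ f x) : c ≤ m f := by
  have := hm.toIsPos.mono (Bd.const c) hf h
  rwa [hm.const] at this

lemma abs_le_of {f : X → ℝ} {c : ℝ} (h : ∀ x, |f x| ≤ c) : |m f| ≤ c :=
  (hm.toIsPos.abs_le ⟨c, h⟩).trans (hm.le_of_le (Bd.abs ⟨c, h⟩) h)

/-- some value is at most the mean plus `ε` -/
lemma exists_le {f : X → ℝ} (hf : Bd f) {ε : ℝ} (hε : 0 < ε) : ∃ x, f x ≤ m f + ε := by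
  by_contra h
  push Not at h
  have := hm.ge_of_ge hf (c := m f + ε) (fun x => (h x).le)
  linarith

lemma exists_ge {f : X → ℝ} (hf : Bd f) {ε : ℝ} (hε : 0 < ε) : ∃ x, m f - ε ≤ f x := by
  by_contra h
  push Not at h
  have := hm.le_of_le hf (c := m f - ε) (fun x => (h x).le)
  linarith

lemma nonempty : Nonempty X := by
  obtain ⟨x, -⟩ := hm.exists_le (Bd.const 0) one_pos
  exact ⟨x⟩

lemma exists_pos {f : X → ℝ} (hf : Bd f) (h : 0 < m f) : ∃ x, 0 < f x := by
  obtain ⟨x, hx⟩ := hm.exists_ge hf (half_pos h)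
  exact ⟨x, by linarith⟩

end IsMean

/-! ### The complex extension -/

section Complex

variable {m : (X → ℝ) → ℝ}

lemma mC_re (f : X → ℂ) : (mC m f).re = m (fun x => (f x).re) := rfl
lemma mC_im (f : X → ℂ) : (mC m f).im = m (fun x => (f x).im) := rfl

lemma mC_add (hm : IsPos m) {f g : X → ℂ} (hf : BdC f) (hg : BdC g) :
    mC m (fun x => f x + g x) = mC m f + mC m g := by
  apply Complex.ext
  · simp only [mC_re, Complex.add_re]
    exact hm.add _ _ hf.re hg.re
  · simp only [mC_im, Complex.add_im]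
    exact hm.add _ _ hf.im hg.im

lemma mC_smul (hm : IsPos m) (c : ℂ) {f : X → ℂ} (hf : BdC f) :
    mC m (fun x => c * f x) = c * mC m f := by
  apply Complex.ext
  · simp only [mC_re, mC_im, Complex.mul_re]
    rw [hm.sub (hf.re.smul _) (hf.im.smul _), hm.smul _ _ hf.re, hm.smul _ _ hf.im]
  · simp only [mC_re, mC_im, Complex.mul_im]
    rw [hm.add _ _ (hf.im.smul _) (hf.re.smul _), hm.smul _ _ hf.re, hm.smul _ _ hf.im]

lemma mC_neg (hm : IsPos m) {f : X → ℂ} (hf : BdC f) :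
    mC m (fun x => - f x) = - mC m f := by
  have := mC_smul hm (-1) hf
  simpa using this

lemma mC_sub (hm : IsPos m) {f g : X → ℂ} (hf : BdC f) (hg : BdC g) :
    mC m (fun x => f x - g x) = mC m f - mC m g := by
  have h1 := mC_add hm hf hg.neg
  rw [mC_neg hm hg] at h1
  simpa [sub_eq_add_neg] using h1

lemma mC_zero (hm : IsPos m) : mC m (fun _ => 0) = 0 := by
  have := mC_smul hm 0 (BdC.const (X := X) 0)
  simpa using this

lemma mC_sum (hm : IsPos m) {ι : Type*} (s : Finset ι) {f : ι → X → ℂ}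
    (hf : ∀ i ∈ s, BdC (f i)) : mC m (fun x => ∑ i ∈ s, f i x) = ∑ i ∈ s, mC m (f i) := by
  classical
  induction s using Finset.induction_on with
  | empty => simpa using mC_zero hm
  | insert a s ha ih =>
    have hf' : ∀ i ∈ s, BdC (f i) := fun i hi => hf i (Finset.mem_insert_of_mem hi)
    rw [Finset.sum_insert ha, ← ih hf',
      ← mC_add hm (hf a (Finset.mem_insert_self a s)) (BdC.sum s hf')]
    congr 1
    funext x
    rw [Finset.sum_insert ha]

lemma mC_conj (hm : IsPos m) {f : X → ℂ} (hf : BdC f) :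
    mC m (fun x => conj (f x)) = conj (mC m f) := by
  apply Complex.ext
  · simp only [mC_re, Complex.conj_re]
  · simp only [mC_im, Complex.conj_im]
    exact hm.neg hf.im

lemma mC_real (hm : IsPos m) (f : X → ℝ) : mC m (fun x => (f x : ℂ)) = (m f : ℂ) := by
  apply Complex.ext
  · simp [mC_re]
  · simp [mC_im, hm.zero]

lemma mC_const (hm : IsMean m) (c : ℂ) : mC m (fun _ => c) = c := by
  apply Complex.ext
  · simp only [mC_re, hm.const]
  · simp only [mC_im, hm.const]

lemma norm_mC_le (hm : IsPos m) {f : X → ℂ} (hf : BdC f) : ‖mC m f‖ ≤ m (fun x => ‖f x‖) := by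
  -- rotate
  obtain ⟨c, hc, hc2⟩ : ∃ c : ℂ, ‖c‖ = 1 ∧ c * mC m f = (‖mC m f‖ : ℂ) := by
    by_cases h : mC m f = 0
    · exact ⟨1, by simp, by simp [h]⟩
    · refine ⟨conj (mC m f) / ‖mC m f‖, ?_, ?_⟩
      · rw [norm_div, RCLike.norm_conj, Complex.norm_real, norm_norm,
          div_self (norm_ne_zero_iff.mpr h)]
      · rw [div_mul_eq_mul_div, Complex.conj_mul']
        field_simp
  have h1 : mC m (fun x => c * f x) = (‖mC m f‖ : ℂ) := by rw [mC_smul hm c hf, hc2]
  have h2 : ‖mC m f‖ = m (fun x => (c * f x).re) := by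
    have := congrArg Complex.re h1
    simp only [mC_re, Complex.ofReal_re] at this
    exact this.symm
  rw [h2]
  refine hm.mono (hf.smul c).re hf.norm (fun x => ?_)
  calc (c * f x).re ≤ ‖c * f x‖ := Complex.re_le_norm _
    _ = ‖f x‖ := by rw [norm_mul, hc, one_mul]

/-- Cauchy-Schwarz -/
lemma cs_mC (hm : IsPos m) {f g : X → ℂ} (hf : BdC f) (hg : BdC g) :
    ‖mC m (fun x => f x * conj (g x))‖ ^ 2 ≤
      m (fun x => ‖f x‖ ^ 2) * m (fun x => ‖g x‖ ^ 2) := by
  have h1 : ‖mC m (fun x => f x * conj (g x))‖ ≤ m (fun x => ‖f x‖ * ‖g x‖) := by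
    refine (norm_mC_le hm (hf.mul hg.conj)).trans_eq ?_
    congr 1
    funext x
    rw [norm_mul, RCLike.norm_conj]
  have h2 := hm.cs hf.norm hg.norm
  have h3 : ‖mC m (fun x => f x * conj (g x))‖ ^ 2 ≤ (m (fun x => ‖f x‖ * ‖g x‖)) ^ 2 := by
    gcongr
  exact h3.trans h2

lemma mC_inv {G : Type u} [AddCommGroup G] {m : (G → ℝ) → ℝ} (hm : IsInvMean m) {f : G → ℂ}
    (hf : BdC f) (g : G) : mC m (fun x => f (x + g)) = mC m f := by
  apply Complex.ext
  · simp only [mC_re]; exact hm.inv (fun x => (f x).re) g hf.re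
  · simp only [mC_im]; exact hm.inv (fun x => (f x).im) g hf.im

end Complex

/-! ### Iterated functionals -/

section Iter

variable {M : (Y → ℝ) → ℝ} {m : (X → ℝ) → ℝ}

lemma Bd.iter (hm : IsMean m) {F : Y → X → ℝ} {C : ℝ} (hF : ∀ y x, |F y x| ≤ C) :
    Bd (fun y => m (F y)) := ⟨C, fun y => hm.abs_le_of (hF y)⟩

lemma BdC.iter (hm : IsMean m) {F : Y → X → ℂ} {C : ℝ} (hF : ∀ y x, ‖F y x‖ ≤ C) :
    BdC (fun y => mC m (F y)) := by
  refine ⟨C, fun y => (norm_mC_le hm.toIsPos ⟨C, hF y⟩).trans ?_⟩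
  exact hm.le_of_le (BdC.norm ⟨C, hF y⟩) (hF y)

end Iter

/-- the indicator function -/
noncomputable def ind (A : Set X) : X → ℝ := A.indicator (fun _ => (1 : ℝ))

lemma ind_mem {A : Set X} {x : X} (h : x ∈ A) : ind A x = 1 := by simp [ind, h]
lemma ind_notMem {A : Set X} {x : X} (h : x ∉ A) : ind A x = 0 := by simp [ind, h]
lemma ind_icc (A : Set X) (x : X) : 0 ≤ ind A x ∧ ind A x ≤ 1 := by
  by_cases h : x ∈ A <;> simp [ind, h]
lemma ind_pos {A : Set X} {x : X} (h : 0 < ind A x) : x ∈ A := by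
  by_contra h'
  rw [ind_notMem h'] at h
  exact lt_irrefl _ h
lemma bd_ind (A : Set X) : Bd (ind A) := Bd.of_icc (ind_icc A)

/-- the upper Banach density: the supremum of `m(1_A)` over the invariant means `m` -/
noncomputable def upperDensity {G : Type u} [AddCommGroup G] (A : Set G) : ℝ :=
  sSup {x : ℝ | ∃ m : (G → ℝ) → ℝ, IsInvMean m ∧ m (ind A) = x}

/-- the Bohr set of the characters `χ j` and the radius `η` -/
def bohr {G : Type u} [AddCommGroup G] {k : ℕ} (χ : Fin k → AddChar G Circle) (η : ℝ) : Set G :=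
  {g | ∀ j, ‖((χ j g : Circle) : ℂ) - 1‖ < η}

/-- extremality (ergodicity) of an invariant mean -/
def Erg {G : Type u} [AddCommGroup G] (m : (G → ℝ) → ℝ) : Prop :=
  ∀ Θ : (G → ℝ) → ℝ, IsPos Θ → (∀ (f : G → ℝ) (g : G), Bd f → Θ (fun x => f (x + g)) = Θ f) →
    (∀ f, Bd f → (∀ x, 0 ≤ f x) → Θ f ≤ m f) → ∀ f, Bd f → Θ f = Θ (fun _ => 1) * m f

/-- the iterated functional `F ↦ M_y m_x F(y, x)` -/
def pm (M : (Y → ℝ) → ℝ) (m : (X → ℝ) → ℝ) : ((Y × X) → ℝ) → ℝ :=
  fun F => M (fun y => m (fun x => F (y, x)))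

lemma IsMean.pm {M : (Y → ℝ) → ℝ} {m : (X → ℝ) → ℝ} (hM : IsMean M) (hm : IsMean m) :
    IsMean (pm M m) where
  add F H hF hH := by
    obtain ⟨C, hC⟩ := hF
    obtain ⟨D, hD⟩ := hH
    show M (fun y => m (fun x => F (y, x) + H (y, x))) = _
    have e : (fun y => m (fun x => F (y, x) + H (y, x))) =
        fun y => m (fun x => F (y, x)) + m (fun x => H (y, x)) := by
      funext y
      exact hm.add _ _ ⟨C, fun x => hC _⟩ ⟨D, fun x => hD _⟩
    rw [e]
    exact hM.add _ _ (Bd.iter hm (fun y x => hC (y, x))) (Bd.iter hm (fun y x => hD (y, x)))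
  smul c F hF := by
    obtain ⟨C, hC⟩ := hF
    show M (fun y => m (fun x => c * F (y, x))) = _
    have e : (fun y => m (fun x => c * F (y, x))) = fun y => c * m (fun x => F (y, x)) := by
      funext y
      exact hm.smul _ _ ⟨C, fun x => hC _⟩
    rw [e]
    exact hM.smul _ _ (Bd.iter hm (fun y x => hC (y, x)))
  nonneg F hF h0 := by
    obtain ⟨C, hC⟩ := hF
    exact hM.nonneg _ (Bd.iter hm (fun y x => hC (y, x)))
      (fun y => hm.nonneg _ ⟨C, fun x => hC _⟩ (fun x => h0 _))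
  one := by
    show M (fun y => m (fun x => 1)) = 1
    simp only [hm.one, hM.one]

lemma mC_pm (M : (Y → ℝ) → ℝ) (m : (X → ℝ) → ℝ) (F : Y × X → ℂ) :
    mC (pm M m) F = mC M (fun y => mC m (fun x => F (y, x))) := rfl

lemma IsInvMean.pm {G : Type u} {K : Type v} [AddCommGroup G] [AddCommGroup K]
    {M : (K → ℝ) → ℝ} {m : (G → ℝ) → ℝ} (hM : IsInvMean M) (hm : IsInvMean m) :
    IsInvMean (Q136.BM.pm M m) where
  toIsMean := hM.toIsMean.pm hm.toIsMean
  inv F g hF := by
    obtain ⟨C, hC⟩ := hF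
    show M (fun y => m (fun x => F ((y, x) + g))) = _
    have e : (fun y => m (fun x => F ((y, x) + g))) =
        fun y => (fun y' => m (fun x => F (y', x))) (y + g.1) := by
      funext y
      exact hm.inv (fun x => F (y + g.1, x)) g.2 ⟨C, fun x => hC _⟩
    rw [e, hM.inv _ _ (Bd.iter hm.toIsMean (fun y x => hC (y, x)))]
    rfl

end Q136.BM
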