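import Pool.Agent.Q75.BM.Stm

/-! # Counting real zeros by the intermediate value theorem (project BM, jobs CT and RT) -/

set_option autoImplicit false

namespace Pool.Agent.Q136.BM

open Pool.Agent.Q75.BM
open Filter Topology MeasureTheory Set

theorem form_zero (lw1 : S_LW1) (w : List Ltr) (α β t : ℝ) (j : ℤ)
    (h : lw w t β - α = Real.pi / 2 + j * Real.pi) :
    ∑ i, ∑ k, ev α i * rwmat w t i k * ev β k = 0 := by
  obtain ⟨r, hr, hv⟩ := (lw1 w β).2 t
  have h0 := congrFun hv 0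
  have h1 := congrFun hv 1
  simp only [Matrix.mulVec, dotProduct, Fin.sum_univ_two, Pi.smul_apply, smul_eq_mul] at h0 h1
  have e0 : ev (lw w t β) 0 = Real.cos (lw w t β) := by simp [ev]
  have e1 : ev (lw w t β) 1 = Real.sin (lw w t β) := by simp [ev]
  have a0 : ev α 0 = Real.cos α := by simp [ev]
  have a1 : ev α 1 = Real.sin α := by simp [ev]
  have hc : Real.cos (lw w t β - α) = 0 := by
    rw [Real.cos_eq_zero_iff]
    exact ⟨j, by rw [h]; ring⟩
  rw [Real.cos_sub] at hc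
  rw [e0] at h0
  rw [e1] at h1
  simp only [Fin.sum_univ_two]
  calc _ = ev α 0 * (rwmat w t 0 0 * ev β 0 + rwmat w t 0 1 * ev β 1) +
      ev α 1 * (rwmat w t 1 0 * ev β 0 + rwmat w t 1 1 * ev β 1) := by ring
    _ = r * (Real.cos (lw w t β) * Real.cos α + Real.sin (lw w t β) * Real.sin α) := by
      rw [h0, h1, a0, a1]; ring
    _ = 0 := by rw [hc, mul_zero]

theorem t_CT (lw1 : S_LW1) (lw2 : S_LW2) : S_CT := by
  intro w α β
  classical
  have hp := Real.pi_pos
  set g : ℝ → ℝ := fun l => lw w l β - α with hg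
  have hgc : Continuous g := (lw1 w β).1.sub continuous_const
  have hd : Real.pi * ((na w : ℝ) - 4 * nm w - 2) ≤ g (-3) - g 3 := by
    have h := lw2 w β
    simp only [hg]
    nlinarith [h.1, h.2]
  set A : ℝ := (g 3 - Real.pi / 2) / Real.pi with hA
  set B : ℝ := (g (-3) - Real.pi / 2) / Real.pi with hB
  have hAB : (na w : ℝ) - 4 * nm w - 2 ≤ B - A := by
    rw [hA, hB, ← sub_div, le_div_iff₀ hp]
    linarith
  have hex : ∀ j : ℤ, ∃ t : ℝ, j ∈ Finset.Icc ⌈A⌉ ⌊B⌋ →
      t ∈ Icc (-3 : ℝ) 3 ∧ g t = Real.pi / 2 + j * Real.pi := by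
    intro j
    by_cases hj : j ∈ Finset.Icc ⌈A⌉ ⌊B⌋
    · rw [Finset.mem_Icc] at hj
      have h1 : A ≤ j := (Int.le_ceil A).trans (by exact_mod_cast hj.1)
      have h2 : (j : ℝ) ≤ B := le_trans (by exact_mod_cast hj.2) (Int.floor_le B)
      rw [hA, div_le_iff₀ hp] at h1
      rw [hB, le_div_iff₀ hp] at h2
      have hiv := intermediate_value_Icc' (show (-3 : ℝ) ≤ 3 by norm_num) hgc.continuousOn
      obtain ⟨t, ht, he⟩ := hiv (show Real.pi / 2 + j * Real.pi ∈ Icc (g 3) (g (-3)) from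
        ⟨by linarith, by linarith⟩)
      exact ⟨t, fun _ => ⟨ht, he⟩⟩
    · exact ⟨0, fun h => absurd h hj⟩
  choose f hf using hex
  refine ⟨(Finset.Icc ⌈A⌉ ⌊B⌋).image f, ?_, ?_⟩
  · rw [Finset.card_image_of_injOn, Int.card_Icc]
    · have h1 : ((⌊B⌋ + 1 - ⌈A⌉ : ℤ) : ℝ) ≤ ((⌊B⌋ + 1 - ⌈A⌉).toNat : ℝ) := by
        exact_mod_cast Int.self_le_toNat _
      have h2 : B - 1 < ⌊B⌋ := Int.sub_one_lt_floor B
      have h3 : (⌈A⌉ : ℝ) < A + 1 := Int.ceil_lt_add_one A
      push_cast at h1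
      linarith
    · intro i hi j hj hij
      have h1 := (hf i (Finset.mem_coe.1 hi)).2
      have h2 := (hf j (Finset.mem_coe.1 hj)).2
      rw [hij, h2] at h1
      have h3 : (j : ℝ) * Real.pi = i * Real.pi := by linarith
      have h4 := mul_right_cancel₀ hp.ne' h3
      exact_mod_cast h4.symm
  · intro t ht
    obtain ⟨j, hj, rfl⟩ := Finset.mem_image.1 ht
    have h := hf j hj
    exact ⟨h.1, form_zero lw1 w α β (f j) j h.2⟩

theorem t_RT (ct : S_CT) (wm : S_WM) : S_RT := by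
  classical
  intro w α β P hP hPe φ hφ
  refine ⟨?_, ?_, ?_⟩
  · refine Multiset.sum_nonneg (fun x hx => ?_)
    obtain ⟨z, _, rfl⟩ := Multiset.mem_map.1 hx
    exact hφ z
  · intro h1
    obtain ⟨Z, hZ, hZ2⟩ := ct w α β
    refine hZ.trans ?_
    have hsub : Z.image (fun t : ℝ => (t : ℂ)) ⊆ P.roots.toFinset := by
      intro z hz
      obtain ⟨t, ht, rfl⟩ := Finset.mem_image.1 hz
      rw [Multiset.mem_toFinset, Polynomial.mem_roots hP, Polynomial.IsRoot.def, ← hPe]
      have h2 := (hZ2 t ht).2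
      have h3 : bf (wmat w (t : ℂ)) α β =
          ((∑ i, ∑ j, ev α i * rwmat w t i j * ev β j : ℝ) : ℂ) := by
        unfold bf
        push_cast
        refine Finset.sum_congr rfl (fun i _ => Finset.sum_congr rfl (fun j _ => ?_))
        rw [(wm w).2.1 t i j]
      rw [h3, h2, Complex.ofReal_zero]
    have hcard : (Z.image (fun t : ℝ => (t : ℂ))).card = Z.card :=
      Finset.card_image_of_injective _ Complex.ofReal_injective
    rw [Finset.sum_multiset_map_count]
    calc (Z.card : ℝ) = ∑ z ∈ Z.image (fun t : ℝ => (t : ℂ)), (1 : ℝ) := by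
          rw [Finset.sum_const, hcard]; simp
      _ ≤ ∑ z ∈ Z.image (fun t : ℝ => (t : ℂ)), φ z := by
          refine Finset.sum_le_sum (fun z hz => ?_)
          obtain ⟨t, ht, rfl⟩ := Finset.mem_image.1 hz
          exact h1 _ ⟨t, (hZ2 t ht).1, rfl⟩
      _ ≤ ∑ z ∈ P.roots.toFinset, φ z :=
          Finset.sum_le_sum_of_subset_of_nonneg hsub (fun z _ _ => hφ z)
      _ ≤ ∑ z ∈ P.roots.toFinset, Multiset.count z P.roots • φ z := by
          refine Finset.sum_le_sum (fun z hz => ?_)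
          rw [Multiset.mem_toFinset, ← Multiset.one_le_count_iff_mem] at hz
          rw [nsmul_eq_mul]
          have : (1 : ℝ) ≤ (Multiset.count z P.roots : ℝ) := by exact_mod_cast hz
          nlinarith [hφ z]
  · intro h1
    obtain ⟨Q, hQ, hQe⟩ := (wm w).2.2 α β
    have hPQ : P = Q := Polynomial.funext (fun z => by rw [← hPe, ← hQe])
    have h2 : (P.roots.map φ).sum ≤ (P.roots.map φ).card • (1 : ℝ) := by
      refine Multiset.sum_le_card_nsmul _ _ (fun x hx => ?_)
      obtain ⟨z, _, rfl⟩ := Multiset.mem_map.1 hx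
      exact h1 z
    rw [Multiset.card_map, nsmul_eq_mul, mul_one] at h2
    refine h2.trans ?_
    have h3 : P.roots.card ≤ w.length := (Polynomial.card_roots' P).trans (hPQ ▸ hQ)
    exact_mod_cast h3

end Pool.Agent.Q136.BM
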