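import Pool.Agent.Q136.BM.Stm

/-!
# Functionals dominated by an extremal invariant mean and invariant under a subgroup of finite index
-/

namespace Q136.BM

open scoped ComplexConjugate BigOperators

universe u

theorem coset : S_coset.{u} := by
  classical
  intro G _ m hm he G' _ Θ hΘ hinv hdom
  let r : G ⧸ G' → G := fun c => Quotient.out c
  have hr : ∀ c, (QuotientAddGroup.mk (r c) : G ⧸ G') = c := fun c => Quotient.out_eq c
  let I : G ⧸ G' → G → ℝ := fun c => ind {x : G | (QuotientAddGroup.mk x : G ⧸ G') = c}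
  have hIb : ∀ c, Bd (I c) := fun c => bd_ind _
  have hI1 : ∀ c x, (QuotientAddGroup.mk x : G ⧸ G') = c → I c x = 1 := fun c x h => ind_mem h
  have hI0 : ∀ c x, (QuotientAddGroup.mk x : G ⧸ G') ≠ c → I c x = 0 := fun c x h => ind_notMem h
  have hIt : ∀ c x t, t ∈ G' → I c (x + t) = I c x := by
    intro c x t ht
    have h1 : (QuotientAddGroup.mk (x + t) : G ⧸ G') = QuotientAddGroup.mk x := by
      rw [QuotientAddGroup.mk_add, (QuotientAddGroup.eq_zero_iff t).mpr ht, add_zero]
    by_cases h : (QuotientAddGroup.mk x : G ⧸ G') = c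
    · rw [hI1 c x h, hI1 c _ (h1.trans h)]
    · rw [hI0 c x h, hI0 c _ (by rw [h1]; exact h)]
  let Θc : G ⧸ G' → (G → ℝ) → ℝ := fun c f => ∑ s, Θ (fun z => I c z * f (z + r s))
  have hb : ∀ c s f, Bd f → Bd (fun z => I c z * f (z + r s)) := fun c s f hf =>
    (hIb c).mul (hf.comp (fun z => z + r s))
  have hpos : ∀ c, IsPos (Θc c) := fun c =>
    { add := fun f g hf hg => by
        show ∑ s, Θ (fun z => I c z * (f (z + r s) + g (z + r s))) =
          ∑ s, Θ (fun z => I c z * f (z + r s)) + ∑ s, Θ (fun z => I c z * g (z + r s))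
        rw [← Finset.sum_add_distrib]
        refine Finset.sum_congr rfl (fun s _ => ?_)
        rw [← hΘ.add _ _ (hb c s f hf) (hb c s g hg)]
        congr 1
        funext z
        ring
      smul := fun a f hf => by
        show ∑ s, Θ (fun z => I c z * (a * f (z + r s))) = a * ∑ s, Θ (fun z => I c z * f (z + r s))
        rw [Finset.mul_sum]
        refine Finset.sum_congr rfl (fun s _ => ?_)
        rw [← hΘ.smul _ _ (hb c s f hf)]
        congr 1
        funext z
        ring
      nonneg := fun f hf h0 => Finset.sum_nonneg (fun s _ => hΘ.nonneg _ (hb c s f hf)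
        (fun z => mul_nonneg (ind_icc _ _).1 (h0 _))) }
  have hΘinv : ∀ c (f : G → ℝ) (g : G), Bd f → Θc c (fun x => f (x + g)) = Θc c f := by
    intro c f g hf
    refine Fintype.sum_equiv (Equiv.addRight (QuotientAddGroup.mk g : G ⧸ G')) _ _ (fun s => ?_)
    show Θ (fun z => I c z * f (z + r s + g)) =
      Θ (fun z => I c z * f (z + r (s + QuotientAddGroup.mk g)))
    have ht : r s + g - r (s + QuotientAddGroup.mk g) ∈ G' := by
      rw [← QuotientAddGroup.eq_zero_iff, QuotientAddGroup.mk_sub, QuotientAddGroup.mk_add, hr, hr]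
      exact sub_self _
    rw [← hinv _ (hb c (s + QuotientAddGroup.mk g) f hf) _ ht]
    congr 1
    funext z
    show I c z * f (z + r s + g) = I c (z + (r s + g - r (s + QuotientAddGroup.mk g))) *
      f (z + (r s + g - r (s + QuotientAddGroup.mk g)) + r (s + QuotientAddGroup.mk g))
    rw [hIt c z _ ht]
    congr 2
    abel
  have hsum1 : ∀ c (z : G), ∑ s, I c (z + -r s) = 1 := by
    intro c z
    rw [Finset.sum_eq_single ((QuotientAddGroup.mk z : G ⧸ G') - c)]
    · apply hI1
      rw [QuotientAddGroup.mk_add, QuotientAddGroup.mk_neg, hr]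
      abel
    · intro s _ hs
      apply hI0
      intro h
      apply hs
      rw [QuotientAddGroup.mk_add, QuotientAddGroup.mk_neg, hr] at h
      rw [← h]
      abel
    · exact fun h => absurd (Finset.mem_univ _) h
  have hΘdom : ∀ c f, Bd f → (∀ x, 0 ≤ f x) → Θc c f ≤ m f := by
    intro c f hf h0
    have h1 : Θc c f ≤ ∑ s, m (fun z => I c (z + -r s) * f z) := by
      refine Finset.sum_le_sum (fun s _ => ?_)
      refine (hdom _ (hb c s f hf) (fun z => mul_nonneg (ind_icc _ _).1 (h0 _))).trans_eq ?_
      rw [← hm.inv (fun z => I c z * f (z + r s)) (-r s) (hb c s f hf)]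
      congr 1
      funext z
      rw [neg_add_cancel_right]
    refine h1.trans_eq ?_
    rw [← hm.toIsPos.sum Finset.univ (fun s _ => ((hIb c).comp (fun z => z + -r s)).mul hf)]
    congr 1
    funext z
    rw [← Finset.sum_mul, hsum1, one_mul]
  have hone : Bd (fun _ : G => (1 : ℝ)) := Bd.const 1
  refine ⟨fun c => Θc c (fun _ => 1), fun c => ⟨(hpos c).nonneg _ hone (fun _ => zero_le_one), ?_⟩,
    fun f hf => ?_⟩
  · have h1 := hΘdom c (fun _ => 1) hone (fun _ => zero_le_one)
    rwa [hm.one] at h1
  · have h1 : ∀ c, Θ (fun z => I c z * f z) = Θc c (fun _ => 1) * m (fun z => I c z * f z) := by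
      intro c
      rw [← he (Θc c) (hpos c) (hΘinv c) (hΘdom c) _ ((hIb c).mul hf)]
      show Θ (fun z => I c z * f z) = ∑ s, Θ (fun z => I c z * (I c (z + r s) * f (z + r s)))
      rw [Finset.sum_eq_single (0 : G ⧸ G')]
      · have h0 : r 0 ∈ G' := by
          rw [← QuotientAddGroup.eq_zero_iff, hr]
        rw [← hinv _ ((hIb c).mul hf) _ h0]
        congr 1
        funext z
        rw [hIt c z _ h0]
        by_cases h : (QuotientAddGroup.mk z : G ⧸ G') = c
        · rw [hI1 c z h, one_mul, one_mul]
        · rw [hI0 c z h, zero_mul, zero_mul]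
      · intro s _ hs
        have e : (fun z => I c z * (I c (z + r s) * f (z + r s))) = fun _ => 0 := by
          funext z
          by_cases h : (QuotientAddGroup.mk z : G ⧸ G') = c
          · have h2 : (QuotientAddGroup.mk (z + r s) : G ⧸ G') ≠ c := by
              rw [QuotientAddGroup.mk_add, hr, h]
              intro h3
              exact hs (left_eq_add.mp h3.symm)
            rw [hI0 c _ h2]
            ring
          · rw [hI0 c z h]
            ring
        rw [e, hΘ.zero]
      · exact fun h => absurd (Finset.mem_univ _) h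
    rw [← Finset.sum_congr rfl (fun c _ => h1 c),
      ← hΘ.sum Finset.univ (fun c _ => (hIb c).mul hf)]
    congr 1
    funext z
    rw [← Finset.sum_mul]
    have h2 : ∑ c, I c z = 1 := by
      rw [Finset.sum_eq_single (QuotientAddGroup.mk z : G ⧸ G')]
      · exact hI1 _ _ rfl
      · intro c _ hc
        exact hI0 c z (fun h => hc h.symm)
      · exact fun h => absurd (Finset.mem_univ _) h
    rw [h2, one_mul]

end Q136.BM
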