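import Pool.Agent.Q75.BM.Stm

/-! # Rotation bounds at the two end points (project BM, job LW2) -/

set_option autoImplicit false

namespace Pool.Agent.Q136.BM

open Pool.Agent.Q75.BM
open Filter Topology MeasureTheory Set

/-- `lift` is `π`-equivariant for integer multiples -/
theorem lift_zadd (lf : S_LF) (s : Ltr) (l θ : ℝ) (k : ℤ) :
    lift s l (θ + k * Real.pi) = lift s l θ + k * Real.pi := by
  have h1 : ∀ θ : ℝ, lift s l (θ + Real.pi) = lift s l θ + Real.pi :=
    fun θ => (((lf s).2 l).2 θ).2.1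
  induction k using Int.induction_on with
  | zero => simp
  | succ i ih =>
    have := h1 (θ + (i : ℤ) * Real.pi)
    push_cast at this ih ⊢
    rw [show θ + ((i : ℝ) + 1) * Real.pi = θ + (i : ℝ) * Real.pi + Real.pi by ring, this, ih]
    ring
  | pred i ih =>
    have := h1 (θ + (-(i : ℤ) - 1 : ℤ) * Real.pi)
    push_cast at this ih ⊢
    rw [show θ + (-(i : ℝ) - 1) * Real.pi + Real.pi = θ + -(i : ℝ) * Real.pi by ring, ih] at this
    linarith

/-- upper estimate: if `θ ≤ π/4 + k π` then `lw w 3 θ ≤ π/4 + (k + 2 nm w) π` -/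
theorem up (lf : S_LF) (l3 : S_L3) (θ : ℝ) (k : ℤ) (hk : θ ≤ Real.pi / 4 + k * Real.pi) :
    ∀ w : List Ltr, lw w 3 θ ≤ Real.pi / 4 + (k + 2 * nm w) * Real.pi := by
  intro w
  induction w with
  | nil => simpa [lw, nm] using hk
  | cons s w ih =>
    by_cases hs : s = Ltr.a
    · have hn : nm (s :: w) = nm w := by simp [nm, hs]
      rw [hn]
      subst hs
      have hm := ((lf Ltr.a).2 3).1.monotone ih
      have hz := lift_zadd lf Ltr.a 3 (Real.pi / 4) (k + 2 * (nm w : ℤ))
      push_cast at hz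
      rw [hz] at hm
      have := l3.1
      simp only [lw]
      linarith
    · have hn : nm (s :: w) = nm w + 1 := by simp [nm, hs]
      rw [hn]
      have hb := (((lf s).2 3).2 (lw w 3 θ)).1
      rw [abs_lt] at hb
      simp only [lw]
      push_cast
      have := Real.pi_pos
      nlinarith [hb.2]

/-- lower estimate -/
theorem low (lf : S_LF) (l3 : S_L3) (θ : ℝ) (k : ℤ) (hk : 3 * Real.pi / 4 + k * Real.pi ≤ θ) :
    ∀ w : List Ltr, 3 * Real.pi / 4 + (k + na w - 2 * nm w) * Real.pi ≤ lw w (-3) θ := by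
  intro w
  induction w with
  | nil => simpa [lw, nm, na] using hk
  | cons s w ih =>
    by_cases hs : s = Ltr.a
    · have hn : nm (s :: w) = nm w := by simp [nm, hs]
      have ha : na (s :: w) = na w + 1 := by simp [na, hs]
      rw [hn, ha]
      subst hs
      have hm := ((lf Ltr.a).2 (-3)).1.monotone ih
      have hz := lift_zadd lf Ltr.a (-3) (3 * Real.pi / 4) (k + (na w : ℤ) - 2 * (nm w : ℤ))
      push_cast at hz
      rw [hz] at hm
      have := l3.2
      simp only [lw]
      push_cast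
      linarith
    · have hn : nm (s :: w) = nm w + 1 := by simp [nm, hs]
      have ha : na (s :: w) = na w := by simp [na, hs]
      rw [hn, ha]
      have hb := (((lf s).2 (-3)).2 (lw w (-3) θ)).1
      rw [abs_lt] at hb
      simp only [lw]
      push_cast
      have := Real.pi_pos
      nlinarith [hb.1]

theorem t_LW2 (lf : S_LF) (l3 : S_L3) : S_LW2 := by
  intro w θ
  have hp := Real.pi_pos
  constructor
  · set k : ℤ := ⌈(θ - Real.pi / 4) / Real.pi⌉ with hkdef
    have h1 : (θ - Real.pi / 4) / Real.pi ≤ k := Int.le_ceil _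
    have h2 : (k : ℝ) < (θ - Real.pi / 4) / Real.pi + 1 := Int.ceil_lt_add_one _
    rw [div_le_iff₀ hp] at h1
    have h3 : (k : ℝ) * Real.pi < θ - Real.pi / 4 + Real.pi := by
      have := mul_lt_mul_of_pos_right h2 hp
      rwa [add_mul, div_mul_cancel₀ _ hp.ne', one_mul] at this
    have := up lf l3 θ k (by linarith) w
    linarith
  · set k : ℤ := ⌊(θ - 3 * Real.pi / 4) / Real.pi⌋ with hkdef
    have h1 : (k : ℝ) ≤ (θ - 3 * Real.pi / 4) / Real.pi := Int.floor_le _
    have h2 : (θ - 3 * Real.pi / 4) / Real.pi < k + 1 := Int.lt_floor_add_one _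
    rw [le_div_iff₀ hp] at h1
    rw [div_lt_iff₀ hp] at h2
    have := low lf l3 θ k (by linarith) w
    nlinarith

end Pool.Agent.Q136.BM
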