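import Pool.Agent.Q136.BM.Basic

/-!
# Bohr sets in sums of endomorphic images: the statements of the lemmas

Notation: `G`, `K` abelian groups (any cardinality), `m` an invariant mean on `G`, `M` one on `K`
(or on `G`), `mC` the complex extension, `ind A` the indicator function,
characters are elements of `AddChar G Circle`.
-/

namespace Q136.BM

open scoped ComplexConjugate BigOperators

universe u

/-- EXISTS. Every abelian group has an invariant mean. -/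
def S_exists : Prop := ∀ (G : Type u) [AddCommGroup G], ∃ m : (G → ℝ) → ℝ, IsInvMean m

/-- ERG. An extremal invariant mean which is at least as large at `A` as a given one. -/
def S_erg : Prop := ∀ (G : Type u) [AddCommGroup G] (m₀ : (G → ℝ) → ℝ) (A : Set G),
  IsInvMean m₀ → ∃ m : (G → ℝ) → ℝ, IsInvMean m ∧ Erg m ∧ m₀ (ind A) ≤ m (ind A)

/-- E. Mixing on average. -/
def S_E : Prop := ∀ (G : Type u) [AddCommGroup G] (m M : (G → ℝ) → ℝ),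
  IsInvMean m → Erg m → IsInvMean M → ∀ f g : G → ℂ, BdC f → BdC g →
    mC M (fun t => mC m (fun z => f (z + t) * conj (g z))) = mC m f * conj (mC m g)

/-- positive definite functions -/
def PD {G : Type u} [AddCommGroup G] (F : G → ℂ) : Prop :=
  ∀ (n : ℕ) (x : Fin n → G) (c : Fin n → ℂ),
    0 ≤ (∑ i, ∑ j, c i * conj (c j) * F (x i - x j)).re ∧
      (∑ i, ∑ j, c i * conj (c j) * F (x i - x j)).im = 0

/-- PDB. Elementary properties of positive definite functions. -/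
def S_pdb : Prop := ∀ (G : Type u) [AddCommGroup G] (F : G → ℂ), PD F →
  (∀ x, F (-x) = conj (F x)) ∧ (∀ x, ‖F x‖ ≤ (F 0).re) ∧ (F 0).im = 0

/-- SCHUR. -/
def S_schur : Prop := ∀ (G : Type u) [AddCommGroup G] (m : (G → ℝ) → ℝ), IsInvMean m →
  ∀ (F h : G → ℂ), PD F → BdC h →
    PD (fun k => F k * mC m (fun z => h (z + k) * conj (h z)))

/-- AUTO. Autocorrelations are positive definite. -/
def S_auto : Prop := ∀ (G : Type u) [AddCommGroup G] (m : (G → ℝ) → ℝ), IsInvMean m →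
  ∀ (h : G → ℂ), BdC h → PD (fun k => mC m (fun z => h (z + k) * conj (h z)))

/-- PDCHAR. The extreme points of the positive definite functions with value `1` at `0` are
characters. -/
def S_pdchar : Prop := ∀ (G : Type u) [AddCommGroup G] (F : G → ℂ),
  F ∈ Set.extremePoints ℝ {F : G → ℂ | PD F ∧ F 0 = 1} →
    ∃ χ : AddChar G Circle, ∀ x, F x = ((χ x : Circle) : ℂ)

/-- PDM1. The mean of a positive definite function is at most every quadratic form. -/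
def S_pdm1 : Prop := ∀ (G : Type u) [AddCommGroup G] (M : (G → ℝ) → ℝ), IsInvMean M →
  ∀ D : G → ℂ, PD D → ∀ (n : ℕ) (x : Fin n → G), 0 < n →
    (mC M D).re ≤ (∑ i, ∑ j, D (x i - x j)).re / (n : ℝ) ^ 2

/-- PDM2. The mean of a bounded hermitian function is at least the infimum of the quadratic
forms. -/
def S_pdm2 : Prop := ∀ (G : Type u) [AddCommGroup G] (M : (G → ℝ) → ℝ), IsInvMean M →
  ∀ D : G → ℂ, BdC D → (∀ x, D (-x) = conj (D x)) → ∀ ε : ℝ, 0 < ε →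
    ∃ (n : ℕ) (x : Fin n → G), 0 < n ∧
      (∑ i, ∑ j, D (x i - x j)).re / (n : ℝ) ^ 2 ≤ (mC M D).re + ε

/-- MAX. The maximum principle: the mean of `F B` is maximal at a character `F`. -/
def S_max : Prop := ∀ (G : Type u) [AddCommGroup G] (M : (G → ℝ) → ℝ), IsInvMean M →
  ∀ B : G → ℂ, BdC B → (∀ F : G → ℂ, PD F → PD (fun k => F k * B k)) →
    ∀ F : G → ℂ, PD F → F 0 = 1 → ∃ χ : AddChar G Circle,
      (mC M (fun k => F k * B k)).re ≤ (mC M (fun k => ((χ k : Circle) : ℂ) * B k)).re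

/-- INV. The inverse theorem. -/
def S_inv : Prop := ∀ (G : Type u) [AddCommGroup G] (m M : (G → ℝ) → ℝ),
  IsInvMean m → Erg m → IsInvMean M → ∀ (h w : G → ℂ), BdC h → BdC w → ∀ L : ℝ, 0 ≤ L →
    (∀ χ : AddChar G Circle, ‖mC m (fun z => h z * conj ((χ z : Circle) : ℂ))‖ ≤ L) →
    M (fun k => ‖mC m (fun z => h (z + k) * conj (w z))‖ ^ 2) ≤ L ^ 2 * m (fun z => ‖w z‖ ^ 2)

/-- BESSEL. Characters are orthonormal; Bessel's inequality. -/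
def S_bessel : Prop := ∀ (G : Type u) [AddCommGroup G] (m : (G → ℝ) → ℝ), IsInvMean m →
  (∀ χ ψ : AddChar G Circle, χ ≠ ψ →
    mC m (fun z => ((χ z : Circle) : ℂ) * conj ((ψ z : Circle) : ℂ)) = 0) ∧
  (∀ (f : G → ℂ) (Λ : Finset (AddChar G Circle)), BdC f →
    m (fun z => ‖f z - ∑ χ ∈ Λ, mC m (fun z => f z * conj ((χ z : Circle) : ℂ)) *
        ((χ z : Circle) : ℂ)‖ ^ 2) =
      m (fun z => ‖f z‖ ^ 2) - ∑ χ ∈ Λ, ‖mC m (fun z => f z * conj ((χ z : Circle) : ℂ))‖ ^ 2) ∧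
  (∀ (Λ : Finset (AddChar G Circle)) (a : AddChar G Circle → ℂ),
    m (fun z => ‖∑ χ ∈ Λ, a χ * ((χ z : Circle) : ℂ)‖ ^ 2) = ∑ χ ∈ Λ, ‖a χ‖ ^ 2)

/-- LARGE. The large Fourier coefficients. -/
def S_large : Prop := ∀ (G : Type u) [AddCommGroup G] (m : (G → ℝ) → ℝ), IsInvMean m →
  ∀ (f : G → ℂ), (∀ x, ‖f x‖ ≤ 1) → ∀ ε : ℝ, 0 < ε → ∃ Λ : Finset (AddChar G Circle),
    (Λ.card : ℝ) * ε ^ 2 ≤ 1 ∧
    ∀ χ : AddChar G Circle, χ ∈ Λ ↔ ε ≤ ‖mC m (fun z => f z * conj ((χ z : Circle) : ℂ))‖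

/-- DECOMP. The decomposition of averaged differences. -/
def S_decomp : Prop := ∀ (G : Type u) [AddCommGroup G] (m : (G → ℝ) → ℝ), IsInvMean m →
  ∀ (f : G → ℝ), (∀ x, 0 ≤ f x ∧ f x ≤ 1) → ∀ ε : ℝ, 0 < ε →
  ∃ Λ : Finset (AddChar G Circle), (Λ.card : ℝ) * ε ^ 2 ≤ 1 ∧
    ∀ (φ : G →+ G) (p : G) (η : ℝ), 0 ≤ η →
      (∀ χ ∈ Λ, (∀ x, φ x = 0 → χ x = 1) → ‖((χ p : Circle) : ℂ) - 1‖ ≤ η) →
      ∃ (N : ℕ) (s : Fin N → G), 0 < N ∧ (∀ i, φ (s i) = 0) ∧ ∃ h₁ h₂ : G → ℂ,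
        BdC h₁ ∧ BdC h₂ ∧
        (∀ z, ((((∑ i, (f (z + p + s i) - f (z + s i))) / (N : ℝ) : ℝ)) : ℂ) = h₁ z + h₂ z) ∧
        m (fun z => ‖h₁ z‖ ^ 2) ≤ (η + 2 * ε) ^ 2 ∧ m (fun z => ‖h₂ z‖ ^ 2) ≤ 1 ∧
        ∀ χ : AddChar G Circle, ‖mC m (fun z => h₂ z * conj ((χ z : Circle) : ℂ))‖ ≤ 2 * ε

/-- DOM. An invariant mean of `K` pushed to `G` along a homomorphism with image of finite index
is dominated by an invariant mean of `G`. -/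
def S_dom : Prop := ∀ (G K : Type u) [AddCommGroup G] [AddCommGroup K] (M : (K → ℝ) → ℝ),
  IsInvMean M → ∀ π : K →+ G, π.range.index ≠ 0 → ∃ M' : (G → ℝ) → ℝ, IsInvMean M' ∧
    ∀ f : G → ℝ, Bd f → (∀ x, 0 ≤ f x) → M (fun y => f (π y)) ≤ π.range.index * M' f

/-- COSET. Functionals dominated by an extremal invariant mean and invariant under a subgroup of
finite index. -/
def S_coset : Prop := ∀ (G : Type u) [AddCommGroup G] (m : (G → ℝ) → ℝ), IsInvMean m → Erg m →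
  ∀ (G' : AddSubgroup G) [Fintype (G ⧸ G')] (Θ : (G → ℝ) → ℝ), IsPos Θ →
    (∀ (f : G → ℝ), Bd f → ∀ t ∈ G', Θ (fun x => f (x + t)) = Θ f) →
    (∀ f, Bd f → (∀ x, 0 ≤ f x) → Θ f ≤ m f) →
    ∃ θ : G ⧸ G' → ℝ, (∀ c, 0 ≤ θ c ∧ θ c ≤ 1) ∧ ∀ f, Bd f →
      Θ f = ∑ c, θ c * m (fun z => ind {x : G | (QuotientAddGroup.mk x : G ⧸ G') = c} z * f z)

/-- VDC. van der Corput's inequality. -/
def S_vdc : Prop := ∀ (K Z : Type u) [AddCommGroup K] (M : (K → ℝ) → ℝ) (m : (Z → ℝ) → ℝ),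
  IsInvMean M → IsMean m → ∀ (Ψ : K → Z → ℂ) (C : ℝ), (∀ y z, ‖Ψ y z‖ ≤ C) →
  ∀ f : Z → ℂ, (∀ z, ‖f z‖ ≤ 1) →
    ‖mC M (fun y => mC m (fun z => f z * Ψ y z))‖ ^ 2 ≤
      M (fun κ => (mC M (fun y => mC m (fun z => Ψ (y + κ) z * conj (Ψ y z)))).re)

/-- GVN. The generalised von Neumann inequality. -/
def S_gvn : Prop := ∀ (G K : Type u) [AddCommGroup G] [AddCommGroup K] (m : (G → ℝ) → ℝ)
  (M : (K → ℝ) → ℝ), IsInvMean m → Erg m → IsInvMean M →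
  ∀ (ι : Type) [Fintype ι] (π₁ : K →+ G) (π : ι → K →+ G) (G' : AddSubgroup G),
    G'.index ≠ 0 → π₁.range.index ≠ 0 →
    (∀ t ∈ G', ∃ (y : K) (s : G), π₁ y + s = t ∧ ∀ j, π j y + s = 0) →
  ∀ (f₀ : G → ℝ) (f : ι → G → ℝ) (h : G → ℂ) (L : ℝ), (∀ x, 0 ≤ f₀ x ∧ f₀ x ≤ 1) →
    (∀ j x, 0 ≤ f j x ∧ f j x ≤ 1) → BdC h → 0 ≤ L →
    (∀ χ : AddChar G Circle, ‖mC m (fun z => h z * conj ((χ z : Circle) : ℂ))‖ ≤ L) →
    ‖mC M (fun y => mC m (fun z => (f₀ z : ℂ) * ((∏ j, (f j (z + π j y) : ℂ)) *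
        h (z + π₁ y))))‖ ^ 2 ≤
      G'.index * Real.sqrt π₁.range.index * L * Real.sqrt (m (fun z => ‖h z‖ ^ 2))

/-- DHJ. Positivity, from the density Hales-Jewett theorem. -/
def S_dhj : Prop := ∀ (ι : Type) [Fintype ι] [Nonempty ι] (δ : ℝ), 0 < δ → ∃ c : ℝ, 0 < c ∧
  ∀ (G K : Type u) [AddCommGroup G] [AddCommGroup K] (m : (G → ℝ) → ℝ) (M : (K → ℝ) → ℝ),
    IsInvMean m → IsInvMean M → ∀ (π : ι → K →+ G) (A : Set G), δ ≤ m (ind A) →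
      c ≤ M (fun y => m (fun z => ∏ j, ind A (z + π j y)))

/-- CHAREXT. Characters of a subgroup extend. -/
def S_charext : Prop := ∀ (G : Type u) [AddCommGroup G] (φ : G →+ G) (χ : AddChar G Circle),
  (∀ x, φ x = 0 → χ x = 1) → ∃ ψ : AddChar G Circle, ∀ x, ψ (φ x) = χ x

/-- SUBBOHR. A subgroup of index `n` contains a Bohr set of rank `n`. -/
def S_subbohr : Prop := ∀ n : ℕ, n ≠ 0 → ∃ η : ℝ, 0 < η ∧ ∀ (G : Type u) [AddCommGroup G]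
  (H : AddSubgroup G), H.index = n → ∃ χ : Fin n → AddChar G Circle, bohr χ η ⊆ H

/-- CORE. The theorem for one extremal mean. -/
def S_core : Prop := ∀ (ι : Type) [Fintype ι] [DecidableEq ι] (a b c : ι), a ≠ b → a ≠ c →
  b ≠ c → ∀ (δ : ℝ), 0 < δ → ∀ n : ι → ℕ, (∀ j, n j ≠ 0) → ∃ (k : ℕ) (η : ℝ), 0 < η ∧
  ∀ (G : Type u) [AddCommGroup G] (φ : ι → G →+ G), (∀ j, (φ j).range.index = n j) →
    (∑ j, φ j = 0) → ∀ m : (G → ℝ) → ℝ, IsInvMean m → Erg m → ∀ A : Set G, δ ≤ m (ind A) →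
      ∃ χ : Fin k → AddChar G Circle, ∀ g ∈ bohr χ η,
        ∃ x : ι → G, (∀ j, x j ∈ A) ∧ ∑ j, φ j (x j) = g

/-! ### The partition theorem -/

/-- BDENS. Bohr sets have density bounded below. -/
def S_bdens : Prop := ∀ (k : ℕ) (η : ℝ), 0 < η → ∃ β : ℝ, 0 < β ∧
  ∀ (G : Type u) [AddCommGroup G] (m : (G → ℝ) → ℝ), IsInvMean m →
    ∀ χ : Fin k → AddChar G Circle, β ≤ m (ind (bohr χ η))

/-- DISINT. An invariant mean on `K` whose image is dominated by the given mean on `G`. -/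
def S_disint : Prop := ∀ (G K : Type u) [AddCommGroup G] [AddCommGroup K] (m : (G → ℝ) → ℝ),
  IsInvMean m → ∀ π : K →+ G, π.range.index ≠ 0 → ∃ M : (K → ℝ) → ℝ, IsInvMean M ∧
    ∀ f : G → ℝ, Bd f → (∀ x, 0 ≤ f x) → M (fun y => f (π y)) ≤ π.range.index * m f

/-- the group of the pairs `(t, x)` with `φ t = φ₃ x` -/
def KK {G : Type u} [AddCommGroup G] (φ φ₃ : G →+ G) : AddSubgroup (G × G) :=
  (φ.comp (AddMonoidHom.fst G G) - φ₃.comp (AddMonoidHom.snd G G)).ker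

lemma mem_KK {G : Type u} [AddCommGroup G] {φ φ₃ : G →+ G} {κ : G × G} :
    κ ∈ KK φ φ₃ ↔ φ κ.1 = φ₃ κ.2 := by
  simp [KK, AddMonoidHom.mem_ker, sub_eq_zero]

/-- the count of the pattern `z, z + t, x` with `φ t = φ₃ x` in `A` -/
noncomputable def cnt {G : Type u} [AddCommGroup G] (m : (G → ℝ) → ℝ) {φ φ₃ : G →+ G}
    (M : (KK φ φ₃ → ℝ) → ℝ) (A : Set G) : ℝ :=
  M (fun κ => ind A κ.1.2 * m (fun z => ind A z * ind A (z + κ.1.1)))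

/-- SCHURB. A large count gives a Bohr set. -/
def S_schurb : Prop := ∀ (c : ℝ), 0 < c → ∀ n n₃ : ℕ, n ≠ 0 → n₃ ≠ 0 → ∃ (k : ℕ) (η : ℝ), 0 < η ∧
  ∀ (G : Type u) [AddCommGroup G] (φ φ₃ : G →+ G), φ.range.index = n → φ₃.range.index = n₃ →
    ∀ (m : (G → ℝ) → ℝ) (M : (KK φ φ₃ → ℝ) → ℝ), IsInvMean m → Erg m → IsInvMean M →
    ∀ A : Set G, c ≤ cnt m M A → ∃ χ : Fin k → AddChar G Circle, ∀ g ∈ bohr χ η,
      ∃ x₁ ∈ A, ∃ x₂ ∈ A, ∃ x₃ ∈ A, φ x₁ - φ x₂ + φ₃ x₃ = g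

/-- POS. Some dense cell has a large count and meets the given Bohr set. -/
def S_pos : Prop := ∀ (r l : ℕ) (ζ ρ : ℝ) (n n₃ : ℕ), 0 < ζ → 0 < ρ → n ≠ 0 → n₃ ≠ 0 →
  ∃ c β : ℝ, 0 < c ∧ 0 < β ∧
  ∀ (G : Type u) [AddCommGroup G] (φ φ₃ : G →+ G), φ.range.index = n → φ₃.range.index = n₃ →
    ∀ (m : (G → ℝ) → ℝ) (M : (KK φ φ₃ → ℝ) → ℝ), IsInvMean m → Erg m → IsInvMean M →
    (∀ f : G → ℝ, Bd f → (∀ x, 0 ≤ f x) → M (fun κ => f κ.1.2) ≤ n * m f) →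
    ∀ A : Fin r → Set G, (∀ x, ∃ i, x ∈ A i) → (∀ i j, i ≠ j → Disjoint (A i) (A j)) →
    (∀ i, m (ind (A i)) < ρ → m (ind (A i)) ≤ β) →
    ∀ ξ : Fin l → AddChar G Circle, ∃ i, ρ ≤ m (ind (A i)) ∧ c ≤ cnt m M (A i) ∧
      (A i ∩ bohr ξ ζ).Nonempty

/-- the conclusion of the partition theorem for the endomorphisms `φ j` and the cell `A` -/
def HasBohr {G : Type u} [AddCommGroup G] {ι : Type} [Fintype ι] (φ : ι → G →+ G) (A : Set G)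
    (k : ℕ) (η : ℝ) : Prop :=
  ∃ χ : Fin k → AddChar G Circle, ∀ g ∈ bohr χ η,
    ∃ x : ι → G, (∀ j, x j ∈ A) ∧ ∑ j, φ j (x j) = g

/-- PART3. The partition theorem if at least three endomorphisms sum to zero. -/
def S_part3 : Prop := ∀ (d : ℕ) (S : Finset (Fin d)), 3 ≤ S.card → ∀ (r : ℕ) (n : Fin d → ℕ),
  0 < r → (∀ j, n j ≠ 0) → ∃ (k : ℕ) (η : ℝ), 0 < η ∧
  ∀ (G : Type u) [AddCommGroup G] (φ : Fin d → G →+ G), (∀ j, (φ j).range.index = n j) →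
    (∑ j ∈ S, φ j = 0) → ∀ A : Fin r → Set G, (∀ x, ∃ i, x ∈ A i) →
    (∀ i j, i ≠ j → Disjoint (A i) (A j)) → ∃ i, HasBohr φ (A i) k η

/-- PART2. The partition theorem if two endomorphisms sum to zero and there is a third one. -/
def S_part2 : Prop := ∀ (d : ℕ), 3 ≤ d → ∀ (S : Finset (Fin d)), S.card = 2 →
  ∀ (r : ℕ) (n : Fin d → ℕ),
  0 < r → (∀ j, n j ≠ 0) → ∃ (k : ℕ) (η : ℝ), 0 < η ∧
  ∀ (G : Type u) [AddCommGroup G] (φ : Fin d → G →+ G), (∀ j, (φ j).range.index = n j) →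
    (∑ j ∈ S, φ j = 0) → ∀ A : Fin r → Set G, (∀ x, ∃ i, x ∈ A i) →
    (∀ i j, i ≠ j → Disjoint (A i) (A j)) → ∃ i, HasBohr φ (A i) k η

/-- PART1. The partition theorem if one endomorphism is zero (then `G` is finite). -/
def S_part1 : Prop := ∀ (d : ℕ) (S : Finset (Fin d)), S.card = 1 →
  ∀ (r : ℕ) (n : Fin d → ℕ),
  0 < r → (∀ j, n j ≠ 0) → ∃ (k : ℕ) (η : ℝ), 0 < η ∧
  ∀ (G : Type u) [AddCommGroup G] (φ : Fin d → G →+ G), (∀ j, (φ j).range.index = n j) →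
    (∑ j ∈ S, φ j = 0) → ∀ A : Fin r → Set G, (∀ x, ∃ i, x ∈ A i) →
    (∀ i j, i ≠ j → Disjoint (A i) (A j)) → ∃ i, HasBohr φ (A i) k η

end Q136.BM
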